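import Pool.Agent.Helper15.MD.Stm
import Pool.Graph.R_seed8.W413.MZ.H1

/-! BC (helper60): the maximal extension of `F` unramified outside `S` lies in the one of `F'`. -/

set_option autoImplicit false

namespace Pool.Agent.Helper15.MD.BC

open NumberField IsDedekindDomain MZ

variable {F Ω F' : Type} [Field F] [NumberField F] [Field Ω] [Algebra F Ω] [IsAlgClosure F Ω]
  [Field F'] [NumberField F'] [Algebra F F'] [Algebra F' Ω] [IsScalarTower F F' Ω]

/-- unramified extensions of `F` are unramified over an intermediate field -/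
theorem step (S : Set (HeightOneSpectrum (𝓞 F))) (S' : Set (HeightOneSpectrum (𝓞 F')))
    (hS : ∀ w : HeightOneSpectrum (𝓞 F'),
      (∃ v ∈ S, w.asIdeal.comap (algebraMap (𝓞 F) (𝓞 F')) = v.asIdeal) → w ∈ S')
    (K' : IntermediateField F' Ω) (hfin : FiniteDimensional F' K')
    (h : UnramifiedOutside S (K'.restrictScalars F)) : UnramifiedOutside S' K' := by
  have h' : ∀ w : HeightOneSpectrum (𝓞 K'),
      (∀ v ∈ S, w.asIdeal.comap (algebraMap (𝓞 F) (𝓞 K')) ≠ v.asIdeal) →
        Algebra.IsUnramifiedAt (𝓞 F) w.asIdeal := h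
  have : NumberField K' := by
    have : CharZero K' := charZero_of_injective_algebraMap (algebraMap F' K').injective
    have : FiniteDimensional ℚ K' := FiniteDimensional.trans ℚ F' K'
    exact ⟨⟩
  have : IsScalarTower F F' K' := inferInstance
  have : IsScalarTower (𝓞 F) (𝓞 F') (𝓞 K') := by
    refine IsScalarTower.of_algebraMap_eq fun x => ?_
    apply RingOfIntegers.ext
    show algebraMap F K' (x : F) = algebraMap F' K' (algebraMap F F' (x : F))
    exact IsScalarTower.algebraMap_apply F F' K' (x : F)
  intro w hw
  have h1 : Algebra.IsUnramifiedAt (𝓞 F) w.asIdeal := by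
    apply h' w
    intro v hv hwv
    -- the prime of `F'` below `w`
    have hinj : Function.Injective (algebraMap (𝓞 F') (𝓞 K')) :=
      FaithfulSMul.algebraMap_injective (𝓞 F') (𝓞 K')
    have hp : (w.asIdeal.comap (algebraMap (𝓞 F') (𝓞 K'))).IsPrime := w.isPrime.comap _
    have hne : w.asIdeal.comap (algebraMap (𝓞 F') (𝓞 K')) ≠ ⊥ := by
      have : Algebra.IsIntegral (𝓞 F') (𝓞 K') := inferInstance
      exact mt Ideal.eq_bot_of_comap_eq_bot w.ne_bot
    let u : HeightOneSpectrum (𝓞 F') := ⟨_, hp, hne⟩
    have hu : u ∈ S' := by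
      apply hS
      refine ⟨v, hv, ?_⟩
      rw [← hwv]
      show Ideal.comap (algebraMap (𝓞 F) (𝓞 F')) (Ideal.comap (algebraMap (𝓞 F') (𝓞 K')) w.asIdeal) = _
      rw [Ideal.comap_comap, ← IsScalarTower.algebraMap_eq]
    exact hw u hu rfl
  exact Algebra.IsUnramifiedAt.of_restrictScalars (𝓞 F) (A := 𝓞 F') w.asIdeal

theorem main : S_BC := by
  intro F Ω F' _ _ _ _ _ _ _ _ _ _ S S' hS hF' x hx
  have : CharZero Ω := charZero_of_injective_algebraMap (algebraMap F Ω).injective
  have : FiniteDimensional F F' := by
    have : FiniteDimensional ℚ F' := inferInstance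
    exact Module.Finite.of_restrictScalars_finite ℚ F F'
  have hint : IsIntegral F' x := (Algebra.IsIntegral.isIntegral (R := F) x).tower_top
  let K' : IntermediateField F' Ω := IntermediateField.adjoin F' {x}
  have hfin : FiniteDimensional F' K' := IntermediateField.adjoin.finiteDimensional hint
  have : FiniteDimensional F (K'.restrictScalars F) := by
    have : FiniteDimensional F K' := FiniteDimensional.trans F F' K'
    exact this
  have hle : K'.restrictScalars F ≤ FSmax S := by
    let T : IntermediateField F' Ω :=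
      { (FSmax S : IntermediateField F Ω).toSubfield with
        algebraMap_mem' := fun y => hF' y }
    have hT : K' ≤ T := by
      rw [IntermediateField.adjoin_le_iff]
      rintro y rfl
      exact hx
    intro y hy
    exact hT hy
  have h1 : UnramifiedOutside S (K'.restrictScalars F) :=
    MZ413.stmExH1 F Ω S (K'.restrictScalars F) inferInstance hle
  have h2 := step S S' hS K' hfin h1
  have h3 : K' ≤ FSmax S' := le_iSup (fun K : {K : IntermediateField F' Ω //
    FiniteDimensional F' K ∧ UnramifiedOutside S' K} => K.1) ⟨K', hfin, h2⟩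
  exact h3 (IntermediateField.mem_adjoin_simple_self F' x)

end Pool.Agent.Helper15.MD.BC
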