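import Pool.Agent.Helper15.MD.Stm

/-! module BUR (helper9): Burnside's theorem -/

set_option autoImplicit false

namespace Pool.Agent.Helper15.MD.BUR

open Module MZ

/-- Burnside's theorem over an algebraically closed field. -/
theorem burnside {K : Type} [Field K] [IsAlgClosed K] {V : Type} [AddCommGroup V] [Module K V]
    [FiniteDimensional K V] [Nontrivial V] (R : Subalgebra K (End K V))
    (h : ∀ W : Submodule K V, (∀ r ∈ R, ∀ x ∈ W, r x ∈ W) → W = ⊥ ∨ W = ⊤) : R = ⊤ := by
  classical
  -- `V` is a simple module over `R`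
  have hsmul : ∀ (r : R) (x : V), r • x = (r : End K V) x := fun r x => rfl
  have hK : ∀ (c : K) (x : V), c • x = (algebraMap K R c) • x := by
    intro c x
    rw [hsmul]
    simp [Module.algebraMap_end_apply]
  let toK : Submodule R V → Submodule K V := fun W =>
    { carrier := W
      add_mem' := fun ha hb => W.add_mem ha hb
      zero_mem' := W.zero_mem
      smul_mem' := fun c x hx => by
        rw [hK]
        exact W.smul_mem _ hx }
  have hsimple : IsSimpleModule R V := by
    refine { toIsSimpleOrder := { toNontrivial := ?_, eq_bot_or_eq_top := ?_ } }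
    · exact (Submodule.nontrivial_iff R).2 inferInstance
    · intro W
      rcases h (toK W) (fun r hr x hx => W.smul_mem (⟨r, hr⟩ : R) hx) with h1 | h1
      · left
        rw [eq_bot_iff]
        intro x hx
        have h2 : x ∈ toK W := hx
        rw [h1] at h2
        simpa using h2
      · right
        rw [eq_top_iff]
        intro x _
        have h2 : x ∈ toK W := by rw [h1]; trivial
        exact h2
  have := hsimple
  -- Schur
  have hschur : ∀ f : End R V, ∃ μ : K, ∀ x, f x = μ • x := by
    intro f
    let f' : End K V :=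
      { toFun := f
        map_add' := f.map_add
        map_smul' := fun c x => by
          rw [hK, f.map_smul, hK]
          rfl }
    obtain ⟨μ, hμ⟩ := Module.End.exists_eigenvalue f'
    obtain ⟨v, hv⟩ := hμ.exists_hasEigenvector
    refine ⟨μ, ?_⟩
    have h1 := h (End.eigenspace f' μ) (by
      intro r hr x hx
      rw [End.mem_eigenspace_iff] at hx ⊢
      change f x = μ • x at hx
      change f (r x) = μ • r x
      have h2 : f ((⟨r, hr⟩ : R) • x) = (⟨r, hr⟩ : R) • f x := f.map_smul _ _
      rw [hsmul, hsmul] at h2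
      change f (r x) = r (f x) at h2
      rw [h2, hx, map_smul])
    rcases h1 with h1 | h1
    · exfalso
      have h2 : v ∈ End.eigenspace f' μ := hv.1
      rw [h1] at h2
      exact hv.2 (by simpa using h2)
    · intro x
      have h2 : x ∈ End.eigenspace f' μ := by rw [h1]; trivial
      rw [End.mem_eigenspace_iff] at h2
      exact h2
  rw [eq_top_iff]
  intro T _
  let F : End (End R V) V :=
    { toFun := T
      map_add' := T.map_add
      map_smul' := fun f x => by
        obtain ⟨μ, hμ⟩ := hschur f
        change T (f x) = f (T x)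
        rw [hμ, hμ, map_smul] }
  let b := Module.finBasis K V
  obtain ⟨r, hr⟩ := jacobson_density (R := R) (M := V) F (Finset.univ.image b)
  have h1 : T = (r : End K V) := by
    apply b.ext
    intro i
    exact hr (b i) (Finset.mem_image_of_mem _ (Finset.mem_univ i))
  rw [h1]
  exact r.2

theorem main : S_BUR := by
  classical
  intro k _ G _ n ρbar hn hirr
  let K := AlgebraicClosure k
  let φ : Matrix (Fin n) (Fin n) k →+* Matrix (Fin n) (Fin n) K := (algebraMap k K).mapMatrix
  let ρ : G →* Matrix (Fin n) (Fin n) K :=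
    (φ : Matrix (Fin n) (Fin n) k →* Matrix (Fin n) (Fin n) K).comp ((Units.coeHom _).comp ρbar)
  have hρ : ∀ g, ρ g = ((ρbar g : Matrix (Fin n) (Fin n) k).map (algebraMap k K)) := fun g => rfl
  let R : Subalgebra K (Matrix (Fin n) (Fin n) K) := Algebra.adjoin K (Set.range ρ)
  let e : Matrix (Fin n) (Fin n) K ≃ₐ[K] End K (Fin n → K) := Matrix.toLinAlgEquiv'
  have : Nonempty (Fin n) := ⟨⟨0, hn⟩⟩
  have hR : R.map (e : Matrix (Fin n) (Fin n) K →ₐ[K] End K (Fin n → K)) = ⊤ := by
    apply burnside
    intro W hW
    apply hirr W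
    intro g x hx
    have h1 : e (ρ g) ∈ R.map (e : Matrix (Fin n) (Fin n) K →ₐ[K] End K (Fin n → K)) :=
      ⟨ρ g, Algebra.subset_adjoin ⟨g, rfl⟩, rfl⟩
    have h2 := hW _ h1 x hx
    have h3 : e (ρ g) x = (ρ g).mulVec x := by
      simp [e, Matrix.toLinAlgEquiv'_apply]
    rw [h3] at h2
    exact h2
  have hRtop : R = ⊤ := by
    rw [eq_top_iff]
    intro M _
    have h1 : e M ∈ R.map (e : Matrix (Fin n) (Fin n) K →ₐ[K] End K (Fin n → K)) := by
      rw [hR]
      trivial
    obtain ⟨N, hN, hNM⟩ := h1
    have h2 : N = M := e.injective hNM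
    rw [← h2]
    exact hN
  have hspan : Submodule.span K (Set.range ρ) = ⊤ := by
    have h1 : Subalgebra.toSubmodule R = Submodule.span K (Submonoid.closure (Set.range ρ)) :=
      Algebra.adjoin_eq_span _ _
    have h2 : Submonoid.closure (Set.range ρ) = MonoidHom.mrange ρ := by
      have : Set.range ρ = (MonoidHom.mrange ρ : Set _) := by
        ext; simp
      rw [this, Submonoid.closure_eq]
    rw [h2, hRtop] at h1
    have h3 : ((MonoidHom.mrange ρ : Submonoid (Matrix (Fin n) (Fin n) K)) :
        Set (Matrix (Fin n) (Fin n) K)) = Set.range ρ := by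
      ext; simp
    rw [h3] at h1
    rw [← h1]
    simp
  -- descent
  by_contra hne
  have hlt : Submodule.span k (Set.range fun g => (ρbar g : Matrix (Fin n) (Fin n) k)) < ⊤ :=
    lt_top_iff_ne_top.2 hne
  obtain ⟨f, hf0, hf⟩ := Submodule.exists_le_ker_of_lt_top _ hlt
  have hfM : ∀ M : Matrix (Fin n) (Fin n) k, f M = ∑ i, ∑ j, M i j * f (Matrix.single i j 1) := by
    intro M
    conv_lhs => rw [Matrix.matrix_eq_sum_single M]
    rw [map_sum]
    refine Finset.sum_congr rfl fun i _ => ?_
    rw [map_sum]
    refine Finset.sum_congr rfl fun j _ => ?_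
    have : Matrix.single i j (M i j) = M i j • Matrix.single i j (1 : k) := by
      rw [Matrix.smul_single, smul_eq_mul, mul_one]
    rw [this, map_smul, smul_eq_mul]
  let F : Matrix (Fin n) (Fin n) K →ₗ[K] K :=
    ∑ i, ∑ j, algebraMap k K (f (Matrix.single i j 1)) • Matrix.entryLinearMap K K i j
  have hFM : ∀ M, F M = ∑ i, ∑ j, M i j * algebraMap k K (f (Matrix.single i j 1)) := by
    intro M
    simp only [F, LinearMap.sum_apply, LinearMap.smul_apply, Matrix.entryLinearMap_apply, smul_eq_mul]
    refine Finset.sum_congr rfl fun i _ => Finset.sum_congr rfl fun j _ => mul_comm _ _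
  have hF : Set.range ρ ⊆ LinearMap.ker F := by
    rintro _ ⟨g, rfl⟩
    rw [SetLike.mem_coe, LinearMap.mem_ker, hFM]
    have h1 : f (ρbar g : Matrix (Fin n) (Fin n) k) = 0 := hf (Submodule.subset_span ⟨g, rfl⟩)
    rw [hfM] at h1
    have h2 := congrArg (algebraMap k K) h1
    rw [map_zero, map_sum] at h2
    rw [← h2]
    refine Finset.sum_congr rfl fun i _ => ?_
    rw [map_sum]
    refine Finset.sum_congr rfl fun j _ => ?_
    rw [map_mul]
    rfl
  have hF0 : ∀ M, F M = 0 := by
    intro M
    have h1 : M ∈ Submodule.span K (Set.range ρ) := by rw [hspan]; trivial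
    exact Submodule.span_le.2 hF h1
  apply hf0
  ext M
  rw [hfM]
  have hz : ∀ i j, f (Matrix.single i j 1) = 0 := by
    intro i j
    have h1 := hF0 (Matrix.single i j 1)
    rw [hFM, Finset.sum_eq_single i, Finset.sum_eq_single j] at h1
    · rw [Matrix.single_apply_same, one_mul] at h1
      exact (map_eq_zero (algebraMap k K)).1 h1
    · intro j' _ hj'
      simp [hj'.symm]
    · intro h; exact absurd (Finset.mem_univ _) h
    · intro i' _ hi'
      apply Finset.sum_eq_zero
      intro j' _
      simp [hi'.symm]
    · intro h; exact absurd (Finset.mem_univ _) h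
  simp [hz]

end Pool.Agent.Helper15.MD.BUR
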