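import Pool.Agent.Helper15.MD.Stm
import Pool.Graph.R_seed8.W505.MZ.Delta

/-! DEL (helper60): `δ = 1` over a totally real field if all involutions have trivial image. -/

set_option autoImplicit false

namespace Pool.Agent.Helper15.MD.DEL

open NumberField IsDedekindDomain MZ

theorem nrComplex {F : Type} [Field F] [NumberField F] (h : ∀ v : InfinitePlace F, v.IsReal) :
    InfinitePlace.nrComplexPlaces F = 0 := by
  classical
  unfold InfinitePlace.nrComplexPlaces
  rw [Fintype.card_eq_zero_iff]
  constructor
  rintro ⟨w, hw⟩
  exact (InfinitePlace.not_isReal_iff_isComplex.2 hw) (h w)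

theorem card_places {F : Type} [Field F] [NumberField F] (h : ∀ v : InfinitePlace F, v.IsReal) :
    Fintype.card (InfinitePlace F) = Module.finrank ℚ F := by
  have h1 := InfinitePlace.card_eq_nrRealPlaces_add_nrComplexPlaces F
  have h2 := InfinitePlace.card_add_two_mul_card_eq_rank F
  rw [nrComplex h] at h1 h2
  omega

theorem main : S_DEL := by
  intro F Ω _ _ _ _ S k _ ρbar hreal hρ w _
  have key : ∀ v : InfinitePlace F,
      Module.finrank k (ad0Inv ρbar (MulAction.stabilizer (GFS Ω S) (w v))) = 8 := by
    intro v
    rw [← Pool.Agent.W505.MZ.finrank_trace k]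
    have : ad0Inv ρbar (MulAction.stabilizer (GFS Ω S) (w v)) =
        LinearMap.ker (Matrix.traceLinearMap (Fin 3) k k) := by
      ext X
      constructor
      · intro hX
        exact hX.1
      · intro hX
        refine ⟨hX, ?_⟩
        intro g hg
        have hg2 : g * g = 1 := by
          rw [← InfinitePlace.mk_embedding (w v), InfinitePlace.mem_stabilizer_mk_iff] at hg
          rcases hg with rfl | hg
          · simp
          · apply AlgEquiv.ext
            intro x
            apply (InfinitePlace.embedding (w v)).injective
            show InfinitePlace.embedding (w v) (g (g x)) = InfinitePlace.embedding (w v) x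
            rw [hg.eq, hg.eq, star_star]
        rw [hρ g hg2]
        simp
    rw [this]
  unfold _root_.MZ.delta
  rw [Finset.sum_congr rfl (fun v _ => by rw [key v]), Finset.sum_const, Finset.card_univ,
    card_places hreal, nrComplex hreal]
  push_cast
  ring

end Pool.Agent.Helper15.MD.DEL
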