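import Pool.Agent.Helper15.MD.Stm

/-!
Module DIM: the Krull dimension of `R / 2 R` from a lift to power series.
-/

set_option autoImplicit false

namespace Pool.Agent.Helper15.MD.DIM

open Finset

section kill

variable (k : Type) [Field k] {τ : Type} (P : τ → Prop)

/-- the extension of an exponent by zero -/
noncomputable def ext (m : {s : τ // ¬ P s} →₀ ℕ) : τ →₀ ℕ :=
  Finsupp.embDomain (Function.Embedding.subtype _) m

lemma ext_apply (m : {s : τ // ¬ P s} →₀ ℕ) (s : {s : τ // ¬ P s}) : ext P m s.1 = m s :=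
  Finsupp.embDomain_apply_self (Function.Embedding.subtype _) m s

lemma ext_zero' (m : {s : τ // ¬ P s} →₀ ℕ) (s : τ) (hs : P s) : ext P m s = 0 := by
  refine Finsupp.embDomain_of_notMem_range (Function.Embedding.subtype _) m s ?_
  rintro ⟨x, hx⟩
  exact x.2 (by rw [show (x : τ) = s from hx]; exact hs)

lemma ext_add (m m' : {s : τ // ¬ P s} →₀ ℕ) : ext P (m + m') = ext P m + ext P m' := by
  ext s
  by_cases hs : P s
  · rw [Finsupp.add_apply, ext_zero' P _ s hs, ext_zero' P _ s hs, ext_zero' P _ s hs]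
  · rw [Finsupp.add_apply]
    have h := fun m : {s : τ // ¬ P s} →₀ ℕ => ext_apply P m ⟨s, hs⟩
    simp only at h
    rw [h, h, h, Finsupp.add_apply]

/-- the restriction of an exponent -/
noncomputable def res (n : τ →₀ ℕ) : {s : τ // ¬ P s} →₀ ℕ :=
  n.comapDomain Subtype.val Subtype.val_injective.injOn

lemma res_apply (n : τ →₀ ℕ) (s : {s : τ // ¬ P s}) : res P n s = n s.1 := rfl

lemma res_ext (m : {s : τ // ¬ P s} →₀ ℕ) : res P (ext P m) = m := by
  ext s
  rw [res_apply, ext_apply]

lemma ext_res (n : τ →₀ ℕ) (hn : ∀ s, P s → n s = 0) : ext P (res P n) = n := by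
  ext s
  by_cases hs : P s
  · rw [ext_zero' P _ s hs, hn s hs]
  · exact ext_apply P _ ⟨s, hs⟩

/-- the map which kills the variables with `P` -/
noncomputable def killFun (f : MvPowerSeries τ k) : MvPowerSeries {s : τ // ¬ P s} k :=
  fun m => MvPowerSeries.coeff (ext P m) f

lemma coeff_killFun (f : MvPowerSeries τ k) (m : {s : τ // ¬ P s} →₀ ℕ) :
    MvPowerSeries.coeff m (killFun k P f) = MvPowerSeries.coeff (ext P m) f := rfl

/-- the ring map which kills the variables with `P` -/
noncomputable def kill : MvPowerSeries τ k →+* MvPowerSeries {s : τ // ¬ P s} k where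
  toFun f := killFun k P f
  map_one' := by
    classical
    ext m
    rw [coeff_killFun, MvPowerSeries.coeff_one, MvPowerSeries.coeff_one]
    have h : ext P m = 0 ↔ m = 0 := by
      constructor
      · intro h
        rw [← res_ext P m, h]
        ext s
        rfl
      · rintro rfl
        ext s
        by_cases hs : P s
        · exact ext_zero' P _ s hs
        · exact ext_apply P 0 ⟨s, hs⟩
    simp only [h]
  map_zero' := by
    ext m
    rw [coeff_killFun, map_zero, map_zero]
  map_add' f g := by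
    ext m
    rw [coeff_killFun, map_add, map_add, coeff_killFun, coeff_killFun]
  map_mul' f g := by
    classical
    ext m
    rw [coeff_killFun, MvPowerSeries.coeff_mul, MvPowerSeries.coeff_mul]
    refine Finset.sum_bij' (fun p _ => (res P p.1, res P p.2)) (fun p _ => (ext P p.1, ext P p.2))
      ?_ ?_ ?_ ?_ ?_
    · intro p hp
      rw [Finset.HasAntidiagonal.mem_antidiagonal] at hp ⊢
      ext s
      rw [Finsupp.add_apply, res_apply, res_apply, ← ext_apply P m s, ← hp, Finsupp.add_apply]
    · intro p hp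
      rw [Finset.HasAntidiagonal.mem_antidiagonal] at hp ⊢
      rw [← hp, ext_add]
    · intro p hp
      rw [Finset.HasAntidiagonal.mem_antidiagonal] at hp
      have h0 : ∀ s, P s → p.1 s = 0 ∧ p.2 s = 0 := by
        intro s hs
        have h1 := ext_zero' P m s hs
        rw [← hp, Finsupp.add_apply] at h1
        omega
      exact Prod.ext (ext_res P _ fun s hs => (h0 s hs).1) (ext_res P _ fun s hs => (h0 s hs).2)
    · intro p hp
      exact Prod.ext (res_ext P _) (res_ext P _)
    · intro p hp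
      rw [Finset.HasAntidiagonal.mem_antidiagonal] at hp
      have h0 : ∀ s, P s → p.1 s = 0 ∧ p.2 s = 0 := by
        intro s hs
        have h1 := ext_zero' P m s hs
        rw [← hp, Finsupp.add_apply] at h1
        omega
      rw [coeff_killFun, coeff_killFun]
      rw [ext_res P _ fun s hs => (h0 s hs).1, ext_res P _ fun s hs => (h0 s hs).2]

lemma kill_eq_zero (f : MvPowerSeries τ k) :
    kill k P f = 0 ↔ ∀ n : τ →₀ ℕ, (∀ s, P s → n s = 0) → MvPowerSeries.coeff n f = 0 := by
  constructor
  · intro h n hn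
    have h1 := congrArg (MvPowerSeries.coeff (res P n)) h
    change MvPowerSeries.coeff (ext P (res P n)) f = _ at h1
    rw [ext_res P n hn] at h1
    rw [h1]
    simp
  · intro h
    ext m
    change MvPowerSeries.coeff (ext P m) f = _
    rw [h (ext P m) (ext_zero' P m)]
    simp

end kill

theorem main : S_DIM := by
  intro k _ _ _ G _ _ _ n ρbar τ _ o N ρ hρ hw R ρu hR
  obtain ⟨f, ⟨-, M, -, hM⟩, -⟩ := hR.2 (MV k τ) ρ hρ
  let F : R.A →+* MvPowerSeries τ k := (f : R.A →+* (MV k τ).A)
  have hFw : ∀ w : WittVector 2 k, F (algebraMap (WittVector 2 k) R.A w) =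
      MvPowerSeries.C (w.coeff 0) := fun w => f.commutes w
  let ρ' : G →* GL (Fin n) (MvPowerSeries τ k) := ρ
  have htr : ∀ g, ((ρ' g : Matrix (Fin n) (Fin n) (MvPowerSeries τ k))).trace =
      F ((ρu g : Matrix (Fin n) (Fin n) R.A).trace) := by
    intro g
    have h5 : ρ g = _ := hM g
    have h6 : (ρ g : Matrix (Fin n) (Fin n) (MV k τ).A) =
        (M : Matrix (Fin n) (Fin n) (MV k τ).A) *
        ((ρu g : Matrix (Fin n) (Fin n) R.A).map f) *
        ((M⁻¹ : GL (Fin n) (MV k τ).A) : Matrix (Fin n) (Fin n) (MV k τ).A) := by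
      rw [h5]
      rfl
    have h7 : ((ρ g : Matrix (Fin n) (Fin n) (MV k τ).A)).trace =
        ((ρu g : Matrix (Fin n) (Fin n) R.A).map f).trace := by
      rw [h6, Matrix.trace_mul_comm, ← mul_assoc]
      have h8 : ((M⁻¹ : GL (Fin n) (MV k τ).A) : Matrix (Fin n) (Fin n) (MV k τ).A) *
          (M : Matrix (Fin n) (Fin n) (MV k τ).A) = 1 := by
        rw [← Units.val_mul, inv_mul_cancel, Units.val_one]
      rw [h8, one_mul]
    have h9 : ((ρu g : Matrix (Fin n) (Fin n) R.A).map f).trace =
        F ((ρu g : Matrix (Fin n) (Fin n) R.A).trace) := by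
      rw [Matrix.trace, Matrix.trace, map_sum]
      rfl
    exact h7.trans h9
  -- Teichmueller lifts
  let br : k → R.A := fun a => algebraMap (WittVector 2 k) R.A (WittVector.teichmuller 2 a)
  have hbr : ∀ a, F (br a) = MvPowerSeries.C a := by
    intro a
    change F (algebraMap (WittVector 2 k) R.A (WittVector.teichmuller 2 a)) = _
    rw [hFw, WittVector.teichmuller_coeff_zero]
  let y : (G →₀ k) → R.A := fun w => w.sum fun g x => br x *
    ((ρu g : Matrix (Fin n) (Fin n) R.A).trace - br ((ρbar g : Matrix (Fin n) (Fin n) k).trace))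
  have hy : ∀ w, F (y w) = TrS ρbar ρ' w := by
    intro w
    change F (w.sum _) = w.sum _
    rw [Finsupp.sum, Finsupp.sum, map_sum]
    refine Finset.sum_congr rfl fun g _ => ?_
    rw [map_mul, map_sub, hbr, hbr, ← htr]
  let I : Ideal R.A := Ideal.span {((2 : ℕ) : R.A)}
  have h2 : F ((2 : ℕ) : R.A) = 0 := by
    rw [map_natCast]
    have h1 : ((2 : ℕ) : MvPowerSeries τ k) = MvPowerSeries.C ((2 : ℕ) : k) :=
      (map_natCast (MvPowerSeries.C (σ := τ) (R := k)) 2).symm
    rw [h1, CharP.cast_eq_zero, map_zero]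
  have hI : ∀ a ∈ I, F a = 0 := by
    intro a ha
    obtain ⟨c, rfl⟩ := Ideal.mem_span_singleton.1 ha
    rw [map_mul, h2, zero_mul]
  let Fb : R.A ⧸ I →+* MvPowerSeries τ k := Ideal.Quotient.lift I F hI
  have hFb : ∀ a, Fb (Ideal.Quotient.mk I a) = F a := fun a => Ideal.Quotient.lift_mk I F hI
  let Q : ℕ → Ideal (R.A ⧸ I) := fun r =>
    RingHom.ker ((kill k (fun s : τ => o s < r)).comp Fb)
  have hQ : ∀ r x, x ∈ Q r ↔ Fb x ∈ QI k o r := by
    intro r x
    change (kill k (fun s : τ => o s < r)) (Fb x) = 0 ↔ _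
    rw [kill_eq_zero]
    rfl
  have hprime : ∀ r, (Q r).IsPrime := fun r => by
    have : IsDomain (MvPowerSeries { s : τ // ¬ o s < r } k) := NoZeroDivisors.to_isDomain _
    exact RingHom.ker_isPrime _
  have hmono : ∀ r, Q r ≤ Q (r + 1) := by
    intro r x hx
    rw [hQ] at hx ⊢
    intro m hm
    exact hx m fun s hs => hm s (Nat.lt_succ_of_lt hs)
  have hlt : ∀ r < N, Q r < Q (r + 1) := by
    intro r hr
    refine lt_of_le_of_ne (hmono r) fun he => ?_
    obtain ⟨w, hw1, hw2⟩ := hw r hr
    have h3 : Ideal.Quotient.mk I (y w) ∈ Q (r + 1) := by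
      rw [hQ, hFb, hy]
      exact hw1
    rw [← he, hQ, hFb, hy] at h3
    exact hw2 h3
  let ser : LTSeries (PrimeSpectrum (R.A ⧸ I)) :=
    { length := N
      toFun := fun i => ⟨Q i, hprime i⟩
      step := fun i => hlt i.1 i.2 }
  exact Order.LTSeries.length_le_krullDim ser

end Pool.Agent.Helper15.MD.DIM
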