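import Pool.Agent.Helper15.MD.Stm

/-!
# Module EXT: from a homomorphism `ψ : P → GL_n(A)` to a representation of the big group

Adapted from the library file `Pool/Graph/R_seed8/W566/MZ/Asm1.lean` (`A = k⟦X⟧`, `ψ σ = 1`).
-/

set_option autoImplicit false

namespace Pool.Agent.Helper15.MD

open Matrix IsLocalRing MZ

section

variable {k : Type} [Field k] [CharP k 2] {n : ℕ} (A : CNL 2 k)

lemma ext_map_CM (C : k →+* A.A) (hC : ∀ x, A.res (C x) = x) (M : GL (Fin n) k) :
    Matrix.GeneralLinearGroup.map A.res (CM n C M) = M := by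
  ext a b
  simp [CM, hC]

/-- the subgroup of `GL_n(A)` of matrices congruent to 1 mod `m_A^m` -/
noncomputable def extCongr (n m : ℕ) : Subgroup (GL (Fin n) A.A) :=
  (Matrix.GeneralLinearGroup.map (Ideal.Quotient.mk (maximalIdeal A.A ^ m))).ker

lemma ext_mem_congr (m : ℕ) (M : GL (Fin n) A.A) :
    M ∈ extCongr A n m ↔ ∀ a b : Fin n,
      ((M : Matrix (Fin n) (Fin n) A.A) - 1) a b ∈ maximalIdeal A.A ^ m := by
  unfold extCongr
  rw [MonoidHom.mem_ker, Matrix.GeneralLinearGroup.ext_iff]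
  refine forall_congr' fun a => forall_congr' fun b => ?_
  rw [Matrix.GeneralLinearGroup.map_apply, ← Ideal.Quotient.eq_zero_iff_mem,
    Matrix.sub_apply, map_sub, sub_eq_zero]
  have : (Ideal.Quotient.mk (maximalIdeal A.A ^ m))
      ((1 : Matrix (Fin n) (Fin n) A.A) a b) =
      ((1 : GL (Fin n) (A.A ⧸ maximalIdeal A.A ^ m)) : Matrix _ _ _) a b := by
    by_cases h : a = b
    · subst h; simp
    · simp [Matrix.one_apply_ne h]
  rw [this]

lemma ext_eq_one (M : GL (Fin n) A.A) (h : ∀ m, M ∈ extCongr A n m) : M = 1 := by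
  ext a b
  have h2 : ((M : Matrix (Fin n) (Fin n) A.A) - 1) a b = 0 := by
    have hH : IsHausdorff (maximalIdeal A.A) A.A := inferInstance
    refine hH.haus _ fun m => ?_
    have := (ext_mem_congr A m M).mp (h m) a b
    rw [SModEq.zero, smul_eq_mul, Ideal.mul_top]
    exact this
  rw [Matrix.sub_apply, sub_eq_zero] at h2
  rw [h2]
  rfl

end

section

variable {P : Type} [Group P] [TopologicalSpace P] [IsTopologicalGroup P] {ι : Type}
variable {k : Type} [Field k] [CharP k 2] {n : ℕ} (A : CNL 2 k)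

/-- two continuous homs to `GL_n(A)` agreeing on topological generators agree -/
lemma ext_hom_ext_gen (c : ι → P) (σ : P) (hgen : TopGen c σ)
    (f g : P →* GL (Fin n) A.A) (hf : Cont A f) (hg : Cont A g)
    (hc : ∀ i, f (c i) = g (c i)) (hσ : f σ = g σ) : f = g := by
  have key : ∀ m : ℕ, ∀ q : P, (f q)⁻¹ * g q ∈ extCongr A n m := by
    intro m
    let Q := Matrix.GeneralLinearGroup.map (n := Fin n)
      (Ideal.Quotient.mk (maximalIdeal A.A ^ m))
    let N : Subgroup P := MonoidHom.eqLocus (Q.comp f) (Q.comp g)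
    have hN : IsOpen (N : Set P) := by
      have h1 : IsOpen (((Q.comp f).ker ⊓ (Q.comp g).ker : Subgroup P) : Set P) := by
        rw [Subgroup.coe_inf]
        refine IsOpen.inter ?_ ?_
        · convert hf m using 1
          ext q
          exact ext_mem_congr A m (f q)
        · convert hg m using 1
          ext q
          exact ext_mem_congr A m (g q)
      refine Subgroup.isOpen_mono (H₁ := (Q.comp f).ker ⊓ (Q.comp g).ker) ?_ h1
      intro q hq
      obtain ⟨h3, h4⟩ := Subgroup.mem_inf.mp hq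
      show (Q.comp f) q = (Q.comp g) q
      rw [MonoidHom.mem_ker.mp h3, MonoidHom.mem_ker.mp h4]
    have hT : N = ⊤ := hgen N hN (fun i => by
      show Q (f (c i)) = Q (g (c i))
      rw [hc i]) (by
      show Q (f σ) = Q (g σ)
      rw [hσ])
    intro q
    have hq : q ∈ N := by rw [hT]; exact Subgroup.mem_top q
    have hq' : Q (f q) = Q (g q) := hq
    show (f q)⁻¹ * g q ∈ Q.ker
    rw [MonoidHom.mem_ker, map_mul, map_inv, hq', inv_mul_cancel]
  ext1 q
  have := ext_eq_one A ((f q)⁻¹ * g q) (fun m => key m q)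
  exact (inv_mul_eq_one.mp this)

end

/-- conjugation by scalar-equivalent matrices agree -/
lemma ext_conj_scalar {k : Type} [Field k] [CharP k 2] {n : ℕ} (A : CNL 2 k) (C : k →+* A.A)
    (M N : GL (Fin n) k) (a : k)
    (h : ((M * N⁻¹ : GL (Fin n) k) : Matrix (Fin n) (Fin n) k) = a • (1 : Matrix (Fin n) (Fin n) k))
    (Y : GL (Fin n) A.A) :
    CM n C M * Y * (CM n C M)⁻¹ = CM n C N * Y * (CM n C N)⁻¹ := by
  have h1 : ((CM n C (M * N⁻¹) : GL (Fin n) A.A) : Matrix (Fin n) (Fin n) A.A)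
      = (C a) • (1 : Matrix (Fin n) (Fin n) A.A) := by
    have : ((CM n C (M * N⁻¹) : GL (Fin n) A.A) : Matrix (Fin n) (Fin n) A.A) =
      ((M * N⁻¹ : GL (Fin n) k) : Matrix (Fin n) (Fin n) k).map C := rfl
    rw [this, h]
    ext i j
    by_cases hij : i = j
    · subst hij; simp
    · simp [Matrix.one_apply_ne hij]
  have hc : CM n C (M * N⁻¹) * (CM n C N * Y * (CM n C N)⁻¹) =
      (CM n C N * Y * (CM n C N)⁻¹) * CM n C (M * N⁻¹) := by
    refine Units.ext ?_
    rw [Units.val_mul (CM n C (M * N⁻¹)), Units.val_mul (CM n C N * Y * (CM n C N)⁻¹), h1,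
      Matrix.smul_mul, Matrix.mul_smul, Matrix.one_mul, Matrix.mul_one]
  have h2 : CM n C M = CM n C (M * N⁻¹) * CM n C N := by rw [← map_mul]; congr 1; group
  calc CM n C M * Y * (CM n C M)⁻¹
      = CM n C (M * N⁻¹) * (CM n C N * Y * (CM n C N)⁻¹) * (CM n C (M * N⁻¹))⁻¹ := by
        rw [h2]; group
    _ = CM n C N * Y * (CM n C N)⁻¹ := by rw [hc]; group

namespace EXT

/-- The extension of `ψ` to the big group. -/
theorem main : S_EXT := by
  intro P G 𝒢 V ι _ _ _ _ _ _ _ _ _ D k _ _ n A C hC ρbar hρo hρs t u ht hu ψ hψ1 hψo hψc hψσ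
  classical
  have hj := D.hj
  -- equivariance
  have hconjmem : ∀ (b : G) (q : P), b * D.j q * b⁻¹ ∈ D.j.range := fun b q =>
    D.hjn.conj_mem _ ⟨q, rfl⟩ b
  have hequiv : ∀ (g : 𝒢), D.res g ∈ D.A → ∀ q q' : P, D.j q' = D.res g * D.j q * (D.res g)⁻¹ →
      ψ q' = CM n C (ρbar g) * ψ q * (CM n C (ρbar g))⁻¹ := by
    intro g hg
    -- the conjugation automorphism of P
    let b := D.res g
    let cb : P → P := fun q => (hconjmem b q).choose
    have hcb : ∀ q, D.j (cb q) = b * D.j q * b⁻¹ := fun q => (hconjmem b q).choose_spec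
    let cbH : P →* P := MonoidHom.mk' cb (fun x y => by
      apply hj
      rw [map_mul, hcb, hcb, hcb, map_mul]
      group)
    have hcbc : Continuous cbH := by
      have hemb : Topology.IsOpenEmbedding D.j :=
        Topology.IsOpenEmbedding.of_continuous_injective_isOpenMap D.hjc hj D.hjo
      rw [hemb.isInducing.continuous_iff]
      have : (D.j ∘ cbH) = fun q => b * D.j q * b⁻¹ := by
        funext q
        exact hcb q
      rw [this]
      have := D.hjc
      fun_prop
    have h1 : ψ.comp cbH = (MulAut.conj (CM n C (ρbar g))).toMonoidHom.comp ψ := by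
      refine ext_hom_ext_gen A D.c D.σ D.gen _ _ ?_ ?_ ?_ ?_
      · intro m
        have := (hψo m).preimage hcbc
        exact this
      · intro m
        convert hψo m using 1
        ext q
        have e1 := ext_mem_congr A m (ψ q)
        have e2 := ext_mem_congr A m (((MulAut.conj (CM n C (ρbar g))).toMonoidHom.comp ψ) q)
        rw [Set.mem_ofPred_eq, Set.mem_ofPred_eq, ← e1, ← e2]
        have hn : (extCongr A n m).Normal := MonoidHom.normal_ker _
        constructor
        · intro h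
          have := hn.conj_mem _ h (CM n C (ρbar g))⁻¹
          simpa [MulAut.conj_apply, mul_assoc] using this
        · intro h
          have := hn.conj_mem _ h (CM n C (ρbar g))
          simpa [MulAut.conj_apply, mul_assoc] using this
      · intro i
        have : cb (D.c i) = D.c (D.π b i) := by
          apply hj
          rw [hcb, D.hπc b hg i]
        show ψ (cb (D.c i)) = CM n C (ρbar g) * ψ (D.c i) * (CM n C (ρbar g))⁻¹
        rw [this, hψc, hψc, ht g hg i]
      · have : cb D.σ = D.σ := by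
          apply hj
          rw [hcb, D.hσ b hg]
        show ψ (cb D.σ) = CM n C (ρbar g) * ψ D.σ * (CM n C (ρbar g))⁻¹
        rw [this, hψσ, hu g]
    intro q q' hq
    have : q' = cb q := hj (by rw [hq, hcb])
    rw [this]
    exact DFunLike.congr_fun h1 q
  -- decomposition
  have hdec : ∀ g : 𝒢, ∃ q : P, ∃ a ∈ D.A, D.res g = D.j q * a := by
    intro g
    obtain ⟨a, ha, x, ⟨q, rfl⟩, h⟩ := D.hA' (D.res g)
    exact ⟨q, a, ha, h⟩
  choose Q α hα hQ using hdec
  have huniq : ∀ (q q' : P) (a a' : G), a ∈ D.A → a' ∈ D.A → D.j q * a = D.j q' * a' →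
      q = q' ∧ a = a' := by
    intro q q' a a' ha ha' h
    have h1 : a * a'⁻¹ ∈ D.A ⊓ D.j.range := by
      refine ⟨D.A.mul_mem ha (D.A.inv_mem ha'), q⁻¹ * q', ?_⟩
      rw [map_mul, map_inv, inv_mul_eq_iff_eq_mul, ← mul_assoc, h, mul_inv_cancel_right]
    rw [D.hA, Subgroup.mem_bot, mul_inv_eq_one] at h1
    subst h1
    exact ⟨hj (mul_right_cancel h), rfl⟩
  have hmul : ∀ g g' : 𝒢, ψ (Q (g * g')) * CM n C (ρbar (g * g')) =
      (ψ (Q g) * CM n C (ρbar g)) * (ψ (Q g') * CM n C (ρbar g')) := by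
    intro g g'
    -- choose a lift of α g
    obtain ⟨h, hh⟩ := D.hsurj (α g)
    obtain ⟨q₁, hq₁⟩ := hconjmem (α g) (Q g')
    have e1 : D.j (Q (g * g')) * α (g * g') = D.j (Q g * q₁) * (α g * α g') := by
      rw [← hQ, map_mul, hQ, hQ, map_mul, hq₁]
      group
    obtain ⟨e2, -⟩ := huniq _ _ _ _ (hα _) (D.A.mul_mem (hα g) (hα g')) e1
    have e3 : ψ q₁ = CM n C (ρbar h) * ψ (Q g') * (CM n C (ρbar h))⁻¹ :=
      hequiv h (by rw [hh]; exact hα g) (Q g') q₁ (by rw [hq₁, hh])
    have hmem : D.res (g * h⁻¹) ∈ D.j.range :=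
      ⟨Q g, by rw [map_mul, map_inv, hQ, hh]; group⟩
    obtain ⟨a, ha⟩ := hρs _ hmem
    have e4 : CM n C (ρbar g) * ψ (Q g') * (CM n C (ρbar g))⁻¹ =
        CM n C (ρbar h) * ψ (Q g') * (CM n C (ρbar h))⁻¹ := by
      refine ext_conj_scalar A C (ρbar g) (ρbar h) a ?_ _
      rw [← map_inv, ← map_mul]
      exact ha
    rw [e2, map_mul, e3, ← e4, map_mul, map_mul]
    group
  let ρ : 𝒢 →* GL (Fin n) A.A :=
    MonoidHom.mk' (fun g => ψ (Q g) * CM n C (ρbar g)) hmul
  refine ⟨ρ, ⟨?_, ?_⟩, ?_⟩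
  · intro g
    show Matrix.GeneralLinearGroup.map A.res (ψ (Q g) * CM n C (ρbar g)) = _
    rw [map_mul, hψ1, ext_map_CM A C hC, one_mul]
  · intro m
    -- subgroup containing an open subgroup
    have h0 : {g : 𝒢 | ∀ a b : Fin n,
        ((ρ g : Matrix (Fin n) (Fin n) A.A) - 1) a b ∈ maximalIdeal A.A ^ m} =
        (((extCongr A n m).comap ρ : Subgroup 𝒢) : Set 𝒢) := by
      ext g
      exact (ext_mem_congr A m (ρ g)).symm
    rw [h0]
    let U : Subgroup P := (extCongr A n m).comap ψ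
    have hU : IsOpen (U : Set P) := by
      convert hψo m using 1
      ext q
      exact ext_mem_congr A m (ψ q)
    let W : Subgroup 𝒢 := (U.map D.j).comap D.res ⊓ ρbar.ker
    have hW : IsOpen (W : Set 𝒢) := by
      rw [Subgroup.coe_inf]
      refine IsOpen.inter ?_ hρo
      have : IsOpen ((U.map D.j : Subgroup G) : Set G) := by
        rw [Subgroup.coe_map]
        exact D.hjo _ hU
      exact this.preimage D.hres
    refine Subgroup.isOpen_mono (H₁ := W) ?_ hW
    rintro g ⟨⟨q, hq, hq'⟩, hg2⟩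
    have e1 : D.j (Q g) * α g = D.j q * 1 := by rw [← hQ, mul_one, hq']
    obtain ⟨e2, -⟩ := huniq _ _ _ _ (hα g) D.A.one_mem e1
    show ρ g ∈ extCongr A n m
    have : ρ g = ψ q := by
      show ψ (Q g) * CM n C (ρbar g) = _
      rw [e2, MonoidHom.mem_ker.mp hg2, map_one, mul_one]
    rw [this]
    exact hq
  · intro g q a ha h
    have e1 : D.j (Q g) * α g = D.j q * a := by rw [← hQ, h]
    obtain ⟨e2, -⟩ := huniq _ _ _ _ (hα g) ha e1
    show ψ (Q g) * CM n C (ρbar g) = _
    rw [e2]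

end EXT

end Pool.Agent.Helper15.MD
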