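import Pool.Agent.Helper15.MD.Stm

/-!
# Mazur's dimension conjecture: unbounded failure, final assembly
-/

set_option autoImplicit false
set_option linter.style.haveILetI false

namespace Pool.Agent.Helper15.MD.FIN

open NumberField IsDedekindDomain IsLocalRing MZ Pool.Agent.Helper15.MD

/-- The statement: a totally real field of degree `2 ^ (m + 1)` and a residual representation with
`δ = 1` for which `dim R / 2 R ≥ 4 [F : ℚ] + 1`. -/
def Final (m : ℕ) : Prop :=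
  ∃ (F Ω : Type) (_ : Field F) (_ : NumberField F) (_ : Field Ω) (_ : Algebra F Ω)
    (_ : IsAlgClosure F Ω) (S : Set (HeightOneSpectrum (𝓞 F)))
    (k : Type) (_ : Field k) (_ : Finite k) (_ : CharP k 2)
    (ρbar : GFS Ω S →* GL (Fin 3) k)
    (w : InfinitePlace F → InfinitePlace (FSmax S : IntermediateField F Ω)),
    Module.finrank ℚ F = 2 ^ (m + 1) ∧ (∀ v : InfinitePlace F, v.IsReal) ∧
    (∀ g, g * g = 1 → ρbar g = 1) ∧
    IsDatum F Ω S 2 k 3 ρbar w ∧ delta S ρbar w = 1 ∧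
    (∃ (R : CNL 2 k) (ρu : GFS Ω S →* GL (Fin 3) R.A), IsUniversal ρbar R ρu) ∧
    ∀ (R : CNL 2 k) (ρu : GFS Ω S →* GL (Fin 3) R.A), IsUniversal ρbar R ρu →
      ((4 * Module.finrank ℚ F + 1 : ℕ) : WithBot ℕ∞) ≤
        ringKrullDim (R.A ⧸ Ideal.span {((2 : ℕ) : R.A)})

lemma exists_w {F Ω : Type} [Field F] [NumberField F] [Field Ω] [Algebra F Ω]
    [Algebra.IsAlgebraic F Ω] (K : IntermediateField F Ω) :
    ∃ w : InfinitePlace F → InfinitePlace K, ∀ v, (w v).comap (algebraMap F K) = v := by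
  have : ∀ v : InfinitePlace F, ∃ w : InfinitePlace K, w.comap (algebraMap F K) = v := by
    intro v
    let φ := v.embedding
    letI := φ.toAlgebra
    haveI : Algebra.IsAlgebraic F K := Algebra.IsAlgebraic.tower_bot (K := F) (L := K) (A := Ω)
    let f : K →ₐ[F] ℂ := IsAlgClosed.lift
    refine ⟨InfinitePlace.mk f.toRingHom, ?_⟩
    rw [InfinitePlace.comap_mk]
    have : f.toRingHom.comp (algebraMap F K) = φ := f.comp_algebraMap
    rw [this]
    exact InfinitePlace.mk_embedding v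
  choose w hw using this
  exact ⟨w, hw⟩

/-- a number `e` with `2 ^ m * e ≡ 1` modulo `27` -/
lemma exists_e (m : ℕ) : ∃ e q : ℕ, 2 ^ m * e = 1 + 27 * q := by
  induction m with
  | zero => exact ⟨1, 0, rfl⟩
  | succ m ih =>
    obtain ⟨e, q, h⟩ := ih
    refine ⟨14 * e, 14 + 28 * 13 * q + q + 13 * q - 14 - 13 * q - 28 * 13 * q + 27 * q + 1, ?_⟩
    have h1 : 2 ^ (m + 1) * (14 * e) = 28 * (2 ^ m * e) := by ring
    rw [h1, h]
    omega

theorem main (hGRP : S_GRP) (hLFT : S_LFT) (hNT0 : S_NT0) (hDEL : S_DEL) (hFLD : S_FLD) (m : ℕ) :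
    Final m := by
  have hK1 : StmK1 := Pool.Agent.W343.MZ.stmK1
  have hK2 : StmK2 := Pool.Agent.W343.MZ.stmK2
  have hK3 : StmK3 := Pool.Agent.W47.MZK3.k3
  have hK4 : StmK4 := Pool.Agent.W368.MZK4.t_K4 hK3
  have hK5 : StmK5 := Pool.Agent.W266.MZK5.t_K5
  have hK6 : StmK6 := Pool.Agent.W178.MZK.K6
  have hK7 : StmK7 := Pool.Agent.W178.MZK.K7
  have hK8 : StmK8 := Pool.Agent.W561.MZK8.stmK8 W289.MZ.stmFrat hK1 hK2 hK3
  obtain ⟨hfd, hgal, h9, hreal, hunr, hNF, htwo⟩ : StmL := MZ294.stmL MZ413.stmN MZ413.stmM MZ413.stmP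
  obtain ⟨k, ik, iFin, iP, ρbar, ω, hω, hρo, hρi, hρ27, hρs, hρT⟩ : StmRho := MZ294.stmRho hK7
  haveI : IsAlgClosure Lf Om := ⟨inferInstance, Algebra.IsAlgebraic.tower_top (K := F5) Lf⟩
  haveI hG1 : IsGalois F5 (Linf Lf Om) := hK1.2 F5 Lf Om hgal
  haveI hG2 : IsGalois Lf (Linf Lf Om) := hK1.2 Lf Lf Om inferInstance
  haveI hG3 : IsGalois F5 (FSmax S30 : IntermediateField F5 Om) := hK7 F5 Om S30
  have hle : (Linf Lf Om).restrictScalars F5 ≤ FSmax S30 := hK6 F5 Om S30 two_mem_S30 Lf hunr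
  let inc : (Linf Lf Om) →+* (FSmax S30 : IntermediateField F5 Om) :=
    { toFun := fun x => ⟨(x : Om), hle x.2⟩
      map_one' := rfl
      map_mul' := fun _ _ => rfl
      map_zero' := rfl
      map_add' := fun _ _ => rfl }
  letI : Algebra (Linf Lf Om) (FSmax S30 : IntermediateField F5 Om) := inc.toAlgebra
  haveI : IsScalarTower F5 (Linf Lf Om) (FSmax S30 : IntermediateField F5 Om) :=
    IsScalarTower.of_algebraMap_eq (fun x => Subtype.ext rfl)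
  haveI : IsScalarTower F5 (Linf Lf Om) Om := IsScalarTower.of_algebraMap_eq (fun x => rfl)
  -- √2
  obtain ⟨r₀, hr₀⟩ : ∃ r : Om, r ^ 2 = 2 := IsAlgClosed.exists_pow_nat_eq 2 (by norm_num)
  have hr₀mem : r₀ ∈ Linf Lf Om := by
    refine hK1.1 Lf Om 2 r₀ ?_ ⟨two_ne_zero, 1, ?_, ?_⟩ hr₀
    · have := (Linf Lf Om).algebraMap_mem (2 : Lf)
      rwa [map_ofNat] at this
    · have : (2 ^ 1 * 2 : Om) = algebraMap ℤ Om 4 := by norm_num
      rw [this]; exact isIntegral_algebraMap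
    · have : (2 ^ 1 * 2⁻¹ : Om) = 1 := by norm_num
      rw [this]; exact isIntegral_one
  have hr2 : (⟨r₀, hr₀mem⟩ : Linf Lf Om) ^ 2 = 2 := Subtype.ext hr₀
  have hrn : (⟨r₀, hr₀mem⟩ : Linf Lf Om) ∉ (algebraMap Lf (Linf Lf Om)).range := by
    rintro ⟨x, hx⟩
    refine no_sqrt2_Lf h9 x ?_
    apply (algebraMap Lf (Linf Lf Om)).injective
    rw [map_pow, hx, hr2, map_ofNat]
  obtain ⟨D, hDj, hDres, hDc⟩ := hNT0 F5 Lf (Linf Lf Om) (FSmax S30 : IntermediateField F5 Om) h9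
    hreal ⟨r₀, hr₀mem⟩ hr2 hrn (hK2 Lf Om)
    (fun φ c h1 h2 N hN hNo => by
      have e1 := hK4 Lf Om N hNo
      rw [hK5 Lf Om hreal φ c h1 h2 N hN hNo] at e1
      exact e1)
    (fun φ c σ h1 h2 h3 => hK8 Lf Om hreal htwo φ c σ h1 h2 h3)
  obtain ⟨H, hHn, hHo, hHi, hHc, hH⟩ := hGRP Gal(Linf Lf Om/Lf) Gal(Linf Lf Om/F5)
    Gal((FSmax S30 : IntermediateField F5 Om)/F5) (F5 →+* ℂ) (Lf →+* ℂ) D m
  have hconj : ∀ φ : (Linf Lf Om) →+* ℂ, ∃ c ∈ H, ComplexEmbedding.IsConj φ c := by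
    intro φ
    obtain ⟨g, i, hgi⟩ := hDc φ
    exact ⟨_, hHn.conj_mem _ (hHc i) g, hgi⟩
  obtain ⟨F', iF, iNF, iAlg, iAC, iAF, iST, S', r, r', hfin, hreal', hS'fin, hS'p, hrc, hr'c, hr's,
    hcomp, hrsurj⟩ := hFLD F5 Om (Linf Lf Om) S30 (fun x => rfl) H hHo (2 ^ m) hHi (by positivity)
      S30_finite hconj
  obtain ⟨P', iP1, iP2, iP3, D', hD'res, hD'j⟩ := hH (GFS Om S') r' hr'c hr's
  -- the residual representation
  let ρ' : GFS Om S' →* GL (Fin 3) k := ρbar.comp r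
  have hρ'o : IsOpen (ρ'.ker : Set (GFS Om S')) := hρo.preimage hrc
  have himg : ∀ g, ∃ g', ρ' g' = ρbar g := by
    intro g
    obtain ⟨e, q, he⟩ := exists_e m
    have h1 : AlgEquiv.restrictNormalHom (F := F5) (K₁ := (FSmax S30 : IntermediateField F5 Om))
        (Linf Lf Om) (g ^ (2 ^ m)) ∈ H := by
      rw [map_pow, ← hHi]
      exact Subgroup.pow_index_mem _ _
    obtain ⟨g', hg'⟩ := hrsurj _ h1
    refine ⟨g' ^ e, ?_⟩
    show ρbar (r (g' ^ e)) = ρbar g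
    rw [map_pow, hg', ← pow_mul, map_pow, he, pow_add, pow_one, pow_mul, hρ27, one_pow, mul_one]
  have hρ'i : AbsIrred ρ' := by
    intro V hV
    refine hρi V (fun g x hx => ?_)
    obtain ⟨g', hg'⟩ := himg g
    have := hV g' x hx
    rw [hg'] at this
    exact this
  have hinv : ∀ g : GFS Om S', g * g = 1 → ρ' g = 1 := by
    intro g hg
    have h1 : ρ' g ^ 2 = 1 := by rw [sq, ← map_mul, hg, map_one]
    have h2 : ρ' g ^ 27 = 1 := hρ27 (r g)
    calc ρ' g = ρ' g ^ 27 * (ρ' g ^ 2)⁻¹ ^ 13 := by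
          rw [inv_pow, ← pow_mul, eq_mul_inv_iff_mul_eq, ← pow_succ']
      _ = 1 := by rw [h1, h2]; simp
  have hscal : Scal D' ρ' := by
    intro g hg
    rw [hD'res] at hg
    obtain ⟨q, hq⟩ := hg
    refine hρs (r g) (fun x hx => ?_)
    have h1 : ((r' g : H) : Gal(Linf Lf Om/F5)) ∈ D.j.range := by rw [← hq]; exact hD'j q
    rw [hDj, mem_range_jR, hcomp] at h1
    have h2 := h1 ⟨(x : Om), hx⟩
    have h3 := res_apply (F := F5) (E := Linf Lf Om) (K := (FSmax S30 : IntermediateField F5 Om))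
      (r g) (algebraMap Lf (Linf Lf Om) ⟨(x : Om), hx⟩)
    rw [h2] at h3
    have h4 : algebraMap (Linf Lf Om) (FSmax S30 : IntermediateField F5 Om)
        (algebraMap Lf (Linf Lf Om) ⟨(x : Om), hx⟩) = x := Subtype.ext rfl
    rw [h4] at h3
    exact h3.symm
  haveI : Algebra.IsAlgebraic F' Om := iAC.isAlgebraic
  obtain ⟨w, hw⟩ := exists_w (FSmax S' : IntermediateField F' Om)
  have hS2 : ∀ v : HeightOneSpectrum (𝓞 F'), ((2 : ℕ) : 𝓞 F') ∈ v.asIdeal → v ∈ S' :=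
    hS'p 2 (fun v hv => two_mem_S30 v (by exact_mod_cast hv))
  have hdeg : Module.finrank ℚ F' = 2 ^ (m + 1) := by
    have h1 := Module.finrank_mul_finrank ℚ F5 F'
    rw [hfin, Pool.Agent.W505.MZ.finrank_F5] at h1
    rw [← h1, pow_succ, mul_comm]
  refine ⟨F', Om, iF, iNF, inferInstance, iAlg, iAC, S', k, ik, iFin, iP, ρ', w, hdeg, hreal', hinv,
    ⟨by norm_num, by norm_num, hS'fin, hS2, hρ'o, hρ'i, hw⟩, hDEL F' Om S' k ρ' hreal' hinv w hw,
    MZEX.stmEx F' Om S' hS'fin (fun v hv => hS2 v (by exact_mod_cast hv)) k 3 (by norm_num) ρ' hρ'o hρ'i,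
    ?_⟩
  intro R ρu hu
  have h1 := hLFT P' H (GFS Om S') ((F5 →+* ℂ) × Fin (2 ^ m)) ((Lf →+* ℂ) × Fin (2 ^ m)) D' k ρ'
    hρ'o hρ'i hscal R ρu hu
  have h2 : Fintype.card ((F5 →+* ℂ) × Fin (2 ^ m)) = Module.finrank ℚ F' := by
    rw [Fintype.card_prod, NumberField.Embeddings.card, Pool.Agent.W505.MZ.finrank_F5, Fintype.card_fin,
      hdeg, pow_succ, mul_comm]
  rw [h2] at h1
  exact h1

end Pool.Agent.Helper15.MD.FIN
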