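import Pool.Agent.Helper15.MD.Stm
import Pool.Graph.R_seed8.W566.MZ.Gal
import Pool.Graph.R_seed8.W178.MZ.K6

/-! # Module FLD: the tower -/

set_option autoImplicit false

namespace Pool.Agent.Helper15.MD.FLD

open NumberField IsDedekindDomain MZ Pool.Agent.Helper15.MD

/-- the homomorphisms between the Galois groups -/
theorem tower0 (F F' E K K' : Type) [Field F] [Field F'] [Field E] [Field K] [Field K']
    [Algebra F F'] [Algebra F' E] [Algebra F E] [IsScalarTower F F' E] [Algebra E K]
    [Algebra F K] [IsScalarTower F E K] [Algebra K K'] [Algebra F K'] [IsScalarTower F K K']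
    [Algebra F' K'] [IsScalarTower F F' K'] [IsGalois F E] [IsGalois F K] [IsGalois F' K']
    [Algebra.IsIntegral F K']
    (hF' : ∀ x : F', algebraMap K K' (algebraMap E K (algebraMap F' E x)) = algebraMap F' K' x)
    (H : Subgroup Gal(E/F))
    (hH : ∀ g : Gal(E/F), g ∈ H ↔ ∀ x : F', g (algebraMap F' E x) = algebraMap F' E x) :
    ∃ (r : Gal(K'/F') →* Gal(K/F)) (r' : Gal(K'/F') →* H), Continuous r ∧ Continuous r' ∧
      Function.Surjective r' ∧
      (∀ g, ((r' g : H) : Gal(E/F)) =
        AlgEquiv.restrictNormalHom (F := F) (K₁ := K) E (r g)) ∧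
      ∀ h : Gal(K/F), AlgEquiv.restrictNormalHom (F := F) (K₁ := K) E h ∈ H →
        ∃ g, r g = h := by
  have hint' : Algebra.IsIntegral F' K' := Algebra.IsAlgebraic.isIntegral
  have hint : Algebra.IsIntegral F K := Algebra.IsAlgebraic.isIntegral
  let r : Gal(K'/F') →* Gal(K/F) :=
    (AlgEquiv.restrictNormalHom (F := F) (K₁ := K') K).comp (jR F F' K')
  have hr : ∀ (g : Gal(K'/F')) (x : K), algebraMap K K' (r g x) = g (algebraMap K K' x) :=
    fun g x => res_apply _ _
  have hmem : ∀ g : Gal(K'/F'), AlgEquiv.restrictNormalHom (F := F) (K₁ := K) E (r g) ∈ H := by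
    intro g
    rw [hH]
    intro x
    apply (algebraMap E K).injective
    rw [res_apply]
    apply (algebraMap K K').injective
    rw [hr, hF', g.commutes]
  have hcr : Continuous r := continuous_res.comp continuous_jR
  let r' : Gal(K'/F') →* H :=
    ((AlgEquiv.restrictNormalHom (F := F) (K₁ := K) E).comp r).codRestrict H hmem
  have hlift : ∀ h : Gal(K/F), AlgEquiv.restrictNormalHom (F := F) (K₁ := K) E h ∈ H →
      ∃ g, r g = h := by
    intro h hh
    let aF'K : Algebra F' K := ((algebraMap E K).comp (algebraMap F' E)).toAlgebra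
    have t1 : IsScalarTower F F' K :=
      IsScalarTower.of_algebraMap_eq fun x => by
        show _ = algebraMap E K (algebraMap F' E _)
        rw [← IsScalarTower.algebraMap_apply F F' E, ← IsScalarTower.algebraMap_apply F E]
    have t2 : IsScalarTower F' K K' :=
      IsScalarTower.of_algebraMap_eq fun x => (hF' x).symm
    have n1 : Normal F' K := Normal.tower_top_of_normal F F' _
    let h' : Gal(K/F') :=
      AlgEquiv.ofRingEquiv (f := (h : K ≃+* K)) (by
          intro x
          show h (algebraMap E K (algebraMap F' E x)) = algebraMap E K (algebraMap F' E x)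
          rw [← res_apply, (hH _).1 hh x])
    obtain ⟨g, hg⟩ := AlgEquiv.restrictNormalHom_surjective (F := F') (K₁ := K) K' h'
    refine ⟨g, ?_⟩
    ext x
    apply (algebraMap K K').injective
    rw [hr, ← res_apply (F := F'), hg]
    rfl
  refine ⟨r, r', hcr, ?_, ?_, fun g => rfl, hlift⟩
  · exact (continuous_res.comp hcr).subtype_mk hmem
  · intro h
    obtain ⟨h1, hh1⟩ := AlgEquiv.restrictNormalHom_surjective (F := F)
      (K₁ := E) K (h : Gal(E/F))
    obtain ⟨g, hg⟩ := hlift h1 (by rw [hh1]; exact h.2)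
    refine ⟨g, Subtype.ext ?_⟩
    show AlgEquiv.restrictNormalHom (F := F) (K₁ := K) E (r g) = h
    rw [hg, hh1]

theorem tower1 (F Ω E F' : Type) [Field F] [Field Ω] [Algebra F Ω]
    [IsAlgClosure F Ω] [Field E] [Algebra F E] [Algebra E Ω] [IsScalarTower F E Ω] [IsGalois F E]
    [Field F'] [Algebra F F'] [Algebra F' E] [IsScalarTower F F' E]
    [Algebra F' Ω] [IsScalarTower F' E Ω] [IsScalarTower F F' Ω]
    (K : IntermediateField F Ω) (K' : IntermediateField F' Ω) [IsGalois F K] [IsGalois F' K']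
    [Algebra E K] [IsScalarTower F E K]
    (hcomp : ∀ x : E, ((algebraMap E K x : K) : Ω) = algebraMap E Ω x)
    (hle : ∀ x : Ω, x ∈ K → x ∈ K')
    (H : Subgroup Gal(E/F))
    (hH : ∀ g : Gal(E/F), g ∈ H ↔ ∀ x : F', g (algebraMap F' E x) = algebraMap F' E x) :
    ∃ (r : Gal(K'/F') →* Gal(K/F)) (r' : Gal(K'/F') →* H), Continuous r ∧ Continuous r' ∧
      Function.Surjective r' ∧
      (∀ g, ((r' g : H) : Gal(E/F)) =
        AlgEquiv.restrictNormalHom (F := F) (K₁ := K) E (r g)) ∧
      ∀ h : Gal(K/F), AlgEquiv.restrictNormalHom (F := F) (K₁ := K) E h ∈ H →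
        ∃ g, r g = h := by
  have halgΩ : Algebra.IsAlgebraic F Ω := IsAlgClosure.isAlgebraic
  let aKK : Algebra K K' :=
    RingHom.toAlgebra
      { toFun := fun x => ⟨x.1, hle x.1 x.2⟩
        map_one' := rfl
        map_mul' := fun _ _ => rfl
        map_zero' := rfl
        map_add' := fun _ _ => rfl }
  have aKKv : ∀ x : K, ((algebraMap K K' x : K') : Ω) = x := fun x => rfl
  have tFKK : IsScalarTower F K K' :=
    IsScalarTower.of_algebraMap_eq fun x => Subtype.ext rfl
  have tFK'Ω : IsScalarTower F K' Ω :=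
    IsScalarTower.of_algebraMap_eq fun x => rfl
  have hint2 : Algebra.IsIntegral F K' := by
    have : Algebra.IsAlgebraic F K' :=
      Algebra.IsAlgebraic.of_injective (IsScalarTower.toAlgHom F K' Ω)
        (algebraMap K' Ω).injective
    exact Algebra.IsAlgebraic.isIntegral
  refine tower0 F F' E K K' ?_ H hH
  intro x
  apply Subtype.ext
  rw [aKKv, hcomp, ← IsScalarTower.algebraMap_apply F' E Ω]
  rfl

/-- the places of `F'` above a finite set of places of `F` -/
theorem finite_above (F F' : Type) [Field F] [NumberField F] [Field F'] [NumberField F']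
    [Algebra F F'] (S : Set (HeightOneSpectrum (𝓞 F))) (hS : S.Finite) :
    {w : HeightOneSpectrum (𝓞 F') |
      ∃ v ∈ S, w.asIdeal.comap (algebraMap (𝓞 F) (𝓞 F')) = v.asIdeal}.Finite := by
  have h1 : {w : HeightOneSpectrum (𝓞 F') |
      ∃ v ∈ S, w.asIdeal.comap (algebraMap (𝓞 F) (𝓞 F')) = v.asIdeal} ⊆
      ⋃ v ∈ S, {w : HeightOneSpectrum (𝓞 F') |
        w.asIdeal ∈ Ideal.primesOver v.asIdeal (𝓞 F')} := by
    rintro w ⟨v, hv, h⟩
    refine Set.mem_biUnion hv ?_
    exact ⟨w.isPrime, ⟨h.symm⟩⟩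
  refine Set.Finite.subset (hS.biUnion fun v _ => ?_) h1
  have : v.asIdeal.IsMaximal := v.isMaximal
  refine Set.Finite.preimage ?_ (IsDedekindDomain.primesOver_finite v.asIdeal (𝓞 F'))
  intro a _ b _ hab
  exact HeightOneSpectrum.ext hab

/-- the fixed field is totally real -/
theorem real_of_conj (F F' E : Type) [Field F] [Field F'] [Field E] [Algebra F F']
    [Algebra F' E] [Algebra F E] [IsScalarTower F F' E] [Algebra.IsAlgebraic F' E]
    (H : Subgroup Gal(E/F))
    (hH : ∀ g : Gal(E/F), g ∈ H → ∀ x : F', g (algebraMap F' E x) = algebraMap F' E x)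
    (hc : ∀ φ : E →+* ℂ, ∃ c ∈ H, ComplexEmbedding.IsConj φ c) (ψ : F' →+* ℂ) :
    ComplexEmbedding.IsReal ψ := by
  let _ : Algebra F' ℂ := ψ.toAlgebra
  let φ : E →ₐ[F'] ℂ := IsAlgClosed.lift
  obtain ⟨c, hc1, hc2⟩ := hc (φ : E →+* ℂ)
  rw [ComplexEmbedding.isReal_iff]
  ext x
  have h1 := hc2.eq (algebraMap F' E x)
  rw [hH c hc1 x] at h1
  have h2 : (φ : E →+* ℂ) (algebraMap F' E x) = ψ x := φ.commutes x
  rw [h2] at h1
  rw [ComplexEmbedding.conjugate_coe_eq]
  exact h1.symm

theorem main (hBC : S_BC) : S_FLD := by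
  intro F Ω E _ _ _ _ _ _ _ _ _ _ S _ _ hcomp H hHo d hd hd0 hSf hconj
  have hcl : IsClosed (H : Set Gal(E/F)) := H.isClosed_of_isOpen hHo
  have hHfix : (IntermediateField.fixedField H).fixingSubgroup = H :=
    InfiniteGalois.fixingSubgroup_fixedField ⟨H, hcl⟩
  have hfr : Module.finrank F (IntermediateField.fixedField H) = d := by
    rw [IntermediateField.finrank_eq_fixingSubgroup_index, hHfix, hd]
  have hfd : FiniteDimensional F (IntermediateField.fixedField H) :=
    Module.finite_of_finrank_pos (by rw [hfr]; omega)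
  obtain ⟨F', f1, f2, f3, f4, f5, f6, f7⟩ : ∃ (F' : Type) (_ : Field F') (_ : Algebra F F')
      (_ : Algebra F' E) (_ : IsScalarTower F F' E), Module.finrank F F' = d ∧
      FiniteDimensional F F' ∧
      ∀ g : Gal(E/F), g ∈ H ↔ ∀ x : F', g (algebraMap F' E x) = algebraMap F' E x := by
    refine ⟨IntermediateField.fixedField H, inferInstance, inferInstance, inferInstance,
      inferInstance, hfr, hfd, fun g => ?_⟩
    conv_lhs => rw [← hHfix]
    rw [IntermediateField.mem_fixingSubgroup_iff]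
    constructor
    · intro h x
      exact h x.1 x.2
    · intro h x hx
      exact h ⟨x, hx⟩
  have hch : CharZero F' := charZero_of_injective_algebraMap (algebraMap F F').injective
  have nF' : NumberField F' := by
    have h1 : FiniteDimensional ℚ F' := Module.Finite.trans F F'
    exact { to_charZero := hch, to_finiteDimensional := h1 }
  let aΩ : Algebra F' Ω := ((algebraMap E Ω).comp (algebraMap F' E)).toAlgebra
  have t1 : IsScalarTower F' E Ω := IsScalarTower.of_algebraMap_eq fun x => rfl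
  have t2 : IsScalarTower F F' Ω := IsScalarTower.of_algebraMap_eq fun x => by
    rw [IsScalarTower.algebraMap_apply F' E Ω, ← IsScalarTower.algebraMap_apply F F' E,
      ← IsScalarTower.algebraMap_apply F E Ω]
  have hΩ : IsAlgClosure F' Ω := by
    have h1 : IsAlgClosed Ω := IsAlgClosure.isAlgClosed F
    have h2 : Algebra.IsAlgebraic F Ω := IsAlgClosure.isAlgebraic
    have h3 : Algebra.IsAlgebraic F' Ω := Algebra.IsAlgebraic.tower_top (K := F) F'
    exact ⟨h1, h3⟩
  have hGK : IsGalois F (FSmax S : IntermediateField F Ω) := Pool.Agent.W178.MZK.K7 F Ω S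
  have hGK' : IsGalois F' (FSmax {w : HeightOneSpectrum (𝓞 F') |
      ∃ v ∈ S, w.asIdeal.comap (algebraMap (𝓞 F) (𝓞 F')) = v.asIdeal} :
        IntermediateField F' Ω) := Pool.Agent.W178.MZK.K7 F' Ω _
  have hle := hBC F Ω F' S
    {w : HeightOneSpectrum (𝓞 F') |
      ∃ v ∈ S, w.asIdeal.comap (algebraMap (𝓞 F) (𝓞 F')) = v.asIdeal} (fun w hw => hw)
    (fun x => by
      rw [IsScalarTower.algebraMap_apply F' E Ω, ← hcomp]
      exact SetLike.coe_mem _)
  obtain ⟨r, r', hr⟩ := tower1 F Ω E F' (FSmax S : IntermediateField F Ω)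
    (FSmax {w : HeightOneSpectrum (𝓞 F') |
      ∃ v ∈ S, w.asIdeal.comap (algebraMap (𝓞 F) (𝓞 F')) = v.asIdeal} :
        IntermediateField F' Ω) hcomp hle H f7
  refine ⟨F', f1, nF', aΩ, hΩ, f2, t2, {w : HeightOneSpectrum (𝓞 F') |
      ∃ v ∈ S, w.asIdeal.comap (algebraMap (𝓞 F) (𝓞 F')) = v.asIdeal}, r, r', f5, ?_,
      finite_above F F' S hSf, ?_, hr⟩
  · intro v
    have hE : Algebra.IsAlgebraic F' E := Algebra.IsAlgebraic.tower_top (K := F) F'
    rw [← InfinitePlace.mk_embedding v, InfinitePlace.isReal_mk_iff]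
    exact real_of_conj F F' E H (fun g hg => (f7 g).1 hg) hconj v.embedding
  · intro p hp w hw
    refine ⟨⟨w.asIdeal.comap (algebraMap (𝓞 F) (𝓞 F')), Ideal.comap_isPrime _ _,
      Ideal.IsIntegral.comap_ne_bot (𝓞 F) w.ne_bot⟩, hp _ ?_, rfl⟩
    show algebraMap (𝓞 F) (𝓞 F') (p : 𝓞 F) ∈ w.asIdeal
    rw [map_natCast]
    exact hw

end Pool.Agent.Helper15.MD.FLD
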