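import Pool.Agent.Helper15.MD.Stm

/-!
# Mazur's dimension conjecture: the lower bound of the dimension from the group-theoretic data
-/

set_option autoImplicit false

namespace Pool.Agent.Helper15.MD.LFT

open IsLocalRing MZ Pool.Agent.Helper15.MD

section ring

variable {k : Type} [Field k] [CharP k 2] {V : Type}

/-- the variables -/
abbrev Ta (V : Type) : Type := Option (V × Fin 4)

/-- the ring of power series -/
abbrev BB (k : Type) [Field k] (V : Type) : Type := MvPowerSeries (Ta V) k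

/-- the constants -/
noncomputable abbrev CC (k : Type) [Field k] (V : Type) : k →+* BB k V := MvPowerSeries.C

lemma two_eq : (2 : BB k V) = 0 := by
  have h : ((2 : ℕ) : k) = 0 := CharP.cast_eq_zero k 2
  have h1 : ((2 : ℕ) : BB k V) = CC k V ((2 : ℕ) : k) := (map_natCast _ 2).symm
  rw [h, map_zero] at h1
  exact_mod_cast h1

/-- the variable -/
noncomputable def x (v : V) (i : Fin 4) : BB k V := MvPowerSeries.X (some (v, i))

/-- the nilpotent matrix of rank one with four parameters -/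
noncomputable def NM (k : Type) [Field k] (v : V) : Matrix (Fin 3) (Fin 3) (BB k V) :=
  !![x v 3 * (x v 2 * x v 0 + x v 1), x v 3 * x v 0, x v 3;
     x v 3 * (x v 2 * (x v 2 * x v 0 + x v 1)), x v 3 * (x v 2 * x v 0), x v 3 * x v 2;
     x v 3 * (x v 1 * (x v 2 * x v 0 + x v 1)), x v 3 * (x v 1 * x v 0), x v 3 * x v 1]

lemma NM_sq (v : V) : NM k v * NM k v = 0 := by
  have h2 : (2 : BB k V) = 0 := two_eq
  unfold NM
  ext1 i j
  fin_cases i <;> fin_cases j <;>
    simp only [Matrix.mul_apply, Fin.sum_univ_three, Matrix.of_apply, Matrix.cons_val', Matrix.cons_val_zero,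
      Matrix.cons_val_one, Matrix.cons_val, Matrix.zero_apply, Fin.zero_eta, Fin.mk_one,
      Fin.reduceFinMk, Fin.isValue]
  · linear_combination (x v 3 ^ 2 * (x v 2 * x v 0 + x v 1) * (x v 2 * x v 0 + x v 1)) * h2
  · linear_combination (x v 3 ^ 2 * (x v 2 * x v 0 + x v 1) * x v 0) * h2
  · linear_combination (x v 3 ^ 2 * (x v 2 * x v 0 + x v 1)) * h2
  · linear_combination (x v 3 ^ 2 * x v 2 * (x v 2 * x v 0 + x v 1) * (x v 2 * x v 0 + x v 1)) * h2
  · linear_combination (x v 3 ^ 2 * x v 2 * (x v 2 * x v 0 + x v 1) * x v 0) * h2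
  · linear_combination (x v 3 ^ 2 * x v 2 * (x v 2 * x v 0 + x v 1)) * h2
  · linear_combination (x v 3 ^ 2 * x v 1 * (x v 2 * x v 0 + x v 1) * (x v 2 * x v 0 + x v 1)) * h2
  · linear_combination (x v 3 ^ 2 * x v 1 * (x v 2 * x v 0 + x v 1) * x v 0) * h2
  · linear_combination (x v 3 ^ 2 * x v 1 * (x v 2 * x v 0 + x v 1)) * h2

lemma add_self (M : Matrix (Fin 3) (Fin 3) (BB k V)) : M + M = 0 := by
  rw [← two_smul (BB k V), two_eq, zero_smul]

/-- the involution -/
noncomputable def XM (k : Type) [Field k] [CharP k 2] (v : V) : GL (Fin 3) (BB k V) where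
  val := 1 + NM k v
  inv := 1 + NM k v
  val_inv := by
    rw [mul_add, add_mul, add_mul, mul_one, mul_one, one_mul, NM_sq, add_zero, add_assoc,
      add_self, add_zero]
  inv_val := by
    rw [mul_add, add_mul, add_mul, mul_one, mul_one, one_mul, NM_sq, add_zero, add_assoc,
      add_self, add_zero]

lemma XM_sq (v : V) : XM k v * XM k v = 1 := by
  have : XM k v * (XM k v)⁻¹ = 1 := mul_inv_cancel _
  exact this

lemma XM_red (v : V) : Matrix.GeneralLinearGroup.map (MvPowerSeries.constantCoeff (σ := Ta V)) (XM k v) = 1 := by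
  ext a b
  rw [Matrix.GeneralLinearGroup.map_apply]
  show MvPowerSeries.constantCoeff ((1 + NM k v) a b) = (1 : Matrix (Fin 3) (Fin 3) k) a b
  unfold NM x
  fin_cases a <;> fin_cases b <;> simp

omit [CharP k 2] in
lemma isUnit_T : IsUnit (1 + MvPowerSeries.X none : BB k V) := by
  rw [MvPowerSeries.isUnit_iff_constantCoeff]
  simp

/-- the scalar matrix `1 + T` -/
noncomputable def UM (k : Type) [Field k] (V : Type) : GL (Fin 3) (BB k V) :=
  Units.map (Matrix.scalar (Fin 3)).toMonoidHom (isUnit_T (k := k) (V := V)).unit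

omit [CharP k 2] in
lemma UM_coe : (UM k V : Matrix (Fin 3) (Fin 3) (BB k V)) = (1 + MvPowerSeries.X none : BB k V) • 1 := by
  show Matrix.scalar (Fin 3) (1 + MvPowerSeries.X none : BB k V) = _
  rw [Matrix.scalar_apply, ← Matrix.smul_one_eq_diagonal]

omit [CharP k 2] in
lemma UM_red : Matrix.GeneralLinearGroup.map (MvPowerSeries.constantCoeff (σ := Ta V)) (UM k V) = 1 := by
  ext a b
  rw [Matrix.GeneralLinearGroup.map_apply, UM_coe]
  by_cases hab : a = b
  · subst hab; simp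
  · simp [Matrix.one_apply_ne hab]

omit [CharP k 2] in
lemma UM_comm (M : GL (Fin 3) (BB k V)) : M * UM k V * M⁻¹ = UM k V := by
  have h : M * UM k V = UM k V * M := by
    apply Units.ext
    rw [Units.val_mul, Units.val_mul, UM_coe, Matrix.smul_mul, Matrix.mul_smul, one_mul, mul_one]
  rw [h, mul_inv_cancel_right]

omit [CharP k 2] in
lemma map_CM (n : ℕ) (M : GL (Fin n) k) :
    Matrix.GeneralLinearGroup.map (MvPowerSeries.constantCoeff (σ := Ta V)) (CM n (CC k V) M) = M := by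
  ext a b
  simp [CM]

omit [CharP k 2] in
lemma CM_coe (n : ℕ) (M : GL (Fin n) k) :
    ((CM n (CC k V) M : GL (Fin n) (BB k V)) : Matrix (Fin n) (Fin n) (BB k V)) =
      (M : Matrix (Fin n) (Fin n) k).map (CC k V) := rfl

omit [CharP k 2] in
lemma map_smul_one (n : ℕ) (a : k) : ((a • (1 : Matrix (Fin n) (Fin n) k)).map (CC k V) :
    Matrix (Fin n) (Fin n) (BB k V)) = (CC k V a) • 1 := by
  ext1 i j
  by_cases hij : i = j
  · subst hij; simp
  · simp [Matrix.one_apply_ne hij]

omit [CharP k 2] in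
/-- conjugation by scalar-equivalent matrices agree -/
lemma conj_scalar {n : ℕ} (M N : GL (Fin n) k) (a : k)
    (h : ((M * N⁻¹ : GL (Fin n) k) : Matrix (Fin n) (Fin n) k) = a • (1 : Matrix (Fin n) (Fin n) k))
    (Y : GL (Fin n) (BB k V)) :
    CM n (CC k V) M * Y * (CM n (CC k V) M)⁻¹ = CM n (CC k V) N * Y * (CM n (CC k V) N)⁻¹ := by
  have h1 : ((CM n (CC k V) (M * N⁻¹) : GL (Fin n) (BB k V)) : Matrix (Fin n) (Fin n) (BB k V))
      = (CC k V a) • (1 : Matrix (Fin n) (Fin n) (BB k V)) := by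
    rw [CM_coe, h, map_smul_one]
  have hc : CM n (CC k V) (M * N⁻¹) * (CM n (CC k V) N * Y * (CM n (CC k V) N)⁻¹) =
      (CM n (CC k V) N * Y * (CM n (CC k V) N)⁻¹) * CM n (CC k V) (M * N⁻¹) := by
    refine Units.ext ?_
    rw [Units.val_mul (CM n (CC k V) (M * N⁻¹)), Units.val_mul (CM n (CC k V) N * Y * (CM n (CC k V) N)⁻¹),
      h1, Matrix.smul_mul, Matrix.mul_smul, Matrix.one_mul, Matrix.mul_one]
  have h2 : CM n (CC k V) M = CM n (CC k V) (M * N⁻¹) * CM n (CC k V) N := by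
    rw [← map_mul]; congr 1; group
  calc CM n (CC k V) M * Y * (CM n (CC k V) M)⁻¹
      = CM n (CC k V) (M * N⁻¹) * (CM n (CC k V) N * Y * (CM n (CC k V) N)⁻¹) *
          (CM n (CC k V) (M * N⁻¹))⁻¹ := by
        rw [h2]; group
    _ = CM n (CC k V) N * Y * (CM n (CC k V) N)⁻¹ := by rw [hc]; group

end ring

section QI

variable {k : Type} [Field k] {τ : Type}

lemma mono_mem {o : τ → ℕ} {r : ℕ} {m : τ →₀ ℕ} {a : k} {s : τ} (hs : o s < r) (hm : m s ≠ 0) :
    MvPowerSeries.monomial m a ∈ QI k o r := by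
  classical
  intro n hn
  rw [MvPowerSeries.coeff_monomial, if_neg]
  rintro rfl
  exact hm (hn s hs)

lemma mono_notMem {o : τ → ℕ} {r : ℕ} {m : τ →₀ ℕ} {a : k} (ha : a ≠ 0)
    (hm : ∀ s, m s ≠ 0 → r ≤ o s) : MvPowerSeries.monomial m a ∉ QI k o r := by
  classical
  intro h
  have h1 := h m (fun s hs => by
    by_contra hc
    exact absurd (hm s hc) (not_le.2 hs))
  rw [MvPowerSeries.coeff_monomial, if_pos rfl] at h1
  exact ha h1

/-- `C a * X s * X s'` and `C a * X s` -/
lemma CX (a : k) (s : τ) : (MvPowerSeries.C a * MvPowerSeries.X s : MvPowerSeries τ k) =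
    MvPowerSeries.monomial (Finsupp.single s 1) a := by
  classical
  rw [MvPowerSeries.X, ← MvPowerSeries.monomial_zero_eq_C_apply, MvPowerSeries.monomial_mul_monomial]
  simp

lemma CXX (a : k) (s s' : τ) :
    (MvPowerSeries.C a * (MvPowerSeries.X s * MvPowerSeries.X s') : MvPowerSeries τ k) =
    MvPowerSeries.monomial (Finsupp.single s 1 + Finsupp.single s' 1) a := by
  classical
  rw [← mul_assoc, CX, MvPowerSeries.X, MvPowerSeries.monomial_mul_monomial]
  simp

end QI

theorem main (hLIM : S_LIM) (hEXT : S_EXT) (hDIM : S_DIM) (hBUR : S_BUR) : S_LFT := by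
  intro P G 𝒢 V ι _ _ _ _ _ _ _ _ _ _ D k _ _ _ ρbar hρo hρi hρs R ρu hu
  classical
  -- lifts
  choose lf hlf using D.hsurj
  let C : k →+* (MV k (Ta V)).A := CC k V
  let Rm : G → GL (Fin 3) (BB k V) := fun b => CM 3 (CC k V) (ρbar (lf b))
  have hRmul : ∀ (g : 𝒢) (b : G) (Y : GL (Fin 3) (BB k V)),
      Rm (D.res g * b) * Y * (Rm (D.res g * b))⁻¹ =
        CM 3 (CC k V) (ρbar g) * (Rm b * Y * (Rm b)⁻¹) * (CM 3 (CC k V) (ρbar g))⁻¹ := by
    intro g b Y
    obtain ⟨s, hs⟩ := hρs (lf (D.res g * b) * (g * lf b)⁻¹) (by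
      rw [map_mul, map_inv, map_mul, hlf, hlf, mul_inv_cancel]
      exact Subgroup.one_mem _)
    have := conj_scalar (V := V) (ρbar (lf (D.res g * b))) (ρbar (g * lf b)) s (by
      rw [← map_inv, ← map_mul]; exact hs) Y
    show CM 3 (CC k V) (ρbar (lf (D.res g * b))) * Y * (CM 3 (CC k V) (ρbar (lf (D.res g * b))))⁻¹ = _
    rw [this]
    show _ = CM 3 (CC k V) (ρbar g) * (CM 3 (CC k V) (ρbar (lf b)) * Y *
      (CM 3 (CC k V) (ρbar (lf b)))⁻¹) * (CM 3 (CC k V) (ρbar g))⁻¹
    rw [map_mul, map_mul]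
    group
  let t : ι → GL (Fin 3) (BB k V) := fun i => Rm (D.a i) * XM k (D.vv i) * (Rm (D.a i))⁻¹
  have ht2 : ∀ i, t i * t i = 1 := by
    intro i
    calc Rm (D.a i) * XM k (D.vv i) * (Rm (D.a i))⁻¹ * (Rm (D.a i) * XM k (D.vv i) * (Rm (D.a i))⁻¹)
        = Rm (D.a i) * (XM k (D.vv i) * XM k (D.vv i)) * (Rm (D.a i))⁻¹ := by group
      _ = 1 := by rw [XM_sq, mul_one, mul_inv_cancel]
  have htred : ∀ i, Matrix.GeneralLinearGroup.map (MvPowerSeries.constantCoeff (σ := Ta V)) (t i) = 1 := by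
    intro i
    show Matrix.GeneralLinearGroup.map _ (Rm (D.a i) * XM k (D.vv i) * (Rm (D.a i))⁻¹) = 1
    rw [map_mul, map_mul, XM_red, mul_one, map_inv, mul_inv_cancel]
  have htπ : ∀ g : 𝒢, D.res g ∈ D.A → ∀ i, t (D.π (D.res g) i) =
      CM 3 (CC k V) (ρbar g) * t i * (CM 3 (CC k V) (ρbar g))⁻¹ := by
    intro g hg i
    show Rm (D.a (D.π (D.res g) i)) * XM k (D.vv (D.π (D.res g) i)) *
      (Rm (D.a (D.π (D.res g) i)))⁻¹ = _
    rw [D.hπa _ hg, D.hπv, hRmul]
  obtain ⟨ψ, hψ1, hψo, hψc, hψσ⟩ := hLIM P ι D.c D.σ D.gen D.asg k 3 (MV k (Ta V)) two_eq t (UM k V)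
    ht2 htred UM_red
  obtain ⟨ρ, hρl, hρv⟩ := hEXT P G 𝒢 V ι D k 3 (MV k (Ta V)) C
    (fun a => MvPowerSeries.constantCoeff_C a) ρbar hρo hρs t (UM k V) htπ
    (fun g => UM_comm _) ψ hψ1 hψo hψc hψσ
  let ρ0 : 𝒢 →* GL (Fin 3) (BB k V) := ρ
  let ψ0 : P →* GL (Fin 3) (BB k V) := ψ
  have hρv0 : ∀ (g : 𝒢) (q : P), ∀ b ∈ D.A, D.res g = D.j q * b →
      ρ0 g = ψ0 q * CM 3 (CC k V) (ρbar g) := hρv
  have hψc0 : ∀ i, ψ0 (D.c i) = t i := hψc
  have hψσ0 : ψ0 D.σ = UM k V := hψσ
  -- Burnside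
  have hspan := hBUR k 𝒢 3 ρbar (by norm_num) hρi
  have hunit : ∀ (g : 𝒢) (s : k), (ρbar g : Matrix (Fin 3) (Fin 3) k) = s • (1 : Matrix (Fin 3) (Fin 3) k) →
      s ≠ 0 := by
    rintro g s hs rfl
    rw [zero_smul] at hs
    have := (ρbar g).isUnit
    rw [hs] at this
    exact not_isUnit_zero this
  have hspanA : Submodule.span k (Set.range fun b : D.A => (ρbar (lf b) : Matrix (Fin 3) (Fin 3) k)) = ⊤ := by
    rw [eq_top_iff, ← hspan, Submodule.span_le]
    rintro _ ⟨g, rfl⟩
    obtain ⟨b, hb, q, hq, hbq⟩ := D.hA' (D.res g)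
    obtain ⟨s, hs⟩ := hρs (g * (lf b)⁻¹) (by
      rw [map_mul, map_inv, hlf, hbq, mul_inv_cancel_right]
      exact hq)
    have h1 : (ρbar g : Matrix (Fin 3) (Fin 3) k) = s • (ρbar (lf b) : Matrix (Fin 3) (Fin 3) k) := by
      have : ρbar g = ρbar (g * (lf b)⁻¹) * ρbar (lf b) := by rw [← map_mul]; congr 1; group
      rw [this, Units.val_mul, hs, Matrix.smul_mul, one_mul]
    show (ρbar g : Matrix (Fin 3) (Fin 3) k) ∈ _
    rw [h1]
    exact Submodule.smul_mem _ _ (Submodule.subset_span ⟨⟨b, hb⟩, rfl⟩)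
  -- order of the variables
  let e := Fintype.equivFin V
  let o : Ta V → ℕ := fun s => match s with
    | none => 4 * Fintype.card V
    | some (v, i) => 4 * (e v : ℕ) + (i : ℕ)
  have hmain := hDIM k 𝒢 3 ρbar (Ta V) o (4 * Fintype.card V + 1) ρ hρl ?_ R ρu hu
  · exact hmain
  intro r hr
  rcases Nat.lt_succ_iff_lt_or_eq.1 hr with hr1 | hr1
  · -- a variable of a place
    obtain ⟨v, i, hvi⟩ : ∃ (v : V) (i : Fin 4), 4 * (e v : ℕ) + (i : ℕ) = r := by
      refine ⟨e.symm ⟨r / 4, by omega⟩, ⟨r % 4, Nat.mod_lt _ (by norm_num)⟩, ?_⟩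
      rw [Equiv.apply_symm_apply]
      show 4 * (r / 4) + r % 4 = r
      omega
    let ct : 𝒢 := lf (D.j (D.c (D.bs v)))
    obtain ⟨sc, hsc⟩ := hρs ct (by
      show D.res (lf _) ∈ D.j.range
      rw [hlf]
      exact ⟨_, rfl⟩)
    have hsc0 : sc ≠ 0 := hunit ct sc hsc
    have hval : ∀ b ∈ D.A, ((ρ0 (lf b * ct) : GL (Fin 3) (BB k V)) : Matrix (Fin 3) (Fin 3) (BB k V)) =
        CC k V sc • ((ρbar (lf b) : Matrix (Fin 3) (Fin 3) k).map (CC k V) * (1 + NM k v)) := by
      intro b hb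
      have h1 : D.res (lf b * ct) = D.j (D.c (D.π b (D.bs v))) * b := by
        rw [map_mul, hlf, ← D.hπc b hb]
        show b * D.res (lf (D.j (D.c (D.bs v)))) = _
        rw [hlf]
        group
      have h2 : ρ0 (lf b * ct) = ψ0 (D.c (D.π b (D.bs v))) * CM 3 (CC k V) (ρbar (lf b * ct)) :=
        hρv0 _ _ b hb h1
      have h3 : ψ0 (D.c (D.π b (D.bs v))) = Rm b * XM k v * (Rm b)⁻¹ := by
        have h31 : ψ0 (D.c (D.π b (D.bs v))) = t (D.π b (D.bs v)) := hψc0 _
        have h32 : t (D.π b (D.bs v)) = Rm (D.a (D.π b (D.bs v))) * XM k (D.vv (D.π b (D.bs v))) *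
          (Rm (D.a (D.π b (D.bs v))))⁻¹ := rfl
        rw [h31, h32, D.hπa b hb, D.hπv, D.hbs, D.hbs1, mul_one]
      have h4 : ρ0 (lf b * ct) = CM 3 (CC k V) (ρbar (lf b)) * XM k v * CM 3 (CC k V) (ρbar ct) := by
        rw [h2, h3, map_mul, map_mul]
        show CM 3 (CC k V) (ρbar (lf b)) * XM k v * (CM 3 (CC k V) (ρbar (lf b)))⁻¹ *
          (CM 3 (CC k V) (ρbar (lf b)) * CM 3 (CC k V) (ρbar ct)) = _
        group
      have h5 : ((ρ0 (lf b * ct) : GL (Fin 3) (BB k V)) : Matrix (Fin 3) (Fin 3) (BB k V)) =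
          ((CM 3 (CC k V) (ρbar (lf b)) * XM k v * CM 3 (CC k V) (ρbar ct) : GL (Fin 3) (BB k V)) :
            Matrix (Fin 3) (Fin 3) (BB k V)) := congrArg Units.val h4
      rw [h5, Units.val_mul, Units.val_mul, CM_coe, CM_coe, hsc, map_smul_one, Matrix.mul_smul, mul_one]
      rfl
    have hbar : ∀ b, (ρbar (lf b * ct) : Matrix (Fin 3) (Fin 3) k) =
        sc • (ρbar (lf b) : Matrix (Fin 3) (Fin 3) k) := by
      intro b
      rw [map_mul, Units.val_mul, hsc, Matrix.mul_smul, mul_one]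
    -- every entry of the nilpotent matrix is reached
    have hent : ∀ i j : Fin 3, ∃ w : 𝒢 →₀ k, TrS ρbar ρ0 w = CC k V sc * NM k v i j := by
      intro i j
      have hE : (Matrix.single j i (1 : k)) ∈ Submodule.span k
          (Set.range fun b : D.A => (ρbar (lf b) : Matrix (Fin 3) (Fin 3) k)) := by
        rw [hspanA]; trivial
      rw [Finsupp.mem_span_range_iff_exists_finsupp] at hE
      obtain ⟨l, hl⟩ := hE
      refine ⟨l.mapDomain (fun b : D.A => lf b * ct), ?_⟩
      unfold TrS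
      rw [Finsupp.sum_mapDomain_index (by intro b; rw [map_zero, zero_mul])
        (by intro b m1 m2; rw [map_add, add_mul])]
      have h1 : ∀ b : D.A, ((ρ0 (lf b * ct) : Matrix (Fin 3) (Fin 3) (BB k V)).trace -
          CC k V ((ρbar (lf b * ct) : Matrix (Fin 3) (Fin 3) k).trace)) =
          CC k V sc * ((ρbar (lf b) : Matrix (Fin 3) (Fin 3) k).map (CC k V) * NM k v).trace := by
        intro b
        rw [hbar, Matrix.trace_smul, smul_eq_mul, map_mul (CC k V)]
        have h2 : ((ρ0 (lf b * ct) : GL (Fin 3) (BB k V)) : Matrix (Fin 3) (Fin 3) (BB k V)).trace =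
            (CC k V sc • ((ρbar (lf b) : Matrix (Fin 3) (Fin 3) k).map (CC k V) * (1 + NM k v))).trace := by
          rw [hval b b.2]
        have h3 : CC k V ((ρbar (lf b) : Matrix (Fin 3) (Fin 3) k).trace) =
            ((ρbar (lf b) : Matrix (Fin 3) (Fin 3) k).map (CC k V)).trace := by
          simp [Matrix.trace, Matrix.map_apply]
        rw [h2, h3,
          Matrix.trace_smul, smul_eq_mul, mul_add, mul_one, Matrix.trace_add]
        ring
      have h4 : (l.sum fun b x => MvPowerSeries.C x *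
          ((ρ0 (lf b * ct) : Matrix (Fin 3) (Fin 3) (BB k V)).trace -
          CC k V ((ρbar (lf b * ct) : Matrix (Fin 3) (Fin 3) k).trace))) =
          CC k V sc * ((l.sum fun b x => x • (ρbar (lf b) : Matrix (Fin 3) (Fin 3) k)).map (CC k V) *
            NM k v).trace := by
        rw [Finsupp.sum, Finsupp.sum]
        have h5 : ((∑ b ∈ l.support, l b • (ρbar (lf b) : Matrix (Fin 3) (Fin 3) k)).map (CC k V) :
            Matrix (Fin 3) (Fin 3) (BB k V)) =
            ∑ b ∈ l.support, CC k V (l b) • (ρbar (lf b) : Matrix (Fin 3) (Fin 3) k).map (CC k V) := by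
          ext1 a c
          rw [Matrix.map_apply, Matrix.sum_apply, Matrix.sum_apply, map_sum]
          refine Finset.sum_congr rfl fun b _ => ?_
          rw [Matrix.smul_apply, Matrix.smul_apply, Matrix.map_apply, smul_eq_mul, smul_eq_mul, map_mul]
        rw [h5, Finset.sum_mul, Matrix.trace_sum, Finset.mul_sum]
        refine Finset.sum_congr rfl fun b _ => ?_
        rw [h1 b, Matrix.smul_mul, Matrix.trace_smul, smul_eq_mul]
        ring
      have h6 : (l.sum fun b x => x • (ρbar (lf b) : Matrix (Fin 3) (Fin 3) k)) =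
          Matrix.single j i (1 : k) := hl
      refine h4.trans ?_
      rw [h6]
      congr 1
      have h7 : ((Matrix.single j i (1 : k)).map (CC k V) : Matrix (Fin 3) (Fin 3) (BB k V)) =
          Matrix.single j i 1 := by
        ext1 a c
        rw [Matrix.map_apply, Matrix.single_apply, Matrix.single_apply]
        split_ifs <;> simp
      rw [h7, Matrix.trace_mul_comm]
      simp [Matrix.trace, Matrix.mul_apply, Matrix.single_apply, Fin.sum_univ_three]
      fin_cases i <;> fin_cases j <;> simp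
    have hoi : ∀ j : Fin 4, o (some (v, j)) = 4 * (e v : ℕ) + (j : ℕ) := fun j => rfl
    -- the monomials
    have hgo : ∀ s : Fin 4, s ≠ 3 → 4 * (e v : ℕ) + (s : ℕ) = r → ∀ f : BB k V,
        f = CC k V sc * (x v 3 * x v s) → f ∈ QI k o (r + 1) ∧ f ∉ QI k o r := by
      intro s hs3 hs f hf
      rw [hf]
      unfold x
      rw [CXX]
      refine ⟨mono_mem (s := some (v, s)) (by rw [hoi]; omega) ?_, mono_notMem hsc0 ?_⟩
      · rw [Finsupp.add_apply, Finsupp.single_eq_same]
        omega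
      · intro y hy
        by_contra hc
        apply hy
        rw [Finsupp.add_apply, Finsupp.single_apply, Finsupp.single_apply]
        have h3 : (some (v, 3) : Ta V) ≠ y := by
          rintro rfl
          apply hc
          rw [hoi]
          have : (s : ℕ) ≤ 3 := by omega
          have h33 : ((3 : Fin 4) : ℕ) = 3 := rfl
          omega
        have h4 : (some (v, s) : Ta V) ≠ y := by
          rintro rfl
          apply hc
          rw [hoi]
          omega
        rw [if_neg h3, if_neg h4, add_zero]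
    fin_cases i
    · obtain ⟨w, hw⟩ := hent 0 1
      exact ⟨w, hgo 0 (by decide) hvi _ (by rw [hw]; simp [NM])⟩
    · obtain ⟨w, hw⟩ := hent 2 2
      exact ⟨w, hgo 1 (by decide) hvi _ (by rw [hw]; simp [NM])⟩
    · obtain ⟨w, hw⟩ := hent 1 2
      exact ⟨w, hgo 2 (by decide) hvi _ (by rw [hw]; simp [NM])⟩
    · obtain ⟨w, hw⟩ := hent 0 2
      refine ⟨w, ?_⟩
      have hvi' : 4 * (e v : ℕ) + 3 = r := hvi
      have hw' : TrS ρbar ρ0 w = CC k V sc * MvPowerSeries.X (some (v, 3)) := by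
        rw [hw]; simp [NM, x]
      rw [hw', CX]
      refine ⟨mono_mem (s := some (v, 3)) (by rw [hoi]; show 4 * (e v : ℕ) + 3 < r + 1; omega) (by simp),
        mono_notMem hsc0 ?_⟩
      intro y hy
      by_contra hc
      apply hy
      rw [Finsupp.single_apply, if_neg]
      rintro rfl
      apply hc
      rw [hoi]
      show r ≤ 4 * (e v : ℕ) + 3
      omega
  · -- the variable of `σ`
    subst hr1
    let gs : 𝒢 := lf (D.j D.σ)
    obtain ⟨sc, hsc⟩ := hρs gs (by
      show D.res (lf _) ∈ D.j.range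
      rw [hlf]
      exact ⟨_, rfl⟩)
    have hsc0 : sc ≠ 0 := hunit gs sc hsc
    have h1 : ρ0 gs = ψ0 D.σ * CM 3 (CC k V) (ρbar gs) :=
      hρv0 gs D.σ 1 D.A.one_mem (by rw [mul_one]; exact hlf _)
    have h2 : ((ρ0 gs : GL (Fin 3) (BB k V)) : Matrix (Fin 3) (Fin 3) (BB k V)) =
        (CC k V sc * (1 + MvPowerSeries.X none)) • 1 := by
      have h3 : (ρ0 gs : GL (Fin 3) (BB k V)) = UM k V * CM 3 (CC k V) (ρbar gs) := by
        have : ψ0 D.σ = UM k V := hψσ0
        rw [← this]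
        exact h1
      have h4 : ((ρ0 gs : GL (Fin 3) (BB k V)) : Matrix (Fin 3) (Fin 3) (BB k V)) =
        ((UM k V * CM 3 (CC k V) (ρbar gs) : GL (Fin 3) (BB k V)) : Matrix (Fin 3) (Fin 3) (BB k V)) :=
        congrArg Units.val h3
      rw [h4, Units.val_mul, UM_coe, CM_coe, hsc, map_smul_one, Matrix.smul_mul, one_mul, smul_smul,
        mul_comm]
    have h5 : TrS ρbar ρ0 (Finsupp.single gs 1) = CC k V sc * MvPowerSeries.X none := by
      unfold TrS
      rw [Finsupp.sum_single_index (by rw [map_zero, zero_mul]), map_one, one_mul]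
      have h6 : ((ρ0 gs : GL (Fin 3) (BB k V)) : Matrix (Fin 3) (Fin 3) (BB k V)).trace =
          3 * (CC k V sc * (1 + MvPowerSeries.X none)) := by
        rw [h2, Matrix.trace_smul, Matrix.trace_one, smul_eq_mul, Fintype.card_fin]
        push_cast
        ring
      have h7 : (ρbar gs : Matrix (Fin 3) (Fin 3) k).trace = sc * 3 := by
        rw [hsc, Matrix.trace_smul, Matrix.trace_one, smul_eq_mul, Fintype.card_fin]
        push_cast
        ring
      rw [h6, h7, map_mul, map_ofNat]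
      have h8 : (2 : BB k V) = 0 := two_eq
      linear_combination (CC k V sc * MvPowerSeries.X none) * h8
    refine ⟨Finsupp.single gs 1, ?_⟩
    rw [h5, CX]
    refine ⟨mono_mem (s := none) (by show 4 * Fintype.card V < 4 * Fintype.card V + 1; omega) (by simp),
      mono_notMem hsc0 ?_⟩
    intro y hy
    by_contra hc
    apply hy
    rw [Finsupp.single_apply, if_neg]
    rintro rfl
    exact hc le_rfl

end Pool.Agent.Helper15.MD.LFT
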