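import Pool.Agent.Helper15.MD.GRP
import Pool.Agent.Helper15.MD.LIM
import Pool.Agent.Helper15.MD.EXT
import Pool.Agent.Helper15.MD.DIM
import Pool.Agent.Helper15.MD.BUR
import Pool.Agent.Helper15.MD.LFT
import Pool.Agent.Helper15.MD.NT0
import Pool.Agent.Helper15.MD.BC
import Pool.Agent.Helper15.MD.DEL
import Pool.Agent.Helper15.MD.FLD
import Pool.Agent.Helper15.MD.FIN

/-!
# Mazur's dimension conjecture: unbounded failure
-/

set_option autoImplicit false

namespace Pool.Agent.Helper15.MD.All

theorem final (m : ℕ) : FIN.Final m :=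
  FIN.main GRP.main (LFT.main LIM.main EXT.main DIM.main BUR.main) NT0.main DEL.main
    (FLD.main BC.main) m

end Pool.Agent.Helper15.MD.All
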