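import Pool.Agent.Helper15.MD.GEN
import Pool.Agent.Helper15.MD.LIM
import Pool.Agent.Helper15.MD.EXT
import Pool.Agent.Helper15.MD.DIM
import Pool.Agent.Helper15.MD.BUR
import Pool.Agent.Helper15.MD.LFT
import Pool.Agent.Helper15.MD.DEL

/-!
# Mazur's dimension conjecture over `ℚ(√5)`: `dim R / 2 R ≥ 9`
-/

set_option autoImplicit false
set_option linter.style.haveILetI false

namespace Pool.Agent.Helper15.MD.F5

open NumberField IsDedekindDomain IsLocalRing MZ Pool.Agent.Helper15.MD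

/-- the datum over `ℚ(√5)`; `dim R / 2 R ≥ 9` -/
theorem main : ∃ (k : Type) (_ : Field k) (_ : Finite k) (_ : CharP k 2)
    (ρbar : GFS Om S30 →* GL (Fin 3) k),
    IsOpen (ρbar.ker : Set (GFS Om S30)) ∧ AbsIrred ρbar ∧ (∀ g, ρbar g ^ 27 = 1) ∧
    GEN.Concl S30 ρbar ∧
    ∀ (R : CNL 2 k) (ρu : GFS Om S30 →* GL (Fin 3) R.A), IsUniversal ρbar R ρu →
      ((9 : ℕ) : WithBot ℕ∞) ≤ ringKrullDim (R.A ⧸ Ideal.span {((2 : ℕ) : R.A)}) := by
  have hK7 : StmK7 := Pool.Agent.W178.MZK.K7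
  obtain ⟨hfd, hgal, h9, hreal, hunr, hNF, htwo⟩ : StmL := MZ294.stmL MZ413.stmN MZ413.stmM MZ413.stmP
  obtain ⟨k, ik, iFin, iP, ρbar, ω, hω, hρo, hρi, hρ27, hρs, hρT⟩ : StmRho := MZ294.stmRho hK7
  have hsol : Group.IsSolvable Gal(Lf/F5) := by
    haveI : Fact (Nat.Prime 3) := ⟨Nat.prime_three⟩
    have hc : Nat.card Gal(Lf/F5) = 3 ^ 2 := by
      rw [IsGalois.card_aut_eq_finrank, h9]; norm_num
    haveI : Group.IsNilpotent Gal(Lf/F5) := (IsPGroup.of_card hc).isNilpotent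
    infer_instance
  have hL : GEN.HypL S30 Lf :=
    { odd := by rw [h9]; decide
      sol := hsol
      real := hreal
      unr := hunr
      rat := htwo
      sqrt := fun x hx => no_sqrt2_Lf h9 x hx }
  have hR : GEN.HypR S30 Lf ρbar 27 :=
    { opn := hρo
      irr := hρi
      exp := hρ27
      scal := hρs }
  have hC : GEN.Concl S30 ρbar := GEN.base F5 Om S30 Lf
    (LFT.main LIM.main EXT.main DIM.main BUR.main) DEL.main S30_finite
    two_mem_S30 hL k ρbar 27 (by decide) hR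
  refine ⟨k, ik, iFin, iP, ρbar, hρo, hρi, hρ27, hC, ?_⟩
  intro R ρu hu
  have h1 := hC.2.2.2.2.2 R ρu hu
  rwa [Pool.Agent.W505.MZ.finrank_F5] at h1

end Pool.Agent.Helper15.MD.F5
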