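import Pool.Agent.Helper15.MD.NTG

/-!
# Mazur's dimension conjecture: the general theorem

`F` a number field, `L / F` a totally real Galois extension with solvable Galois group of odd order,
unramified outside `S`, 2-rational (`TwoRat`) and without `√2`; `ρbar : G_{F,S} → GL_3(k)`, `k` of
characteristic 2, absolutely irreducible, scalar on the elements which fix `L`, of odd image. Then
`dim R / 2 R ≥ 4 [F : ℚ] + 1`, and the same for the layers of the cyclotomic `ℤ_2`-extension-like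
tower.
-/

set_option autoImplicit false
set_option linter.style.haveILetI false

namespace Pool.Agent.Helper15.MD.GEN

open NumberField IsDedekindDomain IsLocalRing MZ Pool.Agent.Helper15.MD

/-- a number `e` with `2 ^ m * e ≡ 1` modulo the odd number `N` -/
lemma exists_e (N : ℕ) (hN : Odd N) (m : ℕ) : ∃ e q : ℕ, 2 ^ m * e = 1 + N * q := by
  obtain ⟨a, ha⟩ := hN
  induction m with
  | zero => exact ⟨1, 0, by simp⟩
  | succ m ih =>
    obtain ⟨e, q, h⟩ := ih
    refine ⟨(a + 1) * e, q + 1 + N * q, ?_⟩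
    have h1 : 2 ^ (m + 1) * ((a + 1) * e) = (2 * a + 1 + 1) * (2 ^ m * e) := by ring
    rw [h1, h, ← ha]
    ring

section

variable {F Ω : Type} [Field F] [NumberField F] [Field Ω] [Algebra F Ω] [IsAlgClosure F Ω]
  (S : Set (HeightOneSpectrum (𝓞 F))) (L : IntermediateField F Ω) [FiniteDimensional F L]
  [IsGalois F L] [NumberField L]

/-- The hypotheses on the field. -/
structure HypL : Prop where
  odd : Odd (Module.finrank F L)
  sol : Group.IsSolvable Gal(L/F)
  real : ∀ τ : L →+* ℂ, ComplexEmbedding.IsReal τ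
  unr : UnramifiedOutside S L
  rat : MZ294.TwoRat L
  sqrt : ∀ x : L, x ^ 2 ≠ 2

/-- The hypotheses on the residual representation; `N` is an exponent of the image. -/
structure HypR {k : Type} [Field k] (ρbar : GFS Ω S →* GL (Fin 3) k) (N : ℕ) : Prop where
  opn : IsOpen (ρbar.ker : Set (GFS Ω S))
  irr : AbsIrred ρbar
  exp : ∀ g : GFS Ω S, ρbar g ^ N = 1
  scal : ∀ g : GFS Ω S, (∀ x : (FSmax S : IntermediateField F Ω), (x : Ω) ∈ L → g x = x) →
      ∃ a : k, (ρbar g : Matrix (Fin 3) (Fin 3) k) = a • (1 : Matrix (Fin 3) (Fin 3) k)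

end

/-- the conclusion for the residual representation `ρbar` of `G_{F,S}` -/
def Concl {F Ω : Type} [Field F] [NumberField F] [Field Ω] [Algebra F Ω]
    (S : Set (HeightOneSpectrum (𝓞 F))) {k : Type} [Field k] [Finite k] [CharP k 2]
    (ρbar : GFS Ω S →* GL (Fin 3) k) : Prop :=
  (∀ v : InfinitePlace F, v.IsReal) ∧ (∀ g, g * g = 1 → ρbar g = 1) ∧
    (∃ w : InfinitePlace F → InfinitePlace (FSmax S : IntermediateField F Ω),
      ∀ v : InfinitePlace F,
        (w v).comap (algebraMap F (FSmax S : IntermediateField F Ω)) = v) ∧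
    (∀ w : InfinitePlace F → InfinitePlace (FSmax S : IntermediateField F Ω),
      (∀ v : InfinitePlace F,
        (w v).comap (algebraMap F (FSmax S : IntermediateField F Ω)) = v) →
      IsDatum F Ω S 2 k 3 ρbar w ∧ delta S ρbar w = 1) ∧
    (∃ (R : CNL 2 k) (ρu : GFS Ω S →* GL (Fin 3) R.A), IsUniversal ρbar R ρu) ∧
    ∀ (R : CNL 2 k) (ρu : GFS Ω S →* GL (Fin 3) R.A), IsUniversal ρbar R ρu →
      ((4 * Module.finrank ℚ F + 1 : ℕ) : WithBot ℕ∞) ≤
        ringKrullDim (R.A ⧸ Ideal.span {((2 : ℕ) : R.A)})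

lemma exists_w {F Ω : Type} [Field F] [NumberField F] [Field Ω] [Algebra F Ω]
    [Algebra.IsAlgebraic F Ω] (K : IntermediateField F Ω) :
    ∃ w : InfinitePlace F → InfinitePlace K, ∀ v, (w v).comap (algebraMap F K) = v := by
  have : ∀ v : InfinitePlace F, ∃ w : InfinitePlace K, w.comap (algebraMap F K) = v := by
    intro v
    let φ := v.embedding
    letI := φ.toAlgebra
    haveI : Algebra.IsAlgebraic F K := Algebra.IsAlgebraic.tower_bot (K := F) (L := K) (A := Ω)
    let f : K →ₐ[F] ℂ := IsAlgClosed.lift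
    refine ⟨InfinitePlace.mk f.toRingHom, ?_⟩
    rw [InfinitePlace.comap_mk]
    have : f.toRingHom.comp (algebraMap F K) = φ := f.comp_algebraMap
    rw [this]
    exact InfinitePlace.mk_embedding v
  choose w hw using this
  exact ⟨w, hw⟩

/-- an involution has trivial image under a representation of odd exponent -/
lemma inv_trivial {G : Type} [Group G] {k : Type} [Field k] (ρ : G →* GL (Fin 3) k) (N : ℕ)
    (hN : Odd N) (h : ∀ g, ρ g ^ N = 1) (g : G) (hg : g * g = 1) : ρ g = 1 := by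
  obtain ⟨a, ha⟩ := hN
  have h1 : ρ g ^ 2 = 1 := by rw [sq, ← map_mul, hg, map_one]
  have h2 := h g
  rw [ha, pow_succ, pow_mul, h1, one_pow, one_mul] at h2
  exact h2

section

variable (F Ω : Type) [Field F] [NumberField F] [Field Ω] [Algebra F Ω] [IsAlgClosure F Ω]
  (S : Set (HeightOneSpectrum (𝓞 F))) (L : IntermediateField F Ω) [FiniteDimensional F L]
  [IsGalois F L] [NumberField L]

lemma isAlgClosure_L : IsAlgClosure L Ω :=
  ⟨IsAlgClosure.isAlgClosed F, by
    haveI : Algebra.IsAlgebraic F Ω := IsAlgClosure.isAlgebraic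
    exact Algebra.IsAlgebraic.tower_top (K := F) L⟩

/-- the inclusion of `L_∞` in `F_S` -/
noncomputable def inc (h : (Linf L Ω).restrictScalars F ≤ FSmax S) :
    (Linf L Ω) →+* (FSmax S : IntermediateField F Ω) where
  toFun := fun x => ⟨(x : Ω), h x.2⟩
  map_one' := rfl
  map_mul' := fun _ _ => rfl
  map_zero' := rfl
  map_add' := fun _ _ => rfl

/-- **The base field.** -/
theorem base (hLFT : S_LFT) (hDEL : S_DEL) (hSf : S.Finite)
    (hS2 : ∀ v : HeightOneSpectrum (𝓞 F), (2 : 𝓞 F) ∈ v.asIdeal → v ∈ S) (hL : HypL S L)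
    (k : Type) [Field k] [Finite k] [CharP k 2] (ρbar : GFS Ω S →* GL (Fin 3) k) (N : ℕ)
    (hN : Odd N) (hρ : HypR S L ρbar N) : Concl S ρbar := by
  have hK1 : StmK1 := Pool.Agent.W343.MZ.stmK1
  have hK2 : StmK2 := Pool.Agent.W343.MZ.stmK2
  have hK3 : StmK3 := Pool.Agent.W47.MZK3.k3
  have hK4 : StmK4 := Pool.Agent.W368.MZK4.t_K4 hK3
  have hK5 : StmK5 := Pool.Agent.W266.MZK5.t_K5
  have hK6 : StmK6 := Pool.Agent.W178.MZK.K6
  have hK7 : StmK7 := Pool.Agent.W178.MZK.K7
  have hK8 : StmK8 := Pool.Agent.W561.MZK8.stmK8 W289.MZ.stmFrat hK1 hK2 hK3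
  haveI : IsAlgClosed Ω := IsAlgClosure.isAlgClosed F
  haveI : Algebra.IsAlgebraic F Ω := IsAlgClosure.isAlgebraic
  haveI : IsAlgClosure L Ω := isAlgClosure_L F Ω L
  haveI hG1 : IsGalois F (Linf L Ω) := hK1.2 F L Ω inferInstance
  haveI hG2 : IsGalois L (Linf L Ω) := hK1.2 L L Ω inferInstance
  haveI hG3 : IsGalois F (FSmax S : IntermediateField F Ω) := hK7 F Ω S
  have hle : (Linf L Ω).restrictScalars F ≤ FSmax S := hK6 F Ω S hS2 L hL.unr
  letI : Algebra (Linf L Ω) (FSmax S : IntermediateField F Ω) := (inc F Ω S L hle).toAlgebra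
  haveI : IsScalarTower F (Linf L Ω) (FSmax S : IntermediateField F Ω) :=
    IsScalarTower.of_algebraMap_eq (fun x => Subtype.ext rfl)
  haveI : IsScalarTower F (Linf L Ω) Ω := IsScalarTower.of_algebraMap_eq (fun x => rfl)
  haveI : CharZero Ω := charZero_of_injective_algebraMap (algebraMap F Ω).injective
  -- √2
  obtain ⟨r₀, hr₀⟩ : ∃ r : Ω, r ^ 2 = 2 := IsAlgClosed.exists_pow_nat_eq 2 (by norm_num)
  have hr₀mem : r₀ ∈ Linf L Ω := by
    refine hK1.1 L Ω 2 r₀ ?_ ⟨two_ne_zero, 1, ?_, ?_⟩ hr₀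
    · have := (Linf L Ω).algebraMap_mem (2 : L)
      rwa [map_ofNat] at this
    · have : (2 ^ 1 * 2 : Ω) = algebraMap ℤ Ω 4 := by norm_num
      rw [this]; exact isIntegral_algebraMap
    · have : (2 ^ 1 * 2⁻¹ : Ω) = 1 := by norm_num
      rw [this]; exact isIntegral_one
  have hr2 : (⟨r₀, hr₀mem⟩ : Linf L Ω) ^ 2 = 2 := Subtype.ext hr₀
  have hrn : (⟨r₀, hr₀mem⟩ : Linf L Ω) ∉ (algebraMap L (Linf L Ω)).range := by
    rintro ⟨x, hx⟩
    refine hL.sqrt x ?_
    apply (algebraMap L (Linf L Ω)).injective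
    rw [map_pow, hx, hr2, map_ofNat]
  obtain ⟨D, hDj, hDres, hDc⟩ := NTG.main F L (Linf L Ω) (FSmax S : IntermediateField F Ω) hL.odd
    hL.sol hL.real ⟨r₀, hr₀mem⟩ hr2 hrn (hK2 L Ω)
    (fun φ c h1 h2 N hN hNo => by
      have e1 := hK4 L Ω N hNo
      rw [hK5 L Ω hL.real φ c h1 h2 N hN hNo] at e1
      exact e1)
    (fun φ c σ h1 h2 h3 => hK8 L Ω hL.real hL.rat φ c σ h1 h2 h3)
  have hinv := inv_trivial ρbar N hN hρ.exp
  have hscal : Scal D ρbar := by
    intro g hg
    refine hρ.scal g (fun x hx => ?_)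
    rw [hDj, mem_range_jR, hDres] at hg
    have h2 := hg ⟨(x : Ω), hx⟩
    have h3 := res_apply (F := F) (E := Linf L Ω) (K := (FSmax S : IntermediateField F Ω))
      g (algebraMap L (Linf L Ω) ⟨(x : Ω), hx⟩)
    rw [h2] at h3
    have h4 : algebraMap (Linf L Ω) (FSmax S : IntermediateField F Ω)
        (algebraMap L (Linf L Ω) ⟨(x : Ω), hx⟩) = x := Subtype.ext rfl
    rw [h4] at h3
    exact h3.symm
  have hreal : ∀ v : InfinitePlace F, v.IsReal := by
    intro v
    obtain ⟨w, hw⟩ := exists_w (F := F) (Ω := Ω) L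
    have h1 : (w v).IsReal := by
      rw [InfinitePlace.isReal_iff]
      exact hL.real _
    have h2 := InfinitePlace.IsReal.comap (algebraMap F L) h1
    rwa [hw] at h2
  refine ⟨hreal, hinv, exists_w _, fun w hw => ⟨⟨by norm_num, by norm_num, hSf, fun v hv => hS2 v
    (by exact_mod_cast hv), hρ.opn, hρ.irr, hw⟩, hDEL F Ω S k ρbar hreal hinv w hw⟩,
    MZEX.stmEx F Ω S hSf hS2 k 3 (by norm_num) ρbar hρ.opn hρ.irr, ?_⟩
  intro R ρu hu
  have h1 := hLFT Gal(Linf L Ω/L) Gal(Linf L Ω/F) (GFS Ω S) (F →+* ℂ) (L →+* ℂ) D k ρbar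
    hρ.opn hρ.irr hscal R ρu hu
  have h2 : Fintype.card (F →+* ℂ) = Module.finrank ℚ F := NumberField.Embeddings.card F ℂ
  rw [h2] at h1
  exact h1

end

end Pool.Agent.Helper15.MD.GEN
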