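import Pool.Agent.Helper15.MD.GEN

/-!
# Mazur's dimension conjecture: the general theorem for the layers of the tower
-/

set_option autoImplicit false
set_option linter.style.haveILetI false

namespace Pool.Agent.Helper15.MD.GEN

open NumberField IsDedekindDomain IsLocalRing MZ Pool.Agent.Helper15.MD

/-- **The layers.** -/
theorem layers (hGRP : S_GRP) (hLFT : S_LFT) (hDEL : S_DEL) (hFLD : S_FLD)
    (F Ω : Type) [Field F] [NumberField F] [Field Ω] [Algebra F Ω] [IsAlgClosure F Ω]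
    (S : Set (HeightOneSpectrum (𝓞 F))) (L : IntermediateField F Ω) [FiniteDimensional F L]
    [IsGalois F L] [NumberField L] (hSf : S.Finite)
    (hS2 : ∀ v : HeightOneSpectrum (𝓞 F), (2 : 𝓞 F) ∈ v.asIdeal → v ∈ S) (hL : HypL S L)
    (k : Type) [Field k] [Finite k] [CharP k 2] (ρbar : GFS Ω S →* GL (Fin 3) k) (N : ℕ)
    (hN : Odd N) (hρ : HypR S L ρbar N) (m : ℕ) :
    ∃ (F' : Type) (_ : Field F') (_ : NumberField F') (_ : Algebra F' Ω) (_ : IsAlgClosure F' Ω)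
      (_ : Algebra F F') (_ : IsScalarTower F F' Ω) (S' : Set (HeightOneSpectrum (𝓞 F')))
      (r : GFS Ω S' →* GFS Ω S),
      Module.finrank F F' = 2 ^ m ∧ Concl S' (ρbar.comp r) := by
  have hK1 : StmK1 := Pool.Agent.W343.MZ.stmK1
  have hK2 : StmK2 := Pool.Agent.W343.MZ.stmK2
  have hK3 : StmK3 := Pool.Agent.W47.MZK3.k3
  have hK4 : StmK4 := Pool.Agent.W368.MZK4.t_K4 hK3
  have hK5 : StmK5 := Pool.Agent.W266.MZK5.t_K5
  have hK6 : StmK6 := Pool.Agent.W178.MZK.K6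
  have hK7 : StmK7 := Pool.Agent.W178.MZK.K7
  have hK8 : StmK8 := Pool.Agent.W561.MZK8.stmK8 W289.MZ.stmFrat hK1 hK2 hK3
  haveI : IsAlgClosed Ω := IsAlgClosure.isAlgClosed F
  haveI : Algebra.IsAlgebraic F Ω := IsAlgClosure.isAlgebraic
  haveI : IsAlgClosure L Ω := isAlgClosure_L F Ω L
  haveI hG1 : IsGalois F (Linf L Ω) := hK1.2 F L Ω inferInstance
  haveI hG2 : IsGalois L (Linf L Ω) := hK1.2 L L Ω inferInstance
  haveI hG3 : IsGalois F (FSmax S : IntermediateField F Ω) := hK7 F Ω S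
  have hle : (Linf L Ω).restrictScalars F ≤ FSmax S := hK6 F Ω S hS2 L hL.unr
  letI : Algebra (Linf L Ω) (FSmax S : IntermediateField F Ω) := (inc F Ω S L hle).toAlgebra
  haveI : IsScalarTower F (Linf L Ω) (FSmax S : IntermediateField F Ω) :=
    IsScalarTower.of_algebraMap_eq (fun x => Subtype.ext rfl)
  haveI : IsScalarTower F (Linf L Ω) Ω := IsScalarTower.of_algebraMap_eq (fun x => rfl)
  haveI : CharZero Ω := charZero_of_injective_algebraMap (algebraMap F Ω).injective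
  -- √2
  obtain ⟨r₀, hr₀⟩ : ∃ r : Ω, r ^ 2 = 2 := IsAlgClosed.exists_pow_nat_eq 2 (by norm_num)
  have hr₀mem : r₀ ∈ Linf L Ω := by
    refine hK1.1 L Ω 2 r₀ ?_ ⟨two_ne_zero, 1, ?_, ?_⟩ hr₀
    · have := (Linf L Ω).algebraMap_mem (2 : L)
      rwa [map_ofNat] at this
    · have : (2 ^ 1 * 2 : Ω) = algebraMap ℤ Ω 4 := by norm_num
      rw [this]; exact isIntegral_algebraMap
    · have : (2 ^ 1 * 2⁻¹ : Ω) = 1 := by norm_num
      rw [this]; exact isIntegral_one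
  have hr2 : (⟨r₀, hr₀mem⟩ : Linf L Ω) ^ 2 = 2 := Subtype.ext hr₀
  have hrn : (⟨r₀, hr₀mem⟩ : Linf L Ω) ∉ (algebraMap L (Linf L Ω)).range := by
    rintro ⟨x, hx⟩
    refine hL.sqrt x ?_
    apply (algebraMap L (Linf L Ω)).injective
    rw [map_pow, hx, hr2, map_ofNat]
  obtain ⟨D, hDj, hDres, hDc⟩ := NTG.main F L (Linf L Ω) (FSmax S : IntermediateField F Ω) hL.odd
    hL.sol hL.real ⟨r₀, hr₀mem⟩ hr2 hrn (hK2 L Ω)
    (fun φ c h1 h2 N hN hNo => by
      have e1 := hK4 L Ω N hNo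
      rw [hK5 L Ω hL.real φ c h1 h2 N hN hNo] at e1
      exact e1)
    (fun φ c σ h1 h2 h3 => hK8 L Ω hL.real hL.rat φ c σ h1 h2 h3)
  obtain ⟨H, hHn, hHo, hHi, hHc, hH⟩ := hGRP Gal(Linf L Ω/L) Gal(Linf L Ω/F)
    Gal((FSmax S : IntermediateField F Ω)/F) (F →+* ℂ) (L →+* ℂ) D m
  have hconj : ∀ φ : (Linf L Ω) →+* ℂ, ∃ c ∈ H, ComplexEmbedding.IsConj φ c := by
    intro φ
    obtain ⟨g, i, hgi⟩ := hDc φ
    exact ⟨_, hHn.conj_mem _ (hHc i) g, hgi⟩
  obtain ⟨F', iF, iNF, iAlg, iAC, iAF, iST, S', r, r', hfin, hreal', hS'fin, hS'p, hrc, hr'c, hr's,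
    hcomp, hrsurj⟩ := hFLD F Ω (Linf L Ω) S (fun x => rfl) H hHo (2 ^ m) hHi (by positivity)
      hSf hconj
  obtain ⟨P', iP1, iP2, iP3, D', hD'res, hD'j⟩ := hH (GFS Ω S') r' hr'c hr's
  -- the residual representation
  let ρ' : GFS Ω S' →* GL (Fin 3) k := ρbar.comp r
  have hρ'o : IsOpen (ρ'.ker : Set (GFS Ω S')) := hρ.opn.preimage hrc
  have himg : ∀ g, ∃ g', ρ' g' = ρbar g := by
    intro g
    obtain ⟨e, q, he⟩ := exists_e N hN m
    have h1 : AlgEquiv.restrictNormalHom (F := F) (K₁ := (FSmax S : IntermediateField F Ω))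
        (Linf L Ω) (g ^ (2 ^ m)) ∈ H := by
      rw [map_pow, ← hHi]
      exact Subgroup.pow_index_mem _ _
    obtain ⟨g', hg'⟩ := hrsurj _ h1
    refine ⟨g' ^ e, ?_⟩
    show ρbar (r (g' ^ e)) = ρbar g
    rw [map_pow, hg', ← pow_mul, map_pow, he, pow_add, pow_one, pow_mul, hρ.exp, one_pow, mul_one]
  have hρ'i : AbsIrred ρ' := by
    intro V hV
    refine hρ.irr V (fun g x hx => ?_)
    obtain ⟨g', hg'⟩ := himg g
    have := hV g' x hx
    rw [hg'] at this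
    exact this
  have hinv : ∀ g : GFS Ω S', g * g = 1 → ρ' g = 1 := inv_trivial ρ' N hN (fun g => hρ.exp (r g))
  have hscal : Scal D' ρ' := by
    intro g hg
    rw [hD'res] at hg
    obtain ⟨q, hq⟩ := hg
    refine hρ.scal (r g) (fun x hx => ?_)
    have h1 : ((r' g : H) : Gal(Linf L Ω/F)) ∈ D.j.range := by rw [← hq]; exact hD'j q
    rw [hDj, mem_range_jR, hcomp] at h1
    have h2 := h1 ⟨(x : Ω), hx⟩
    have h3 := res_apply (F := F) (E := Linf L Ω) (K := (FSmax S : IntermediateField F Ω))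
      (r g) (algebraMap L (Linf L Ω) ⟨(x : Ω), hx⟩)
    rw [h2] at h3
    have h4 : algebraMap (Linf L Ω) (FSmax S : IntermediateField F Ω)
        (algebraMap L (Linf L Ω) ⟨(x : Ω), hx⟩) = x := Subtype.ext rfl
    rw [h4] at h3
    exact h3.symm
  haveI : Algebra.IsAlgebraic F' Ω := iAC.isAlgebraic
  have hS2' : ∀ v : HeightOneSpectrum (𝓞 F'), ((2 : ℕ) : 𝓞 F') ∈ v.asIdeal → v ∈ S' :=
    hS'p 2 (fun v hv => hS2 v (by exact_mod_cast hv))
  refine ⟨F', iF, iNF, iAlg, iAC, iAF, iST, S', r, hfin, hreal', hinv, exists_w _,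
    fun w hw => ⟨⟨by norm_num, by norm_num, hS'fin, hS2', hρ'o, hρ'i, hw⟩,
      hDEL F' Ω S' k ρ' hreal' hinv w hw⟩,
    MZEX.stmEx F' Ω S' hS'fin (fun v hv => hS2' v (by exact_mod_cast hv)) k 3 (by norm_num) ρ'
      hρ'o hρ'i, ?_⟩
  intro R ρu hu
  have h1 := hLFT P' H (GFS Ω S') ((F →+* ℂ) × Fin (2 ^ m)) ((L →+* ℂ) × Fin (2 ^ m)) D' k ρ'
    hρ'o hρ'i hscal R ρu hu
  have h2 : Fintype.card ((F →+* ℂ) × Fin (2 ^ m)) = Module.finrank ℚ F' := by
    rw [Fintype.card_prod, NumberField.Embeddings.card, Fintype.card_fin,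
      ← Module.finrank_mul_finrank ℚ F F', hfin]
  rw [h2] at h1
  exact h1

end Pool.Agent.Helper15.MD.GEN
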