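import Pool.Agent.Helper15.MD.Stm

/-! Module GRP: the subgroups of index `2 ^ m` (helper86). -/

set_option autoImplicit false

namespace Pool.Agent.Helper15.MD.GRP

open MZ

/-- the cyclic group of order `2 ^ m` -/
abbrev Z (m : ℕ) : Type := Multiplicative (ZMod (2 ^ m))

lemma card_Z (m : ℕ) : Nat.card (Z m) = 2 ^ m := by
  show Nat.card (ZMod (2 ^ m)) = 2 ^ m
  exact Nat.card_zmod _

instance (m : ℕ) : Finite (Z m) := by
  have : NeZero (2 ^ m) := ⟨by positivity⟩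
  exact inferInstanceAs (Finite (ZMod (2 ^ m)))

section gen

variable {P : Type} [Group P] [TopologicalSpace P] [IsTopologicalGroup P] {ι : Type}

lemma hom_eq {X : Type} [Group X] (c : ι → P) (σ : P) (hgen : TopGen c σ) (f g : P →* X)
    (hf : IsOpen (f.ker : Set P)) (hg : IsOpen (g.ker : Set P)) (hc : ∀ i, f (c i) = g (c i))
    (hσ : f σ = g σ) : f = g := by
  have h1 : MonoidHom.eqLocus f g = ⊤ := by
    refine hgen _ ?_ hc hσ
    refine Subgroup.isOpen_mono (H₁ := f.ker ⊓ g.ker) ?_ (hf.inter hg)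
    rintro q ⟨h1, h2⟩
    show f q = g q
    rw [MonoidHom.mem_ker.mp h1, MonoidHom.mem_ker.mp h2]
  ext1 q
  have : q ∈ MonoidHom.eqLocus f g := by rw [h1]; trivial
  exact this

omit [TopologicalSpace P] [IsTopologicalGroup P] in
lemma zpow_split (σ : P) (m : ℕ) (z : ℤ) : ∃ (e : Fin (2 ^ m)) (q : ℤ),
    σ ^ z = (σ ^ (2 ^ m)) ^ q * σ ^ (e : ℕ) := by
  have hpos : (0 : ℤ) < 2 ^ m := by positivity
  have h1 := Int.emod_nonneg z hpos.ne'
  have h2 := Int.emod_lt_of_pos z hpos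
  obtain ⟨e, he⟩ := Int.eq_ofNat_of_zero_le h1
  have he2 : e < 2 ^ m := by
    rw [he] at h2
    exact_mod_cast h2
  refine ⟨⟨e, he2⟩, z / 2 ^ m, ?_⟩
  have h3 : z = 2 ^ m * (z / 2 ^ m) + e := by
    rw [← he]
    exact (Int.mul_ediv_add_emod z (2 ^ m)).symm
  conv_lhs => rw [h3]
  rw [zpow_add, zpow_mul, zpow_natCast]
  congr 2
  exact_mod_cast zpow_natCast σ (2 ^ m)

theorem topGen' (c : ι → P) (σ : P) (hgen : TopGen c σ) (m : ℕ) (χ : P →* Z m)
    (hχo : IsOpen (χ.ker : Set P)) (hχσ : χ σ = Multiplicative.ofAdd 1)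
    (c' : ι × Fin (2 ^ m) → χ.ker)
    (hc' : ∀ i e, (c' (i, e) : P) = σ ^ (e : ℕ) * c i * (σ ^ (e : ℕ))⁻¹) (σ' : χ.ker)
    (hσ' : (σ' : P) = σ ^ (2 ^ m)) : TopGen c' σ' := by
  intro N hN hcN hσN
  let N' : Subgroup P := N.map χ.ker.subtype
  have hN' : IsOpen (N' : Set P) := by
    rw [Subgroup.coe_map]
    exact hχo.isOpenMap_subtype_val _ hN
  have hmem : ∀ x : χ.ker, (x : P) ∈ N' → x ∈ N := by
    rintro x ⟨y, hy, hxy⟩
    have : y = x := Subtype.ext hxy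
    rwa [← this]
  have hle : N' ≤ χ.ker := by
    rintro x ⟨y, -, rfl⟩
    exact y.2
  have hs : σ ^ (2 ^ m) ∈ N' := ⟨σ', hσN, hσ'⟩
  have hce : ∀ i (e : Fin (2 ^ m)), σ ^ (e : ℕ) * c i * (σ ^ (e : ℕ))⁻¹ ∈ N' := fun i e =>
    ⟨c' (i, e), hcN _, hc' i e⟩
  let M : Subgroup P :=
    { carrier := {g | ∀ z : ℤ, σ ^ z * g * (σ ^ z)⁻¹ ∈ N'}
      one_mem' := fun z => by
        rw [mul_one, mul_inv_cancel]
        exact N'.one_mem
      mul_mem' := by
        intro a b ha hb z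
        have : σ ^ z * (a * b) * (σ ^ z)⁻¹ =
            (σ ^ z * a * (σ ^ z)⁻¹) * (σ ^ z * b * (σ ^ z)⁻¹) := by group
        rw [this]
        exact N'.mul_mem (ha z) (hb z)
      inv_mem' := by
        intro a ha z
        have : σ ^ z * a⁻¹ * (σ ^ z)⁻¹ = (σ ^ z * a * (σ ^ z)⁻¹)⁻¹ := by group
        rw [this]
        exact N'.inv_mem (ha z) }
  have hMmem : ∀ g, g ∈ M ↔ ∀ z : ℤ, σ ^ z * g * (σ ^ z)⁻¹ ∈ N' := fun g => Iff.rfl
  have hM0 : ∀ g, (∀ e : Fin (2 ^ m), σ ^ (e : ℕ) * g * (σ ^ (e : ℕ))⁻¹ ∈ N') → g ∈ M := by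
    intro g hg z
    obtain ⟨e, q, h⟩ := zpow_split σ m z
    have : σ ^ z * g * (σ ^ z)⁻¹ =
        (σ ^ (2 ^ m)) ^ q * (σ ^ (e : ℕ) * g * (σ ^ (e : ℕ))⁻¹) * ((σ ^ (2 ^ m)) ^ q)⁻¹ := by
      rw [h]
      group
    rw [this]
    exact N'.mul_mem (N'.mul_mem (N'.zpow_mem hs q) (hg e)) (N'.inv_mem (N'.zpow_mem hs q))
  have hMo : IsOpen (M : Set P) := by
    have h1 : IsOpen (⋂ e : Fin (2 ^ m), {g : P | σ ^ (e : ℕ) * g * (σ ^ (e : ℕ))⁻¹ ∈ (N' : Set P)}) := by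
      refine isOpen_iInter_of_finite fun e => ?_
      exact hN'.preimage (by fun_prop)
    convert h1 using 1
    ext g
    rw [Set.mem_iInter]
    constructor
    · intro h e
      have := h (e : ℕ)
      rw [zpow_natCast] at this
      exact this
    · intro h
      exact hM0 g h
  have hMconj : ∀ g ∈ M, ∀ w : ℤ, σ ^ w * g * (σ ^ w)⁻¹ ∈ M := by
    intro g hg w z
    have : σ ^ z * (σ ^ w * g * (σ ^ w)⁻¹) * (σ ^ z)⁻¹ = σ ^ (z + w) * g * (σ ^ (z + w))⁻¹ := by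
      rw [zpow_add]
      group
    rw [this]
    exact hg _
  let T : Subgroup P :=
    { carrier := {g | ∃ z : ℤ, g * σ ^ z ∈ M}
      one_mem' := ⟨0, by rw [zpow_zero, mul_one]; exact M.one_mem⟩
      mul_mem' := by
        rintro a b ⟨z, hz⟩ ⟨w, hw⟩
        refine ⟨w + z, ?_⟩
        have h1 := hMconj _ hw (-z)
        have : a * b * σ ^ (w + z) = (a * σ ^ z) * (σ ^ (-z) * (b * σ ^ w) * (σ ^ (-z))⁻¹) := by
          rw [zpow_add, zpow_neg]
          group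
        rw [this]
        exact M.mul_mem hz h1
      inv_mem' := by
        rintro a ⟨z, hz⟩
        refine ⟨-z, ?_⟩
        have h1 := hMconj _ (M.inv_mem hz) z
        have : a⁻¹ * σ ^ (-z) = σ ^ z * (a * σ ^ z)⁻¹ * (σ ^ z)⁻¹ := by
          rw [zpow_neg]
          group
        rw [this]
        exact h1 }
  have hMT : M ≤ T := fun g hg => ⟨0, by rwa [zpow_zero, mul_one]⟩
  have hT : T = ⊤ := by
    refine hgen T (Subgroup.isOpen_mono hMT hMo) (fun i => hMT (hM0 _ (hce i))) ?_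
    exact ⟨-1, by rw [zpow_neg, zpow_one, mul_inv_cancel]; exact M.one_mem⟩
  rw [eq_top_iff]
  rintro x -
  apply hmem
  have hx : (x : P) ∈ T := by rw [hT]; trivial
  obtain ⟨z, hz⟩ := hx
  have h1 : (x : P) * σ ^ z ∈ N' := by
    have := hz 0
    rwa [zpow_zero, one_mul, inv_one, mul_one] at this
  have h2 : χ ((x : P) * σ ^ z) = 1 := hle h1
  rw [map_mul, MonoidHom.mem_ker.mp x.2, one_mul, map_zpow, hχσ, ← ofAdd_zsmul] at h2
  have h3 : ((z : ℤ) : ZMod (2 ^ m)) = 0 := by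
    have := Multiplicative.ofAdd.injective (h2.trans ofAdd_zero.symm)
    simpa using this
  have h4 : ((2 ^ m : ℕ) : ℤ) ∣ z := (ZMod.intCast_zmod_eq_zero_iff_dvd z (2 ^ m)).mp h3
  obtain ⟨q, rfl⟩ := h4
  have h5 : σ ^ (((2 ^ m : ℕ) : ℤ) * q) ∈ N' := by
    rw [zpow_mul, zpow_natCast]
    exact N'.zpow_mem hs q
  have : (x : P) = (x : P) * σ ^ (((2 ^ m : ℕ) : ℤ) * q) * (σ ^ (((2 ^ m : ℕ) : ℤ) * q))⁻¹ := by
    group
  rw [this]
  exact N'.mul_mem h1 (N'.inv_mem h5)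

/-- the position in the wreath product -/
noncomputable def idx (m : ℕ) (q : Z m) : Fin (2 ^ m) :=
  have : NeZero (2 ^ m) := ⟨by positivity⟩
  ⟨(-(Multiplicative.toAdd q)).val, ZMod.val_lt _⟩

lemma idx_eq (m : ℕ) (e : Fin (2 ^ m)) :
    idx m (Multiplicative.ofAdd ((e : ℕ) : ZMod (2 ^ m)))⁻¹ = e := by
  have : NeZero (2 ^ m) := ⟨by positivity⟩
  apply Fin.ext
  show (-(Multiplicative.toAdd (Multiplicative.ofAdd ((e : ℕ) : ZMod (2 ^ m)))⁻¹)).val = (e : ℕ)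
  rw [toAdd_inv, toAdd_ofAdd, neg_neg, ZMod.val_natCast, Nat.mod_eq_of_lt e.2]

open Classical in
/-- the element of the wreath product to which `σ` is sent -/
noncomputable def wr {H : Type} [Group H] (m : ℕ) (u : H) : RegularWreathProduct H (Z m) :=
  ⟨fun q => if q = Multiplicative.ofAdd 1 then u else 1, Multiplicative.ofAdd 1⟩

lemma wr_pow_right {H : Type} [Group H] (m : ℕ) (u : H) (e : ℕ) :
    (wr m u ^ e).right = Multiplicative.ofAdd ((e : ℕ) : ZMod (2 ^ m)) := by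
  induction e with
  | zero => simp
  | succ e ih =>
    rw [pow_succ, RegularWreathProduct.mul_right, ih, Nat.cast_succ, ofAdd_add]
    rfl

lemma wr_pow_left {H : Type} [Group H] (m : ℕ) (u : H) (e : ℕ) :
    (wr m u ^ (e + 1)).left 1 = (wr m u ^ e).left 1 *
      (wr m u).left (Multiplicative.ofAdd ((e : ℕ) : ZMod (2 ^ m)))⁻¹ := by
  rw [pow_succ, RegularWreathProduct.mul_left, Pi.mul_apply, wr_pow_right, mul_one]

lemma wr_left_of {H : Type} [Group H] (m : ℕ) (u : H) (e : ℕ) (he : e + 1 < 2 ^ m) :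
    (wr m u).left (Multiplicative.ofAdd ((e : ℕ) : ZMod (2 ^ m)))⁻¹ = 1 := by
  have : NeZero (2 ^ m) := ⟨by positivity⟩
  show (if (Multiplicative.ofAdd ((e : ℕ) : ZMod (2 ^ m)))⁻¹ = Multiplicative.ofAdd 1 then u else 1) = 1
  rw [if_neg]
  intro h
  have h1 : (-((e : ℕ) : ZMod (2 ^ m))) = 1 := Multiplicative.ofAdd.injective h
  have h2 : (((e + 1 : ℕ)) : ZMod (2 ^ m)) = 0 := by
    rw [Nat.cast_succ, ← h1]
    ring
  rw [ZMod.natCast_eq_zero_iff] at h2
  have := Nat.le_of_dvd (by omega) h2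
  omega

lemma wr_left_last {H : Type} [Group H] (m : ℕ) (u : H) (e : ℕ) (he : e + 1 = 2 ^ m) :
    (wr m u).left (Multiplicative.ofAdd ((e : ℕ) : ZMod (2 ^ m)))⁻¹ = u := by
  show (if (Multiplicative.ofAdd ((e : ℕ) : ZMod (2 ^ m)))⁻¹ = Multiplicative.ofAdd 1 then u else 1) = u
  rw [if_pos]
  have h2 : (((e + 1 : ℕ)) : ZMod (2 ^ m)) = 0 := by
    rw [he]
    exact ZMod.natCast_self _
  rw [Nat.cast_succ] at h2
  rw [← ofAdd_neg]
  congr 1
  linear_combination -h2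

lemma wr_lt {H : Type} [Group H] (m : ℕ) (u : H) (e : ℕ) (he : e < 2 ^ m) :
    (wr m u ^ e).left 1 = 1 := by
  induction e with
  | zero => simp
  | succ e ih => rw [wr_pow_left, ih (by omega), wr_left_of m u e he, one_mul]

lemma wr_last {H : Type} [Group H] (m : ℕ) (u : H) : (wr m u ^ (2 ^ m)).left 1 = u := by
  obtain ⟨e, he⟩ : ∃ e, e + 1 = 2 ^ m := ⟨2 ^ m - 1, by
    have : 0 < 2 ^ m := by positivity
    omega⟩
  have h1 : ∀ N, N = 2 ^ m → (wr m u ^ N).left 1 = u → (wr m u ^ (2 ^ m)).left 1 = u := by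
    rintro N rfl h
    exact h
  refine h1 (e + 1) he ?_
  rw [wr_pow_left, wr_lt m u e (by omega), wr_left_last m u e he, one_mul]

omit [TopologicalSpace P] [IsTopologicalGroup P] [Group P] in
lemma conj_left {H Q : Type} [Group H] [Group Q] (a b : RegularWreathProduct H Q)
    (hb : b.right = 1) :
    (a * b * a⁻¹).left 1 = a.left 1 * b.left a.right⁻¹ * (a.left 1)⁻¹ := by
  rw [RegularWreathProduct.mul_left, Pi.mul_apply, RegularWreathProduct.mul_left, Pi.mul_apply,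
    RegularWreathProduct.mul_right, hb, mul_one, mul_one, RegularWreathProduct.inv_left]
  show _ * (a.left (a.right * (a.right * 1)⁻¹))⁻¹ = _
  rw [mul_one, mul_inv_cancel]

theorem assign' (c : ι → P) (σ : P) (hgen : TopGen c σ) (hasg : Assign c σ) (m : ℕ)
    (χ : P →* Z m) (hχo : IsOpen (χ.ker : Set P)) (hχc : ∀ i, χ (c i) = 1)
    (hχσ : χ σ = Multiplicative.ofAdd 1) (c' : ι × Fin (2 ^ m) → χ.ker)
    (hc' : ∀ i e, (c' (i, e) : P) = σ ^ (e : ℕ) * c i * (σ ^ (e : ℕ))⁻¹) (σ' : χ.ker)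
    (hσ' : (σ' : P) = σ ^ (2 ^ m)) : Assign c' σ' := by
  intro H _ _ hcard t u ht
  obtain ⟨h, hh⟩ := hcard
  let W := RegularWreathProduct H (Z m)
  have hW : ∃ e : ℕ, Nat.card W = 2 ^ e := by
    refine ⟨h * 2 ^ m + m, ?_⟩
    show Nat.card (RegularWreathProduct H (Z m)) = _
    rw [RegularWreathProduct.card, card_Z, hh, pow_add, pow_mul]
  let tt : ι → W := fun i => ⟨fun q => t (i, idx m q), 1⟩
  obtain ⟨Ψ, hΨo, hΨc, hΨσ⟩ := hasg W hW tt (wr m u) (by
    intro i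
    apply RegularWreathProduct.ext
    · funext q
      show t (i, idx m q) * t (i, idx m (1⁻¹ * q)) = 1
      rw [inv_one, one_mul]
      exact ht _
    · show (1 : Z m) * 1 = 1
      rw [one_mul])
  have hχ : (RegularWreathProduct.rightHom : W →* Z m).comp Ψ = χ := by
    refine hom_eq c σ hgen _ _ ?_ hχo ?_ ?_
    · refine Subgroup.isOpen_mono (H₁ := Ψ.ker) ?_ hΨo
      intro x hx
      rw [MonoidHom.mem_ker] at hx ⊢
      rw [MonoidHom.comp_apply, hx, map_one]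
    · intro i
      rw [MonoidHom.comp_apply, hΨc, hχc]
      rfl
    · rw [MonoidHom.comp_apply, hΨσ, hχσ]
      rfl
  have hright : ∀ p : P, (Ψ p).right = χ p := fun p => DFunLike.congr_fun hχ p
  let ψ : χ.ker →* H :=
    { toFun := fun p => (Ψ p).left 1
      map_one' := by
        rw [Subgroup.coe_one, map_one]
        rfl
      map_mul' := by
        intro p q
        rw [Subgroup.coe_mul, map_mul, RegularWreathProduct.mul_left, Pi.mul_apply, hright,
          MonoidHom.mem_ker.mp p.2, inv_one, one_mul] }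
  refine ⟨ψ, ?_, ?_, ?_⟩
  · refine Subgroup.isOpen_mono (H₁ := Ψ.ker.subgroupOf χ.ker) ?_ ?_
    · intro p hp
      rw [Subgroup.mem_subgroupOf, MonoidHom.mem_ker] at hp
      rw [MonoidHom.mem_ker]
      show (Ψ p).left 1 = 1
      rw [hp]
      rfl
    · exact hΨo.preimage continuous_subtype_val
  · rintro ⟨i, e⟩
    show (Ψ (c' (i, e))).left 1 = t (i, e)
    rw [hc', map_mul, map_mul, map_inv, map_pow, hΨc, hΨσ]
    rw [conj_left _ _ rfl, wr_lt m u e e.2, inv_one, mul_one, one_mul, wr_pow_right]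
    show t (i, idx m _) = t (i, e)
    rw [idx_eq]
  · show (Ψ σ').left 1 = u
    rw [hσ', map_pow, hΨσ, wr_last]

end gen

/-- extension of an invariant homomorphism to the semidirect product -/
theorem extHom {P G X : Type} [Group P] [Group G] [Group X] (j : P →* G)
    (hj : Function.Injective j) (hjn : j.range.Normal) (A : Subgroup G) (hA : A ⊓ j.range = ⊥)
    (hA' : ∀ g : G, ∃ a ∈ A, ∃ q ∈ j.range, g = q * a) (f : P →* X)
    (hf : ∀ b ∈ A, ∀ q q' : P, j q' = b * j q * b⁻¹ → f q' = f q) :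
    ∃ F : G →* X, (∀ q, F (j q) = f q) ∧ ∀ b ∈ A, F b = 1 := by
  have hdec : ∀ g : G, ∃ q : P, ∃ a ∈ A, g = j q * a := by
    intro g
    obtain ⟨a, ha, x, ⟨q, rfl⟩, h⟩ := hA' g
    exact ⟨q, a, ha, h⟩
  choose Q α hα hQ using hdec
  have huniq : ∀ (q q' : P) (a a' : G), a ∈ A → a' ∈ A → j q * a = j q' * a' → q = q' ∧ a = a' := by
    intro q q' a a' ha ha' h
    have h1 : a * a'⁻¹ ∈ A ⊓ j.range := by
      refine ⟨A.mul_mem ha (A.inv_mem ha'), q⁻¹ * q', ?_⟩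
      rw [map_mul, map_inv, inv_mul_eq_iff_eq_mul, ← mul_assoc, h, mul_inv_cancel_right]
    rw [hA, Subgroup.mem_bot, mul_inv_eq_one] at h1
    subst h1
    exact ⟨hj (mul_right_cancel h), rfl⟩
  refine ⟨MonoidHom.mk' (fun g => f (Q g)) ?_, ?_, ?_⟩
  · intro g g'
    obtain ⟨q₁, hq₁⟩ : α g * j (Q g') * (α g)⁻¹ ∈ j.range := hjn.conj_mem _ ⟨Q g', rfl⟩ (α g)
    have e1 : j (Q (g * g')) * α (g * g') = j (Q g * q₁) * (α g * α g') := by
      rw [← hQ, map_mul, hq₁]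
      conv_lhs => rw [hQ g, hQ g']
      group
    obtain ⟨e2, -⟩ := huniq _ _ _ _ (hα _) (A.mul_mem (hα g) (hα g')) e1
    rw [e2, map_mul, hf (α g) (hα g) (Q g') q₁ hq₁]
  · intro q
    have e1 : j (Q (j q)) * α (j q) = j q * 1 := by rw [← hQ, mul_one]
    obtain ⟨e2, -⟩ := huniq _ _ _ _ (hα _) A.one_mem e1
    show f (Q (j q)) = f q
    rw [e2]
  · intro b hb
    have e1 : j (Q b) * α b = j 1 * b := by rw [← hQ, map_one, one_mul]
    obtain ⟨e2, -⟩ := huniq _ _ _ _ (hα _) hb e1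
    show f (Q b) = 1
    rw [e2, map_one]

theorem main : S_GRP := by
  intro P G 𝒢 V ι _ _ _ _ _ _ _ _ _ _ _ D m
  -- the character
  obtain ⟨χ, hχo, hχc, hχσ⟩ := D.asg (Z m) ⟨m, card_Z m⟩ (fun _ => 1) (Multiplicative.ofAdd 1)
    (fun _ => one_mul 1)
  have hinv : ∀ b ∈ D.A, ∀ q q' : P, D.j q' = b * D.j q * b⁻¹ → χ q' = χ q := by
    intro b hb
    have hconjmem : ∀ (q : P), b * D.j q * b⁻¹ ∈ D.j.range := fun q =>
      D.hjn.conj_mem _ ⟨q, rfl⟩ b
    let cb : P → P := fun q => (hconjmem q).choose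
    have hcb : ∀ q, D.j (cb q) = b * D.j q * b⁻¹ := fun q => (hconjmem q).choose_spec
    let cbH : P →* P := MonoidHom.mk' cb (fun x y => by
      apply D.hj
      rw [map_mul, hcb, hcb, hcb, map_mul]
      group)
    have hcbc : Continuous cbH := by
      have hemb : Topology.IsOpenEmbedding D.j :=
        Topology.IsOpenEmbedding.of_continuous_injective_isOpenMap D.hjc D.hj D.hjo
      rw [hemb.isInducing.continuous_iff]
      have : (D.j ∘ cbH) = fun q => b * D.j q * b⁻¹ := by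
        funext q
        exact hcb q
      rw [this]
      have := D.hjc
      fun_prop
    have h1 : χ.comp cbH = χ := by
      refine hom_eq D.c D.σ D.gen _ _ ?_ hχo ?_ ?_
      · exact hχo.preimage hcbc
      · intro i
        have : cb (D.c i) = D.c (D.π b i) := by
          apply D.hj
          rw [hcb, D.hπc b hb i]
        show χ (cb (D.c i)) = χ (D.c i)
        rw [this, hχc, hχc]
      · have : cb D.σ = D.σ := by
          apply D.hj
          rw [hcb, D.hσ b hb]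
        show χ (cb D.σ) = χ D.σ
        rw [this]
    intro q q' hq
    have : q' = cb q := D.hj (by rw [hq, hcb])
    rw [this]
    exact DFunLike.congr_fun h1 q
  obtain ⟨F, hFj, hFA⟩ := extHom D.j D.hj D.hjn D.A D.hA D.hA' χ hinv
  have hjker : ∀ q ∈ χ.ker, D.j q ∈ F.ker := fun q hq => by
    rw [MonoidHom.mem_ker, hFj]
    exact hq
  have hAker : D.A ≤ F.ker := fun b hb => hFA b hb
  refine ⟨F.ker, MonoidHom.normal_ker F, ?_, ?_, ?_, ?_⟩
  · have h1 : IsOpen (((χ.ker).map D.j : Subgroup G) : Set G) := by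
      rw [Subgroup.coe_map]
      exact D.hjo _ hχo
    refine Subgroup.isOpen_mono ?_ h1
    rintro _ ⟨q, hq, rfl⟩
    exact hjker q hq
  · rw [Subgroup.index_ker]
    have : F.range = ⊤ := by
      rw [MonoidHom.range_eq_top]
      intro x
      have : NeZero (2 ^ m) := ⟨by positivity⟩
      refine ⟨D.j (D.σ ^ (Multiplicative.toAdd x).val), ?_⟩
      rw [hFj, map_pow, hχσ, ← ofAdd_nsmul]
      rw [nsmul_one, ZMod.natCast_zmod_val]
      rfl
    rw [this, Subgroup.card_top, card_Z]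
  · intro i
    exact hjker _ (hχc i)
  intro 𝒢' _ _ _ r hr hrs
  have hcmem : ∀ i (e : ℕ), D.σ ^ e * D.c i * (D.σ ^ e)⁻¹ ∈ χ.ker := by
    intro i e
    rw [MonoidHom.mem_ker, map_mul, map_mul, map_inv, hχc, mul_one, mul_inv_cancel]
  have hσmem : D.σ ^ (2 ^ m) ∈ χ.ker := by
    rw [MonoidHom.mem_ker, map_pow, hχσ, ← ofAdd_nsmul, nsmul_one, ZMod.natCast_self]
    rfl
  let j' : χ.ker →* F.ker := (D.j.comp χ.ker.subtype).codRestrict F.ker (fun q => hjker _ q.2)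
  have hj'v : ∀ q : χ.ker, ((j' q : F.ker) : G) = D.j q := fun q => rfl
  have hj'r : ∀ x : F.ker, x ∈ j'.range ↔ (x : G) ∈ D.j.range := by
    intro x
    constructor
    · rintro ⟨q, rfl⟩
      exact ⟨q, rfl⟩
    · rintro ⟨q, hq⟩
      have h1 : q ∈ χ.ker := by
        rw [MonoidHom.mem_ker, ← hFj, hq]
        exact x.2
      exact ⟨⟨q, h1⟩, Subtype.ext hq⟩
  let c' : ι × Fin (2 ^ m) → χ.ker := fun x => ⟨D.σ ^ (x.2 : ℕ) * D.c x.1 * (D.σ ^ (x.2 : ℕ))⁻¹, hcmem _ _⟩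
  let σ' : χ.ker := ⟨D.σ ^ (2 ^ m), hσmem⟩
  have hA2 : ∀ x : F.ker, ∃ a ∈ D.A.subgroupOf F.ker, ∃ q ∈ j'.range, x = q * a := by
    intro x
    obtain ⟨a, ha, q, hq, hx⟩ := D.hA' x
    have hqm : q ∈ F.ker := by
      have : q = (x : G) * a⁻¹ := by rw [hx, mul_inv_cancel_right]
      rw [this]
      exact F.ker.mul_mem x.2 (F.ker.inv_mem (hAker ha))
    exact ⟨⟨a, hAker ha⟩, ha, ⟨q, hqm⟩, (hj'r _).2 hq, Subtype.ext hx⟩
  refine ⟨χ.ker, inferInstance, inferInstance, inferInstance,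
    { j := j'
      hj := ?_
      hjo := ?_
      hjc := ?_
      hjn := ?_
      res := r
      hres := hr
      hsurj := hrs
      A := D.A.subgroupOf F.ker
      hA := ?_
      hA' := hA2
      c := c'
      σ := σ'
      c2 := ?_
      gen := topGen' D.c D.σ D.gen m χ hχo hχσ c' (fun i e => rfl) σ' rfl
      asg := assign' D.c D.σ D.gen D.asg m χ hχo hχc hχσ c' (fun i e => rfl) σ' rfl
      vv := fun x => (D.vv x.1, x.2)
      a := fun x => ⟨D.a x.1, hAker (D.haA x.1)⟩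
      haA := fun x => D.haA x.1
      π := fun g x => (D.π g x.1, x.2)
      hπv := fun b x => by
        show (D.vv (D.π b x.1), x.2) = (D.vv x.1, x.2)
        rw [D.hπv]
      hπa := fun b hb x => Subtype.ext (D.hπa b hb x.1)
      hπc := ?_
      hσ := ?_
      bs := fun v => (D.bs v.1, v.2)
      hbs := fun v => by
        show (D.vv (D.bs v.1), v.2) = v
        rw [D.hbs]
      hbs1 := fun v => Subtype.ext (D.hbs1 v.1) }, rfl, fun q => ⟨q, rfl⟩⟩
  · intro x y hxy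
    apply Subtype.ext
    apply D.hj
    exact congrArg Subtype.val hxy
  · intro U hU
    have h1 : IsOpen (D.j '' (Subtype.val '' U)) := D.hjo _ (hχo.isOpenMap_subtype_val _ hU)
    have h2 := h1.preimage (continuous_subtype_val (p := fun x => x ∈ F.ker))
    convert h2 using 1
    ext x
    constructor
    · rintro ⟨q, hq, rfl⟩
      exact ⟨q, ⟨q, hq, rfl⟩, rfl⟩
    · rintro ⟨_, ⟨q, hq, rfl⟩, hx⟩
      exact ⟨q, hq, Subtype.ext hx⟩
  · exact (D.hjc.comp continuous_subtype_val).subtype_mk _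
  · have : j'.range = D.j.range.subgroupOf F.ker := by
      ext x
      rw [hj'r, Subgroup.mem_subgroupOf]
    rw [this]
    have := D.hjn
    infer_instance
  · rw [eq_bot_iff]
    rintro x ⟨h1, h2⟩
    have h3 : (x : G) ∈ D.A ⊓ D.j.range := ⟨h1, (hj'r x).1 h2⟩
    rw [D.hA, Subgroup.mem_bot] at h3
    exact Subtype.ext h3
  · rintro ⟨i, e⟩
    apply Subtype.ext
    show D.σ ^ (e : ℕ) * D.c i * (D.σ ^ (e : ℕ))⁻¹ * (D.σ ^ (e : ℕ) * D.c i * (D.σ ^ (e : ℕ))⁻¹) = 1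
    calc _ = D.σ ^ (e : ℕ) * (D.c i * D.c i) * (D.σ ^ (e : ℕ))⁻¹ := by group
      _ = 1 := by rw [D.c2, mul_one, mul_inv_cancel]
  · rintro b hb ⟨i, e⟩
    apply Subtype.ext
    have hb' : (b : G) ∈ D.A := hb
    show (b : G) * D.j (D.σ ^ (e : ℕ) * D.c i * (D.σ ^ (e : ℕ))⁻¹) * (b : G)⁻¹ =
      D.j (D.σ ^ (e : ℕ) * D.c (D.π b i) * (D.σ ^ (e : ℕ))⁻¹)
    have h1 := D.hπc b hb' i
    have h2 := D.hσ b hb'
    have h3 : (b : G) * D.j D.σ ^ (e : ℕ) * (b : G)⁻¹ = D.j D.σ ^ (e : ℕ) := by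
      rw [← conj_pow, h2]
    rw [map_mul, map_mul, map_inv, map_pow, map_mul, map_mul, map_inv, map_pow, ← h1]
    calc (b : G) * (D.j D.σ ^ (e : ℕ) * D.j (D.c i) * (D.j D.σ ^ (e : ℕ))⁻¹) * (b : G)⁻¹
        = ((b : G) * D.j D.σ ^ (e : ℕ) * (b : G)⁻¹) * ((b : G) * D.j (D.c i) * (b : G)⁻¹) *
          ((b : G) * D.j D.σ ^ (e : ℕ) * (b : G)⁻¹)⁻¹ := by group
      _ = _ := by rw [h3]
  · intro b hb
    apply Subtype.ext
    have hb' : (b : G) ∈ D.A := hb
    show (b : G) * D.j (D.σ ^ (2 ^ m)) * (b : G)⁻¹ = D.j (D.σ ^ (2 ^ m))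
    rw [map_pow, ← conj_pow, D.hσ b hb']

end Pool.Agent.Helper15.MD.GRP
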