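import Mathlib

/-!
# Coprime actions of solvable groups of odd order on 2-groups
-/

set_option autoImplicit false
set_option linter.style.haveILetI false

namespace Pool.Agent.Helper15.MD.SZG

/-- A nontrivial finite solvable group has a normal subgroup of prime index. -/
lemma exists_prime_index (H : Type) [Group H] [Finite H] [Nontrivial H] [Group.IsSolvable H] :
    ∃ N : Subgroup H, N.Normal ∧ N.index.Prime := by
  classical
  -- a maximal proper normal subgroup
  obtain ⟨N, hN⟩ : ∃ N : Subgroup H, Maximal (fun M : Subgroup H => M.Normal ∧ M ≠ ⊤) N := by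
    refine (Set.toFinite {M : Subgroup H | M.Normal ∧ M ≠ ⊤}).exists_maximal ⟨⊥, ?_⟩
    exact ⟨inferInstance, bot_ne_top⟩
  obtain ⟨⟨hNn, hNt⟩, hNmax⟩ := hN
  haveI := hNn
  haveI hnt : Nontrivial (H ⧸ N) := by
    rw [← not_subsingleton_iff_nontrivial]
    intro h
    exact hNt (QuotientGroup.subgroup_eq_top_of_subsingleton N h)
  haveI : IsSimpleGroup (H ⧸ N) := by
    refine ⟨fun M hM => ?_⟩
    by_cases h : M.comap (QuotientGroup.mk' N) = ⊤
    · right
      rw [eq_top_iff]
      intro x _
      obtain ⟨y, rfl⟩ := QuotientGroup.mk'_surjective N x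
      have : y ∈ M.comap (QuotientGroup.mk' N) := by rw [h]; trivial
      exact this
    · left
      have h1 : N ≤ M.comap (QuotientGroup.mk' N) := by
        intro x hx
        show QuotientGroup.mk' N x ∈ M
        have : QuotientGroup.mk' N x = 1 := by
          rw [← MonoidHom.mem_ker, QuotientGroup.ker_mk']
          exact hx
        rw [this]
        exact M.one_mem
      have h2 : M.comap (QuotientGroup.mk' N) ≤ N := hNmax ⟨hM.comap _, h⟩ h1
      rw [eq_bot_iff]
      intro x hx
      obtain ⟨y, rfl⟩ := QuotientGroup.mk'_surjective N x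
      have h3 : y ∈ N := h2 hx
      rw [Subgroup.mem_bot, ← MonoidHom.mem_ker, QuotientGroup.ker_mk']
      exact h3
  haveI : Group.IsSolvable (H ⧸ N) := inferInstance
  have hcomm := (IsSimpleGroup.comm_iff_isSolvable (G := H ⧸ N)).2 inferInstance
  letI : CommGroup (H ⧸ N) := { (inferInstance : Group (H ⧸ N)) with mul_comm := hcomm }
  have hp : (Nat.card (H ⧸ N)).Prime := IsSimpleGroup.prime_card
  exact ⟨N, hNn, hp⟩

/-- a permutation of order dividing a prime `q` of a finite set of order prime to `q` has a fixed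
point -/
lemma perm_fixed {X : Type} [Finite X] (q : ℕ) (hq : q.Prime) (h : ¬ q ∣ Nat.card X)
    (f : Equiv.Perm X) (hf : f ^ q = 1) : ∃ x, f x = x := by
  haveI : Fact q.Prime := ⟨hq⟩
  have hp : IsPGroup q (Subgroup.zpowers f) := by
    rintro ⟨g, hg⟩
    refine ⟨1, ?_⟩
    obtain ⟨i, rfl⟩ := Subgroup.mem_zpowers_iff.1 hg
    apply Subtype.ext
    show (f ^ i) ^ (q ^ 1) = 1
    rw [pow_one, ← zpow_natCast, zpow_comm, zpow_natCast, hf, one_zpow]
  obtain ⟨x, hx⟩ := hp.nonempty_fixed_point_of_prime_not_dvd_card X h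
  exact ⟨x, hx ⟨f, Subgroup.mem_zpowers f⟩⟩

/-- **Fixed points.** A finite solvable group `H` of odd order, which acts on a finite 2-group `P` by
automorphisms and stabilizes a subgroup `D` of index 2, fixes an element outside `D`. The action is
given by a homomorphism to `P ≃* P`. -/
theorem fixed (n : ℕ) : ∀ (H : Type) [Group H] [Finite H] [Group.IsSolvable H], Nat.card H = n → Odd n →
    ∀ (P : Type) [Group P] [Finite P] (φ : H →* MulAut P) (D : Subgroup P) (f : ℕ),
      Nat.card P = 2 ^ f → D.index = 2 → (∀ h, ∀ x ∈ D, φ h x ∈ D) →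
      ∃ s : P, s ∉ D ∧ ∀ h, φ h s = s := by
  induction n using Nat.strong_induction_on with
  | _ n ih =>
  intro H _ _ _ hn hodd P _ _ φ D f hP hD hst
  rcases subsingleton_or_nontrivial H with hs | hnt
  · obtain ⟨s, hs'⟩ : ∃ s, s ∉ D := by
      by_contra hcon
      push Not at hcon
      have : D = ⊤ := by rw [eq_top_iff]; intro x _; exact hcon x
      rw [this, Subgroup.index_top] at hD
      omega
    refine ⟨s, hs', fun h => ?_⟩
    rw [Subsingleton.elim h 1, map_one]
    rfl
  · obtain ⟨N, hNn, hNp⟩ := exists_prime_index H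
    haveI := hNn
    have hcardN : Nat.card N * N.index = n := by rw [← hn]; exact N.card_mul_index
    have hNpos : 0 < Nat.card N := Nat.card_pos
    have hNlt : Nat.card N < n := by
      rw [← hcardN]
      have := hNp.two_le
      nlinarith
    have hNodd : Odd (Nat.card N) := by
      rw [← hcardN, Nat.odd_mul] at hodd
      exact hodd.1
    have hqodd : Odd N.index := by
      rw [← hcardN, Nat.odd_mul] at hodd
      exact hodd.2
    obtain ⟨s₀, hs₀, hs₀'⟩ := ih _ hNlt N rfl hNodd P (φ.comp N.subtype) D f hP hD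
      (fun h x hx => hst h x hx)
    -- the fixed points of `N`
    let F : Subgroup P :=
      { carrier := {x | ∀ h ∈ N, φ h x = x}
        one_mem' := fun h _ => map_one _
        mul_mem' := fun {a b} ha hb h hh => by rw [map_mul, ha h hh, hb h hh]
        inv_mem' := fun {a} ha h hh => by rw [map_inv, ha h hh] }
    have hFmem : ∀ x, x ∈ F ↔ ∀ h ∈ N, φ h x = x := fun x => Iff.rfl
    have hFst : ∀ h, ∀ x ∈ F, φ h x ∈ F := by
      intro h x hx k hk
      have h1 : φ (h⁻¹ * k * h) x = x := hx _ (by
        have := hNn.conj_mem k hk h⁻¹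
        rwa [inv_inv] at this)
      have h2 : φ k (φ h x) = φ h (φ (h⁻¹ * k * h) x) := by
        rw [← MulAut.mul_apply, ← MulAut.mul_apply, ← map_mul, ← map_mul]
        congr 2
        group
      rw [h2, h1]
    have hs₀F : s₀ ∈ F := fun h hh => hs₀' ⟨h, hh⟩
    let X : Type := {x : P // x ∈ F ∧ x ∉ D}
    -- number of elements
    have hXcard : Nat.card X = Nat.card (F ⊓ D : Subgroup P) := by
      refine Nat.card_congr ?_
      refine
        { toFun := fun x => ⟨s₀⁻¹ * x.1, ?_⟩
          invFun := fun y => ⟨s₀ * y.1, ?_⟩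
          left_inv := fun x => Subtype.ext (mul_inv_cancel_left _ _)
          right_inv := fun y => Subtype.ext (inv_mul_cancel_left _ _) }
      · refine ⟨F.mul_mem (F.inv_mem hs₀F) x.2.1, ?_⟩
        show s₀⁻¹ * x.1 ∈ D
        rw [Subgroup.mul_mem_iff_of_index_two hD, inv_mem_iff]
        exact ⟨fun h => absurd h hs₀, fun h => absurd h x.2.2⟩
      · refine ⟨F.mul_mem hs₀F y.2.1, ?_⟩
        rw [Subgroup.mul_mem_iff_of_index_two hD]
        exact fun h => hs₀ (h.2 y.2.2)
    have hXq : ¬ N.index ∣ Nat.card X := by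
      intro h
      rw [hXcard] at h
      have h1 : Nat.card (F ⊓ D : Subgroup P) ∣ 2 ^ f := by
        rw [← hP]; exact Subgroup.card_subgroup_dvd_card _
      have h2 := hNp.dvd_of_dvd_pow (h.trans h1)
      have h3 := (Nat.prime_dvd_prime_iff_eq hNp Nat.prime_two).1 h2
      rw [h3] at hqodd
      exact absurd hqodd (by decide)
    -- an element generating `H / N`
    have hDst : ∀ h x, φ h x ∈ D ↔ x ∈ D := by
      intro h x
      refine ⟨fun hx => ?_, hst h x⟩
      have := hst h⁻¹ _ hx
      rwa [← MulAut.mul_apply, ← map_mul, inv_mul_cancel, map_one] at this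
    let pm : H → Equiv.Perm X := fun h =>
      { toFun := fun x => ⟨φ h x.1, hFst h _ x.2.1, fun hx => x.2.2 ((hDst h _).1 hx)⟩
        invFun := fun x => ⟨φ h⁻¹ x.1, hFst h⁻¹ _ x.2.1, fun hx => x.2.2 ((hDst h⁻¹ _).1 hx)⟩
        left_inv := fun x => Subtype.ext (by
          show φ h⁻¹ (φ h x.1) = x.1
          rw [← MulAut.mul_apply, ← map_mul, inv_mul_cancel, map_one]; rfl)
        right_inv := fun x => Subtype.ext (by
          show φ h (φ h⁻¹ x.1) = x.1
          rw [← MulAut.mul_apply, ← map_mul, mul_inv_cancel, map_one]; rfl) }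
    have hpm : ∀ h (x : X), (pm h x).1 = φ h x.1 := fun h x => rfl
    let pmH : H →* Equiv.Perm X := MonoidHom.mk' pm (fun a b => by
      ext x
      show φ (a * b) x.1 = φ a (φ b x.1)
      rw [map_mul]; rfl)
    haveI : Fact N.index.Prime := ⟨hNp⟩
    haveI : IsCyclic (H ⧸ N) := isCyclic_of_prime_card (p := N.index) rfl
    obtain ⟨g', hg'⟩ := IsCyclic.exists_generator (α := H ⧸ N)
    obtain ⟨g, rfl⟩ := QuotientGroup.mk'_surjective N g'
    have hgq : pmH g ^ N.index = 1 := by
      have h1 : g ^ N.index ∈ N := N.pow_index_mem g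
      rw [← map_pow]
      ext x
      exact x.2.1 _ h1
    obtain ⟨x, hx⟩ := perm_fixed N.index hNp hXq (pmH g) hgq
    refine ⟨x.1, x.2.2, fun h => ?_⟩
    obtain ⟨i, hi⟩ := Subgroup.mem_zpowers_iff.1 (hg' (QuotientGroup.mk' N h))
    have h1 : (g ^ i)⁻¹ * h ∈ N := by
      rw [← map_zpow] at hi
      exact QuotientGroup.eq.1 hi
    have h2 : ∀ i : ℤ, φ (g ^ i) x.1 = x.1 := by
      intro i
      have h3 : (pmH g ^ i) x = x := by
        have := (MulAction.mem_stabilizer_iff (G := Equiv.Perm X) (a := x)).1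
          ((MulAction.stabilizer (Equiv.Perm X) x).zpow_mem
            (MulAction.mem_stabilizer_iff.2 hx) i)
        exact this
      rw [← map_zpow] at h3
      exact congrArg Subtype.val h3
    have h4 : h = g ^ i * ((g ^ i)⁻¹ * h) := by group
    rw [h4, map_mul, MulAut.mul_apply, x.2.1 _ h1, h2]

end Pool.Agent.Helper15.MD.SZG
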