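import Mathlib
import Pool.Graph.R_seed8.W566.MZ.Stmts
import Pool.Agent.Helper15.MD.SZG

/-!
# Schur-Zassenhaus with a common fixed point, for a solvable quotient of odd order

The profinite version for an open normal pro-2 subgroup `P` with solvable quotient of odd order
(the library file `W462/MZ/SZ.lean` treats quotients of order `3 ^ e`; the compactness argument is
taken from it).
-/

set_option autoImplicit false

namespace Pool.Agent.Helper15.MD.SZH

/-- a subgroup acts on a normal subgroup by conjugation -/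
def cact {Q : Type} [Group Q] (P : Subgroup Q) (hP : P.Normal) (H : Subgroup Q) : H →* MulAut P where
  toFun h :=
    { toFun := fun x => ⟨(h : Q) * x.1 * (h : Q)⁻¹, hP.conj_mem _ x.2 _⟩
      invFun := fun x => ⟨(h : Q)⁻¹ * x.1 * (h : Q), by
        have := hP.conj_mem _ x.2 ((h : Q)⁻¹)
        rwa [inv_inv] at this⟩
      left_inv := fun x => Subtype.ext (by
        show (h : Q)⁻¹ * ((h : Q) * x.1 * (h : Q)⁻¹) * (h : Q) = x.1
        group)
      right_inv := fun x => Subtype.ext (by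
        show (h : Q) * ((h : Q)⁻¹ * x.1 * (h : Q)) * (h : Q)⁻¹ = x.1
        group)
      map_mul' := fun x y => Subtype.ext (by
        show (h : Q) * (x.1 * y.1) * (h : Q)⁻¹ = ((h : Q) * x.1 * (h : Q)⁻¹) * ((h : Q) * y.1 * (h : Q)⁻¹)
        group) }
  map_one' := by
    ext x
    show ((1 : H) : Q) * x.1 * ((1 : H) : Q)⁻¹ = x.1
    simp
  map_mul' a b := by
    ext x
    show ((a * b : H) : Q) * x.1 * ((a * b : H) : Q)⁻¹ = (a : Q) * ((b : Q) * x.1 * (b : Q)⁻¹) * (a : Q)⁻¹
    rw [Subgroup.coe_mul]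
    group

/-- the finite case -/
theorem finite_case {Q : Type} [Group Q] [Finite Q] (P D : Subgroup Q) (hP : P.Normal)
    (hD : D.Normal) (hDP : D ≤ P) (f : ℕ) (hcP : Nat.card P = 2 ^ f)
    (hcD : Nat.card D * 2 = 2 ^ f) (hodd : Odd P.index) (hsol : Group.IsSolvable (Q ⧸ P)) :
    ∃ (H : Subgroup Q) (s : Q), Subgroup.IsComplement' P H ∧ s ∈ P ∧ s ∉ D ∧
      ∀ h ∈ H, h * s = s * h := by
  haveI := hP
  have hcop : Nat.Coprime (Nat.card P) P.index := by
    rw [hcP]
    exact Nat.Coprime.pow_left _ (Nat.coprime_two_left.2 hodd)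
  obtain ⟨H, hH⟩ := Subgroup.exists_right_complement'_of_coprime hcop
  have hcH : Nat.card H = P.index := hH.symm.index_eq_card.symm
  have hHsol : Group.IsSolvable H := by
    have hinj : Function.Injective ((QuotientGroup.mk' P).comp H.subtype) := by
      rw [injective_iff_map_eq_one]
      intro x hx
      have h1 : (x : Q) ∈ P := by
        have : QuotientGroup.mk' P (x : Q) = 1 := hx
        rwa [← MonoidHom.mem_ker, QuotientGroup.ker_mk'] at this
      have := Subgroup.disjoint_def.1 hH.disjoint h1 x.2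
      exact Subtype.ext this
    haveI := hsol
    exact Group.isSolvable_of_isSolvable_injective hinj
  have hdi : (D.subgroupOf P).index = 2 := by
    have h1 : Nat.card (D.subgroupOf P) = Nat.card D :=
      Nat.card_congr (Subgroup.subgroupOfEquivOfLe hDP).toEquiv
    have h2 := (D.subgroupOf P).card_mul_index
    rw [h1, hcP, ← hcD] at h2
    exact Nat.eq_of_mul_eq_mul_left Nat.card_pos h2
  haveI := hHsol
  obtain ⟨s, hs, hs'⟩ := SZG.fixed (Nat.card H) H rfl (by rw [hcH]; exact hodd) P (cact P hP H)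
    (D.subgroupOf P) f hcP hdi (by
      intro h x hx
      rw [Subgroup.mem_subgroupOf] at hx ⊢
      exact hD.conj_mem _ hx _)
  refine ⟨H, s.1, hH, s.2, fun h => hs (Subgroup.mem_subgroupOf.2 h), ?_⟩
  intro h hh
  have h1 := congrArg Subtype.val (hs' ⟨h, hh⟩)
  have h2 : h * s.1 * h⁻¹ = s.1 := h1
  calc h * s.1 = (h * s.1 * h⁻¹) * h := by group
    _ = s.1 * h := by rw [h2]

/-- The profinite statement. -/
def Stm : Prop :=
  ∀ (G : Type) [Group G] [TopologicalSpace G] [IsTopologicalGroup G] [CompactSpace G]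
    [TotallyDisconnectedSpace G] (P D : Subgroup G), P.Normal → IsOpen (P : Set G) →
    D.Normal → IsOpen (D : Set G) → D ≤ P → D.relIndex P = 2 →
    Odd P.index →
    (∀ (N : Subgroup G) [N.Normal], N = P → Group.IsSolvable (G ⧸ N)) →
    (∀ N : Subgroup G, N.Normal → IsOpen (N : Set G) → N ≤ P → ∃ e : ℕ, N.relIndex P = 2 ^ e) →
    ∃ (A : Subgroup G) (σ : G), A ⊓ P = ⊥ ∧ (∀ g : G, ∃ a ∈ A, ∃ q ∈ P, g = q * a) ∧
      σ ∈ P ∧ σ ∉ D ∧ ∀ a ∈ A, a * σ = σ * a

theorem stm : Stm := by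
  intro G _ _ _ _ _ P D hP hPo hD hDo hDP h2 hodd hsol hN
  haveI := hP
  haveI := hD
  have hsolP : Group.IsSolvable (G ⧸ P) := hsol P rfl
  haveI hFP : Finite (G ⧸ P) := Subgroup.quotient_finite_of_isOpen P hPo
  have hkP : ∀ g : G, g ∈ P ↔ (QuotientGroup.mk' P) g = 1 := fun g => by
    rw [← MonoidHom.mem_ker, QuotientGroup.ker_mk']
  -- index of the compatible system
  let I : Type := {U : Subgroup G // U.Normal ∧ IsOpen (U : Set G) ∧ U ≤ D}
  haveI : Nonempty I := ⟨⟨D, hD, hDo, le_rfl⟩⟩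
  let C : I → Set ((G ⧸ P → G) × G) := fun U => {y |
    (∀ x : G ⧸ P, (Quotient.out x)⁻¹ * y.1 x ∈ P) ∧
    (∀ x x' : G ⧸ P, y.1 (x * x') * (y.1 x * y.1 x')⁻¹ ∈ U.1) ∧
    y.2 ∈ P ∧ y.2 ∉ D ∧ ∀ x : G ⧸ P, (y.1 x * y.2) * (y.2 * y.1 x)⁻¹ ∈ U.1}
  have hcl : ∀ H : Subgroup G, IsOpen (H : Set G) → IsClosed (H : Set G) := fun H hH =>
    Subgroup.isClosed_of_isOpen H hH
  have hCclosed : ∀ U, IsClosed (C U) := by
    intro U
    have c1 : ∀ x : G ⧸ P, Continuous (fun y : (G ⧸ P → G) × G => y.1 x) := fun x =>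
      (continuous_apply x).comp continuous_fst
    have a1 : IsClosed {y : (G ⧸ P → G) × G | ∀ x : G ⧸ P, (Quotient.out x)⁻¹ * y.1 x ∈ P} := by
      rw [Set.setOf_forall]
      exact isClosed_iInter fun x => (hcl P hPo).preimage (continuous_const.mul (c1 x))
    have a2 : IsClosed {y : (G ⧸ P → G) × G |
        ∀ x x' : G ⧸ P, y.1 (x * x') * (y.1 x * y.1 x')⁻¹ ∈ U.1} := by
      simp only [Set.setOf_forall]
      exact isClosed_iInter fun x => isClosed_iInter fun x' =>
        (hcl U.1 U.2.2.1).preimage ((c1 _).mul ((c1 x).mul (c1 x')).inv)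
    have a3 : IsClosed {y : (G ⧸ P → G) × G | y.2 ∈ P} := (hcl P hPo).preimage continuous_snd
    have a4 : IsClosed {y : (G ⧸ P → G) × G | y.2 ∉ D} :=
      (hDo.isClosed_compl).preimage continuous_snd
    have a5 : IsClosed {y : (G ⧸ P → G) × G |
        ∀ x : G ⧸ P, (y.1 x * y.2) * (y.2 * y.1 x)⁻¹ ∈ U.1} := by
      simp only [Set.setOf_forall]
      exact isClosed_iInter fun x => (hcl U.1 U.2.2.1).preimage
        (((c1 x).mul continuous_snd).mul (continuous_snd.mul (c1 x)).inv)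
    exact a1.inter (a2.inter (a3.inter (a4.inter a5)))
  have hdir : Directed (· ⊇ ·) C := by
    intro U V
    refine ⟨⟨U.1 ⊓ V.1, ?_, U.2.2.1.inter V.2.2.1, inf_le_left.trans U.2.2.2⟩, ?_, ?_⟩
    · haveI := U.2.1
      haveI := V.2.1
      infer_instance
    · rintro y ⟨b1, b2, b3, b4, b5⟩
      exact ⟨b1, fun x x' => (b2 x x').1, b3, b4, fun x => (b5 x).1⟩
    · rintro y ⟨b1, b2, b3, b4, b5⟩
      exact ⟨b1, fun x x' => (b2 x x').2, b3, b4, fun x => (b5 x).2⟩
  have hne : ∀ U, (C U).Nonempty := by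
    rintro ⟨U, hUn, hUo, hUD⟩
    haveI := hUn
    haveI : Finite (G ⧸ U) := Subgroup.quotient_finite_of_isOpen U hUo
    have hUP : U ≤ P := hUD.trans hDP
    obtain ⟨f, hf⟩ := hN U hUn hUo hUP
    set π := QuotientGroup.mk' U with hπ
    have hker : π.ker = U := QuotientGroup.ker_mk' U
    have hsurj : Function.Surjective π := QuotientGroup.mk'_surjective U
    have hcP : Nat.card (P.map π) = 2 ^ f := by
      rw [← Subgroup.relIndex_ker, hker, hf]
    have hcD : Nat.card (D.map π) * 2 = 2 ^ f := by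
      have h3 := Subgroup.relIndex_mul_relIndex U D P hUD hDP
      rw [h2, hf] at h3
      rw [← Subgroup.relIndex_ker, hker]
      exact h3
    have hcomapP : (P.map π).comap π = P := by
      rw [Subgroup.comap_map_eq, hker]
      exact sup_eq_left.2 hUP
    have hcomapD : (D.map π).comap π = D := by
      rw [Subgroup.comap_map_eq, hker]
      exact sup_eq_left.2 hUD
    have hmP : ∀ g, g ∈ P ↔ π g ∈ P.map π := fun g => by
      conv_lhs => rw [← hcomapP]
      rfl
    have hi : Odd (P.map π).index := by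
      rw [← Subgroup.index_comap_of_surjective _ hsurj, hcomapP]
      exact hodd
    haveI := hP.map π hsurj
    have hsolm : Group.IsSolvable ((G ⧸ U) ⧸ P.map π) := by
      have hsj : Function.Surjective (QuotientGroup.map P (P.map π) π
          (Subgroup.le_comap_map π P)) := by
        intro x
        obtain ⟨y, rfl⟩ := QuotientGroup.mk'_surjective (P.map π) x
        obtain ⟨z, rfl⟩ := hsurj y
        exact ⟨QuotientGroup.mk' P z, rfl⟩
      haveI := hsolP
      exact Group.isSolvable_of_surjective hsj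
    obtain ⟨H, s, hH, hsP, hsD, hcomm⟩ := finite_case (P.map π) (D.map π)
      (hP.map π hsurj) (hD.map π hsurj) (Subgroup.map_mono hDP) f hcP hcD hi hsolm
    -- lifts
    have hlift : ∀ x : G ⧸ P, ∃ g : G, (Quotient.out x)⁻¹ * g ∈ P ∧ π g ∈ H := by
      intro x
      obtain ⟨⟨p, h⟩, hph⟩ := hH.2 (π (Quotient.out x))
      have hph' : (p : G ⧸ U) * (h : G ⧸ U) = π (Quotient.out x) := hph
      obtain ⟨g, hg⟩ := hsurj (h : G ⧸ U)
      refine ⟨g, ?_, by rw [hg]; exact h.2⟩
      have h1 : π ((Quotient.out x) * g⁻¹) ∈ P.map π := by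
        rw [map_mul, map_inv, hg, ← hph', mul_inv_cancel_right]
        exact p.2
      have h3 : (Quotient.out x) * g⁻¹ ∈ P := (hmP _).2 h1
      have h4 : g * (Quotient.out x)⁻¹ ∈ P := by
        have := P.inv_mem h3
        rwa [mul_inv_rev, inv_inv] at this
      exact hP.mem_comm h4
    choose t ht1 ht2 using hlift
    obtain ⟨σ, hσ⟩ := hsurj s
    have hmkt : ∀ x : G ⧸ P, (QuotientGroup.mk' P) (t x) = x := by
      intro x
      have h1 : (QuotientGroup.mk' P) (Quotient.out x) = (QuotientGroup.mk' P) (t x) :=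
        QuotientGroup.eq.2 (ht1 x)
      rw [← h1]
      exact Quotient.out_eq x
    refine ⟨(t, σ), ht1, ?_, ?_, ?_, ?_⟩
    · intro x x'
      have h1 : π (t (x * x') * (t x * t x')⁻¹) ∈ H := by
        rw [map_mul, map_inv, map_mul]
        exact H.mul_mem (ht2 _) (H.inv_mem (H.mul_mem (ht2 _) (ht2 _)))
      have h3 : t (x * x') * (t x * t x')⁻¹ ∈ P := by
        rw [hkP, map_mul, map_inv, map_mul, hmkt, hmkt, hmkt, mul_inv_cancel]
      have h4 : π (t (x * x') * (t x * t x')⁻¹) ∈ P.map π := Subgroup.mem_map_of_mem π h3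
      have h5 : π (t (x * x') * (t x * t x')⁻¹) = 1 := by
        have := hH.disjoint
        exact (Subgroup.disjoint_def.1 this) h4 h1
      show t (x * x') * (t x * t x')⁻¹ ∈ U
      rw [← hker]
      exact h5
    · show σ ∈ P
      rw [hmP, hσ]
      exact hsP
    · show σ ∉ D
      intro h
      apply hsD
      rw [← hσ]
      exact Subgroup.mem_map_of_mem π h
    · intro x
      show (t x * σ) * (σ * t x)⁻¹ ∈ U
      rw [← hker, MonoidHom.mem_ker, map_mul, map_inv, map_mul, map_mul, hσ, hcomm _ (ht2 x),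
        mul_inv_cancel]
  obtain ⟨⟨t, σ⟩, hy⟩ := IsCompact.nonempty_iInter_of_directed_nonempty_isCompact_isClosed C hdir
    hne (fun U => (hCclosed U).isCompact) hCclosed
  rw [Set.mem_iInter] at hy
  have htriv : ∀ g : G, (∀ U : I, g ∈ U.1) → g = 1 := by
    intro g hg
    by_contra hg1
    haveI : T2Space G := inferInstance
    have hW : IsOpen ({g}ᶜ ∩ (D : Set G)) := isOpen_compl_singleton.inter hDo
    obtain ⟨N, hNsub⟩ := ProfiniteGrp.exist_openNormalSubgroup_sub_open_nhds_of_one hW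
      ⟨fun h => hg1 (Set.mem_singleton_iff.1 h).symm, D.one_mem⟩
    have := hg ⟨N.toSubgroup, N.isNormal', N.isOpen', fun x hx => (hNsub hx).2⟩
    exact (hNsub this).1 rfl
  obtain ⟨b1, -, b3, b4, -⟩ := hy ⟨D, hD, hDo, le_rfl⟩
  have hmul : ∀ x x' : G ⧸ P, t (x * x') = t x * t x' := by
    intro x x'
    exact mul_inv_eq_one.1 (htriv _ fun U => (hy U).2.1 x x')
  have hcom : ∀ x : G ⧸ P, t x * σ = σ * t x := by
    intro x
    exact mul_inv_eq_one.1 (htriv _ fun U => (hy U).2.2.2.2 x)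
  let T : (G ⧸ P) →* G := MonoidHom.mk' t hmul
  have hmkt : ∀ x : G ⧸ P, (QuotientGroup.mk' P) (t x) = x := by
    intro x
    have h1 : (QuotientGroup.mk' P) (Quotient.out x) = (QuotientGroup.mk' P) (t x) :=
      QuotientGroup.eq.2 (b1 x)
    rw [← h1]
    exact Quotient.out_eq x
  refine ⟨T.range, σ, ?_, ?_, b3, b4, ?_⟩
  · rw [eq_bot_iff]
    rintro _ ⟨⟨x, rfl⟩, hx⟩
    have hx' : t x ∈ P := hx
    have h1 : (QuotientGroup.mk' P) (t x) = 1 := by
      rw [← MonoidHom.mem_ker, QuotientGroup.ker_mk']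
      exact hx'
    rw [hmkt] at h1
    rw [h1, map_one]
    exact Subgroup.mem_bot.2 rfl
  · intro g
    refine ⟨T ((QuotientGroup.mk' P) g), ⟨_, rfl⟩, g * (T ((QuotientGroup.mk' P) g))⁻¹, ?_, by group⟩
    rw [hkP, map_mul, map_inv]
    show (QuotientGroup.mk' P) g * ((QuotientGroup.mk' P) (t ((QuotientGroup.mk' P) g)))⁻¹ = 1
    rw [hmkt, mul_inv_cancel]
  · rintro _ ⟨x, rfl⟩
    exact hcom x

end Pool.Agent.Helper15.MD.SZH
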