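import Pool.Graph.R_seed8.W294.MZ.Strong
import Pool.Graph.R_seed8.W21.MZ.ExA

/-!
# Mazur's dimension conjecture: unbounded failure. Statements of the modules.

* `GD` : the group-theoretic data;
* `MV k τ` : the ring of power series over `k` in the variables `τ` as a coefficient ring;
* `QI` : the ideal of the power series which vanish when the variables of order `< r` are `0`.
-/

set_option autoImplicit false

namespace Pool.Agent.Helper15.MD

open NumberField IsDedekindDomain IsLocalRing MZ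

/-- The group-theoretic data: `P` is an open normal pro-2 subgroup of `G` with the complement `A`,
topologically freely generated by involutions `c i` and the element `σ`, which commutes with `A`; `A`
permutes the `c i` freely with orbits `V`; `𝒢 → G` is surjective. -/
structure GD (P G 𝒢 V ι : Type) [Group P] [TopologicalSpace P] [Group G] [TopologicalSpace G]
    [Group 𝒢] [TopologicalSpace 𝒢] where
  j : P →* G
  hj : Function.Injective j
  hjo : IsOpenMap j
  hjc : Continuous j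
  hjn : j.range.Normal
  res : 𝒢 →* G
  hres : Continuous res
  hsurj : Function.Surjective res
  A : Subgroup G
  hA : A ⊓ j.range = ⊥
  hA' : ∀ g : G, ∃ a ∈ A, ∃ q ∈ j.range, g = q * a
  c : ι → P
  σ : P
  c2 : ∀ i, c i * c i = 1
  gen : TopGen c σ
  asg : Assign c σ
  vv : ι → V
  a : ι → G
  haA : ∀ i, a i ∈ A
  π : G → ι → ι
  hπv : ∀ b i, vv (π b i) = vv i
  hπa : ∀ b ∈ A, ∀ i, a (π b i) = b * a i
  hπc : ∀ b ∈ A, ∀ i, b * j (c i) * b⁻¹ = j (c (π b i))
  hσ : ∀ b ∈ A, b * j σ * b⁻¹ = j σ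
  bs : V → ι
  hbs : ∀ v, vv (bs v) = v
  hbs1 : ∀ v, a (bs v) = 1

/-- constant matrices -/
noncomputable def CM {k A : Type} [Field k] [CommRing A] (n : ℕ) (C : k →+* A) :
    GL (Fin n) k →* GL (Fin n) A :=
  Matrix.GeneralLinearGroup.map C

/-- `ψ : P → GL_n(A)` is continuous for the `m_A`-adic topology -/
def Cont {P : Type} [Group P] [TopologicalSpace P] {k : Type} [Field k] [CharP k 2] {n : ℕ}
    (A : CNL 2 k) (ψ : P →* GL (Fin n) A.A) : Prop :=
  ∀ m : ℕ, IsOpen {g : P | ∀ a b : Fin n,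
    ((ψ g : Matrix (Fin n) (Fin n) A.A) - 1) a b ∈ maximalIdeal A.A ^ m}

/-- scalar on the preimage of `P` -/
def Scal {P G 𝒢 V ι : Type} [Group P] [TopologicalSpace P] [Group G] [TopologicalSpace G]
    [Group 𝒢] [TopologicalSpace 𝒢] (D : GD P G 𝒢 V ι) {k : Type} [Field k] {n : ℕ}
    (ρbar : 𝒢 →* GL (Fin n) k) : Prop :=
  ∀ g, D.res g ∈ D.j.range → ∃ a : k, (ρbar g : Matrix (Fin n) (Fin n) k) = a • (1 : Matrix (Fin n) (Fin n) k)

/-! ### Module GRP -/

/-- GRP: the subgroup `H` of index `2 ^ m` of `G` with `G / H` cyclic, generated by `σ`, which contains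
`A` and the `c i`; the group `P' = P ∩ H` is freely generated by `σ^i c σ^-i` and `σ^(2^m)`. -/
def S_GRP : Prop :=
  ∀ (P G 𝒢 V ι : Type) [Group P] [TopologicalSpace P] [IsTopologicalGroup P]
    [CompactSpace P] [TotallyDisconnectedSpace P]
    [Group G] [TopologicalSpace G] [IsTopologicalGroup G]
    [Group 𝒢] [TopologicalSpace 𝒢] [IsTopologicalGroup 𝒢] (D : GD P G 𝒢 V ι) (m : ℕ),
    ∃ H : Subgroup G, H.Normal ∧ IsOpen (H : Set G) ∧ H.index = 2 ^ m ∧ (∀ i, D.j (D.c i) ∈ H) ∧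
      ∀ (𝒢' : Type) [Group 𝒢'] [TopologicalSpace 𝒢'] [IsTopologicalGroup 𝒢'] (r : 𝒢' →* H),
        Continuous r → Function.Surjective r →
        ∃ (P' : Type) (_ : Group P') (_ : TopologicalSpace P') (_ : IsTopologicalGroup P')
          (D' : GD P' H 𝒢' (V × Fin (2 ^ m)) (ι × Fin (2 ^ m))),
          D'.res = r ∧ ∀ q : P', (D'.j q : G) ∈ D.j.range

/-! ### Module LIM -/

/-- LIM: from finite 2-groups to `GL_n(A)` -/
def S_LIM : Prop :=
  ∀ (P : Type) [Group P] [TopologicalSpace P] [IsTopologicalGroup P]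
    (ι : Type) (c : ι → P) (σ : P), TopGen c σ → Assign c σ →
    ∀ (k : Type) [Field k] [Finite k] [CharP k 2] (n : ℕ) (A : CNL 2 k), (2 : A.A) = 0 →
    ∀ (t : ι → GL (Fin n) A.A) (u : GL (Fin n) A.A),
      (∀ i, t i * t i = 1) →
      (∀ i, Matrix.GeneralLinearGroup.map A.res (t i) = 1) →
      Matrix.GeneralLinearGroup.map A.res u = 1 →
      ∃ ψ : P →* GL (Fin n) A.A,
        (∀ g, Matrix.GeneralLinearGroup.map A.res (ψ g) = 1) ∧ Cont A ψ ∧
        (∀ i, ψ (c i) = t i) ∧ ψ σ = u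

/-! ### Module EXT -/

/-- EXT: the extension of `ψ` to the big group -/
def S_EXT : Prop :=
  ∀ (P G 𝒢 V ι : Type) [Group P] [TopologicalSpace P] [IsTopologicalGroup P]
    [Group G] [TopologicalSpace G] [IsTopologicalGroup G]
    [Group 𝒢] [TopologicalSpace 𝒢] [IsTopologicalGroup 𝒢] (D : GD P G 𝒢 V ι)
    (k : Type) [Field k] [CharP k 2] (n : ℕ) (A : CNL 2 k) (C : k →+* A.A),
    (∀ x, A.res (C x) = x) →
    ∀ (ρbar : 𝒢 →* GL (Fin n) k), IsOpen (ρbar.ker : Set 𝒢) → Scal D ρbar →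
    ∀ (t : ι → GL (Fin n) A.A) (u : GL (Fin n) A.A),
      (∀ g : 𝒢, D.res g ∈ D.A → ∀ i,
        t (D.π (D.res g) i) = CM n C (ρbar g) * t i * (CM n C (ρbar g))⁻¹) →
      (∀ g : 𝒢, CM n C (ρbar g) * u * (CM n C (ρbar g))⁻¹ = u) →
    ∀ ψ : P →* GL (Fin n) A.A, (∀ g, Matrix.GeneralLinearGroup.map A.res (ψ g) = 1) → Cont A ψ →
      (∀ i, ψ (D.c i) = t i) → ψ D.σ = u →
      ∃ ρ : 𝒢 →* GL (Fin n) A.A, IsLift ρbar A ρ ∧
        ∀ (g : 𝒢) (q : P), ∀ b ∈ D.A, D.res g = D.j q * b → ρ g = ψ q * CM n C (ρbar g)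

/-! ### The ring `k[[x_s : s ∈ τ]]` -/

/-- the ring of power series over the finite field `k` in the variables `τ` -/
noncomputable def MV (k : Type) [Field k] [CharP k 2] (τ : Type) [Finite τ] : CNL 2 k where
  A := MvPowerSeries τ k
  complete := by
    have hk : IsAdicComplete (maximalIdeal k) k := by
      rw [IsLocalRing.maximalIdeal_eq_bot]
      infer_instance
    exact (Pool.Agent.W21.MZ.exA k τ).1
  alg := ((MvPowerSeries.C (σ := τ) (R := k)).comp WittVector.constantCoeff).toAlgebra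
  res := MvPowerSeries.constantCoeff
  res_surj := fun a => ⟨MvPowerSeries.C a, MvPowerSeries.constantCoeff_C a⟩
  res_coeff := fun _ => MvPowerSeries.constantCoeff_C _

/-- the power series in which every monomial involves a variable `s` with `o s < r` -/
def QI (k : Type) [Field k] {τ : Type} (o : τ → ℕ) (r : ℕ) : Set (MvPowerSeries τ k) :=
  {f | ∀ n : τ →₀ ℕ, (∀ s, o s < r → n s = 0) → MvPowerSeries.coeff n f = 0}

/-- the linear combination with the coefficients `w` of the traces of `ρ - ρbar` -/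
noncomputable def TrS {G k τ : Type} [Group G] [Field k] {n : ℕ} (ρbar : G →* GL (Fin n) k)
    (ρ : G →* GL (Fin n) (MvPowerSeries τ k)) (w : G →₀ k) : MvPowerSeries τ k :=
  w.sum fun g x => MvPowerSeries.C x *
    ((ρ g : Matrix (Fin n) (Fin n) (MvPowerSeries τ k)).trace -
      MvPowerSeries.C ((ρbar g : Matrix (Fin n) (Fin n) k).trace))

/-! ### Module DIM -/

/-- DIM: the Krull dimension of `R / 2 R` is at least `N` if there is a lift to power series for
which the traces give a chain of primes of length `N`. -/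
def S_DIM : Prop :=
  ∀ (k : Type) [Field k] [Finite k] [CharP k 2] (G : Type) [Group G] [TopologicalSpace G]
    [IsTopologicalGroup G] (n : ℕ) (ρbar : G →* GL (Fin n) k) (τ : Type) [Finite τ] (o : τ → ℕ)
    (N : ℕ) (ρ : G →* GL (Fin n) (MV k τ).A), IsLift ρbar (MV k τ) ρ →
    (∀ r < N, ∃ w : G →₀ k, TrS ρbar ρ w ∈ QI k o (r + 1) ∧ TrS ρbar ρ w ∉ QI k o r) →
    ∀ (R : CNL 2 k) (ρu : G →* GL (Fin n) R.A), IsUniversal ρbar R ρu →
      ((N : ℕ) : WithBot ℕ∞) ≤ ringKrullDim (R.A ⧸ Ideal.span {((2 : ℕ) : R.A)})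

/-! ### Module BUR -/

/-- BUR (Burnside): the matrices of an absolutely irreducible representation span `M_n(k)`. -/
def S_BUR : Prop :=
  ∀ (k : Type) [Field k] (G : Type) [Group G] (n : ℕ) (ρbar : G →* GL (Fin n) k), 1 ≤ n →
    AbsIrred ρbar →
    Submodule.span k (Set.range fun g => (ρbar g : Matrix (Fin n) (Fin n) k)) = ⊤

/-! ### Module LFT -/

/-- LFT: the lower bound of the dimension from the data. -/
def S_LFT : Prop :=
  ∀ (P G 𝒢 V ι : Type) [Group P] [TopologicalSpace P] [IsTopologicalGroup P]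
    [Group G] [TopologicalSpace G] [IsTopologicalGroup G]
    [Group 𝒢] [TopologicalSpace 𝒢] [IsTopologicalGroup 𝒢] [Fintype V] (D : GD P G 𝒢 V ι)
    (k : Type) [Field k] [Finite k] [CharP k 2] (ρbar : 𝒢 →* GL (Fin 3) k),
    IsOpen (ρbar.ker : Set 𝒢) → AbsIrred ρbar → Scal D ρbar →
    ∀ (R : CNL 2 k) (ρu : 𝒢 →* GL (Fin 3) R.A), IsUniversal ρbar R ρu →
      ((4 * Fintype.card V + 1 : ℕ) : WithBot ℕ∞) ≤ ringKrullDim (R.A ⧸ Ideal.span {((2 : ℕ) : R.A)})

/-! ### Module NT0 -/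

/-- NT0: the group data from the fields, and complex conjugations. -/
def S_NT0 : Prop :=
  ∀ (F L E K : Type) [Field F] [NumberField F] [Field L] [NumberField L] [Field E] [Field K]
    [Algebra F L] [Algebra L E] [Algebra F E] [IsScalarTower F L E]
    [Algebra E K] [Algebra F K] [IsScalarTower F E K]
    [FiniteDimensional F L] [IsGalois F L] [IsGalois F E] [IsGalois L E] [IsGalois F K],
    Module.finrank F L = 9 →
    (∀ τ : L →+* ℂ, ComplexEmbedding.IsReal τ) →
    ∀ r : E, r ^ 2 = 2 → r ∉ (algebraMap L E).range → ProTwo Gal(E/L) →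
    (∀ (φ : (L →+* ℂ) → (E →+* ℂ)) (c : (L →+* ℂ) → Gal(E/L)),
      (∀ τ, (φ τ).comp (algebraMap L E) = τ) → (∀ τ, ComplexEmbedding.IsConj (φ τ) (c τ)) →
      ∀ N : Subgroup Gal(E/L), N.Normal → IsOpen (N : Set Gal(E/L)) →
        2 ^ (∑ τ, orb N (c τ) + 1) ≤ numHom2 N) →
    (∀ (φ : (L →+* ℂ) → (E →+* ℂ)) (c : (L →+* ℂ) → Gal(E/L)) (σ : Gal(E/L)),
      (∀ τ, (φ τ).comp (algebraMap L E) = τ) → (∀ τ, ComplexEmbedding.IsConj (φ τ) (c τ)) →
      (∀ r : E, r ^ 2 = 2 → σ r ≠ r) → TopGen c σ) →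
    ∃ D : GD Gal(E/L) Gal(E/F) Gal(K/F) (F →+* ℂ) (L →+* ℂ),
      D.j = jR F L E ∧ D.res = AlgEquiv.restrictNormalHom E ∧
      ∀ φ : E →+* ℂ, ∃ (g : Gal(E/F)) (i : L →+* ℂ),
        ComplexEmbedding.IsConj φ (g * D.j (D.c i) * g⁻¹ : Gal(E/F))

/-! ### Module BC -/

/-- BC: the maximal extension of `F` unramified outside `S` lies in the one of `F'`, if `F'` is
unramified outside `S` over `F`. -/
def S_BC : Prop :=
  ∀ (F Ω F' : Type) [Field F] [NumberField F] [Field Ω] [Algebra F Ω] [IsAlgClosure F Ω]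
    [Field F'] [NumberField F'] [Algebra F F'] [Algebra F' Ω] [IsScalarTower F F' Ω]
    (S : Set (HeightOneSpectrum (𝓞 F))) (S' : Set (HeightOneSpectrum (𝓞 F'))),
    (∀ w : HeightOneSpectrum (𝓞 F'),
      (∃ v ∈ S, w.asIdeal.comap (algebraMap (𝓞 F) (𝓞 F')) = v.asIdeal) → w ∈ S') →
    (∀ x : F', algebraMap F' Ω x ∈ (FSmax S : IntermediateField F Ω)) →
    ∀ x : Ω, x ∈ (FSmax S : IntermediateField F Ω) → x ∈ (FSmax S' : IntermediateField F' Ω)

/-! ### Module DEL -/

/-- DEL: `δ = 1` over a totally real field if the involutions have trivial image. -/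
def S_DEL : Prop :=
  ∀ (F Ω : Type) [Field F] [NumberField F] [Field Ω] [Algebra F Ω]
    (S : Set (HeightOneSpectrum (𝓞 F))) (k : Type) [Field k] (ρbar : GFS Ω S →* GL (Fin 3) k),
    (∀ v : InfinitePlace F, v.IsReal) →
    (∀ g : GFS Ω S, g * g = 1 → ρbar g = 1) →
    ∀ w : InfinitePlace F → InfinitePlace (FSmax S : IntermediateField F Ω),
      (∀ v : InfinitePlace F,
        (w v).comap (algebraMap F (FSmax S : IntermediateField F Ω)) = v) →
      delta S ρbar w = 1

/-! ### Module FLD -/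

/-- FLD: the tower. `F` is a number field, `E / F` a Galois extension in `Ω`, `E ≤ F_S`; `H` an open
subgroup of index `2 ^ m` in `Gal(E/F)`. Then the fixed field `F'` of `H` is a number field of degree
`2 ^ m` over `F`, and with the places `S'` of `F'` above `S` there are continuous homomorphisms
`r' : G_{F',S'} → H`, surjective, and `r : G_{F',S'} → G_{F,S}`, compatible with the restriction; the
image of `r` is the preimage of `H`. If every complex embedding of `E` has a complex conjugation in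
`H`, then `F'` is totally real. -/
def S_FLD : Prop :=
  ∀ (F Ω E : Type) [Field F] [NumberField F] [Field Ω] [Algebra F Ω] [IsAlgClosure F Ω]
    [Field E] [Algebra F E] [Algebra E Ω] [IsScalarTower F E Ω] [IsGalois F E]
    (S : Set (HeightOneSpectrum (𝓞 F))) [Algebra E (FSmax S : IntermediateField F Ω)]
    [IsScalarTower F E (FSmax S : IntermediateField F Ω)]
    (_ : ∀ x : E, ((algebraMap E (FSmax S : IntermediateField F Ω) x : FSmax S) : Ω) =
      algebraMap E Ω x)
    (H : Subgroup Gal(E/F)) (_ : IsOpen (H : Set Gal(E/F))) (d : ℕ) (_ : H.index = d) (_ : d ≠ 0),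
    S.Finite →
    (∀ φ : E →+* ℂ, ∃ c ∈ H, ComplexEmbedding.IsConj φ c) →
    ∃ (F' : Type) (_ : Field F') (_ : NumberField F') (_ : Algebra F' Ω) (_ : IsAlgClosure F' Ω)
      (_ : Algebra F F') (_ : IsScalarTower F F' Ω)
      (S' : Set (HeightOneSpectrum (𝓞 F')))
      (r : GFS Ω S' →* GFS Ω S) (r' : GFS Ω S' →* H),
      Module.finrank F F' = d ∧ (∀ v : InfinitePlace F', v.IsReal) ∧ S'.Finite ∧
      (∀ (p : ℕ), (∀ v : HeightOneSpectrum (𝓞 F), (p : 𝓞 F) ∈ v.asIdeal → v ∈ S) →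
        ∀ v : HeightOneSpectrum (𝓞 F'), (p : 𝓞 F') ∈ v.asIdeal → v ∈ S') ∧
      Continuous r ∧ Continuous r' ∧ Function.Surjective r' ∧
      (∀ g, ((r' g : H) : Gal(E/F)) =
        AlgEquiv.restrictNormalHom (F := F) (K₁ := (FSmax S : IntermediateField F Ω)) E (r g)) ∧
      ∀ h : GFS Ω S, AlgEquiv.restrictNormalHom (F := F)
        (K₁ := (FSmax S : IntermediateField F Ω)) E h ∈ H → ∃ g, r g = h

end Pool.Agent.Helper15.MD
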